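import Mathlib
import Pool.Agent.Work.MP_5de19d_an.Brouwer

set_option autoImplicit false

open Filter Topology Set Metric MeasureTheory
open scoped ContDiff

namespace Pool.Agent.Work.MP_089002_mp

section topo

variable {E : Type} [NormedAddCommGroup E] [InnerProductSpace ℝ E] [FiniteDimensional ℝ E]

theorem smooth_approx {f : E → E} (hf : Continuous f) (R : ℝ) {δ : ℝ} (hδ : 0 < δ) :
    ∃ g : E → E, ContDiff ℝ ∞ g ∧ ∀ a ∈ closedBall (0 : E) R, dist (g a) (f a) ≤ δ := by
  have hu : UniformContinuousOn f (closedBall (0 : E) (R + 1)) :=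
    (isCompact_closedBall _ _).uniformContinuousOn_of_continuous hf.continuousOn
  obtain ⟨η, hη, hη'⟩ := Metric.uniformContinuousOn_iff.mp hu δ hδ
  obtain ⟨g, hg, hg'⟩ := hf.exists_contDiff_dist_le_of_forall_mem_ball_dist_le
    (ε := min η 1) (by positivity)
  refine ⟨g, hg, fun a ha => hg' a δ fun x hx => ?_⟩
  rw [mem_ball, lt_min_iff] at hx
  rw [mem_closedBall, dist_zero_right] at ha
  refine (hη' x ?_ a ?_ hx.1).le
  · rw [mem_closedBall, dist_zero_right]
    have := norm_sub_norm_le x a
    rw [← dist_eq_norm] at this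
    linarith
  · rw [mem_closedBall, dist_zero_right]
    linarith

theorem brouwer_cont {h : E → E} (hc : ContinuousOn h (closedBall (0 : E) 1))
    (hb : ∀ x ∈ closedBall (0 : E) 1, ‖h x‖ ≤ 1) : ∃ x ∈ closedBall (0 : E) 1, h x = x := by
  obtain ⟨H, hH⟩ := ContinuousMap.exists_restrict_eq (Y := E)
    (isClosed_closedBall (x := (0 : E)) (ε := 1)) ⟨fun x => h x.1, hc.domRestrict⟩
  have hHh : ∀ x ∈ closedBall (0 : E) 1, H x = h x := by
    intro x hx
    have := congrArg (fun F => F ⟨x, hx⟩) hH
    exact this
  have hcomp : IsCompact (closedBall (0 : E) 1) := isCompact_closedBall _ _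
  have hne : (closedBall (0 : E) 1).Nonempty := ⟨0, by simp⟩
  have hcont : ContinuousOn (fun x => ‖H x - x‖) (closedBall (0 : E) 1) := by
    apply Continuous.continuousOn
    exact (H.continuous.sub continuous_id).norm
  obtain ⟨x, hx, hmin⟩ := hcomp.exists_isMinOn hne hcont
  refine ⟨x, hx, ?_⟩
  have key : ∀ δ > 0, ‖H x - x‖ ≤ 2 * δ := by
    intro δ hδ
    obtain ⟨g, hg, hg'⟩ := smooth_approx H.continuous 1 hδ
    have hg1 : ∀ y ∈ closedBall (0 : E) 1, ‖g y‖ ≤ 1 + δ := by
      intro y hy
      have h1 := hg' y hy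
      rw [dist_eq_norm] at h1
      have h2 := hb y hy
      rw [← hHh y hy] at h2
      calc ‖g y‖ = ‖(g y - H y) + H y‖ := by rw [sub_add_cancel]
        _ ≤ ‖g y - H y‖ + ‖H y‖ := norm_add_le _ _
        _ ≤ 1 + δ := by linarith
    have hδ1 : 0 < 1 + δ := by linarith
    obtain ⟨y, hy, hy'⟩ := Pool.Agent.Work.MP_5de19d_an.brouwer (fun y => (1 + δ)⁻¹ • g y)
      ((hg.of_le (by exact_mod_cast le_top)).const_smul _) (by
        intro y hy
        rw [norm_smul, Real.norm_of_nonneg (by positivity)]
        rw [inv_mul_le_iff₀ hδ1, mul_one]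
        exact hg1 y hy)
    have hgy : g y = (1 + δ) • y := by
      have := congrArg (fun v => (1 + δ) • v) hy'
      simp only [smul_smul, mul_inv_cancel₀ hδ1.ne', one_smul] at this
      exact this
    have hyn : ‖y‖ ≤ 1 := by simpa using hy
    have h3 : ‖H y - y‖ ≤ 2 * δ := by
      have h1 := hg' y hy
      rw [dist_eq_norm, hgy] at h1
      have e : H y - y = -((1 + δ) • y - H y) + δ • y := by module
      rw [e]
      refine (norm_add_le _ _).trans ?_
      rw [norm_neg, norm_smul, Real.norm_of_nonneg hδ.le]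
      nlinarith
    exact (hmin hy).trans h3
  have h0 : ‖H x - x‖ ≤ 0 := by
    apply le_of_forall_pos_le_add
    intro ε hε
    have := key (ε / 2) (by positivity)
    linarith
  rw [← hHh x hx]
  exact sub_eq_zero.mp (norm_le_zero_iff.mp h0)

/-- There is no continuous injection from a nonempty open set of a finite-dimensional space to a
space of smaller dimension. -/
theorem no_inj_of_finrank_lt {F : Type*} [NormedAddCommGroup F] [NormedSpace ℝ F]
    [FiniteDimensional ℝ F] (hd : Module.finrank ℝ F < Module.finrank ℝ E) {U : Set E}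
    (hU : IsOpen U) (hne : U.Nonempty) {f : E → F} (hf : ContinuousOn f U)
    (hinj : InjOn f U) : False := by
  obtain ⟨x0, hx0⟩ := hne
  obtain ⟨r, hr, hrU⟩ := Metric.isOpen_iff.mp hU x0 hx0
  -- a linear injection of F into E
  obtain ⟨ι, hι⟩ : ∃ ι : F →ₗ[ℝ] E, Function.Injective ι := by
    have h1 := finrank_le_iff_exists_linearMap (R := ℝ) (M := F) (M' := E)
    exact h1.mp hd.le
  set W : Submodule ℝ E := LinearMap.range ι with hW
  have hWtop : W ≠ ⊤ := by
    intro h
    have h1 := LinearMap.finrank_range_of_inj hι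
    rw [← hW, h, finrank_top] at h1
    omega
  have hιc : Continuous ι := ι.continuous_of_finiteDimensional
  -- the map on the closed unit ball
  set s : E → E := fun x => x0 + (r / 2) • x with hs
  have hsU : ∀ x ∈ closedBall (0 : E) 1, s x ∈ U := by
    intro x hx
    apply hrU
    rw [mem_ball, dist_eq_norm, hs]
    simp only [add_sub_cancel_left]
    rw [norm_smul, Real.norm_of_nonneg (by positivity)]
    have : ‖x‖ ≤ 1 := by simpa using hx
    nlinarith [norm_nonneg x]
  have hsinj : Function.Injective s := by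
    intro x y hxy
    simp only [hs, add_right_inj] at hxy
    exact smul_right_injective E (by positivity : r / 2 ≠ 0) hxy
  have hsc : Continuous s := by fun_prop
  set φ : E → E := fun x => ι (f (s x)) with hφ
  have hφc : ContinuousOn φ (closedBall (0 : E) 1) :=
    hιc.comp_continuousOn (hf.comp hsc.continuousOn hsU)
  have hφi : InjOn φ (closedBall (0 : E) 1) := by
    intro x hx y hy hxy
    exact hsinj (hinj (hsU x hx) (hsU y hy) (hι hxy))
  set e : closedBall (0 : E) 1 → E := fun x => φ x.1 with he
  have hec : Continuous e := hφc.domRestrict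
  have hei : Function.Injective e := by
    intro x y hxy
    exact Subtype.ext (hφi x.2 y.2 hxy)
  have : CompactSpace (closedBall (0 : E) 1) :=
    isCompact_iff_compactSpace.mp (isCompact_closedBall _ _)
  have hemb : IsClosedEmbedding e := hec.isClosedEmbedding hei
  obtain ⟨G, hG⟩ := ContinuousMap.exists_extension (Y := E) hemb
    ⟨fun x : closedBall (0 : E) 1 => x.1, continuous_subtype_val⟩
  have hGe : ∀ x ∈ closedBall (0 : E) 1, G (φ x) = x := by
    intro x hx
    have := congrArg (fun F => F ⟨x, hx⟩) hG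
    exact this
  -- the image is bounded
  obtain ⟨R, hR⟩ : ∃ R, ∀ x ∈ closedBall (0 : E) 1, φ x ∈ closedBall (0 : E) R := by
    obtain ⟨R, hR⟩ := ((isCompact_closedBall (0 : E) 1).image_of_continuousOn
      hφc).isBounded.subset_closedBall 0
    exact ⟨R, fun x hx => hR ⟨x, hx, rfl⟩⟩
  obtain ⟨P, hP, hP'⟩ := smooth_approx G.continuous R (δ := 1 / 2) (by norm_num)
  -- a small vector outside the image of W
  borelize E
  have hnull : (Measure.addHaar : Measure E) (P '' (W : Set E)) = 0 := by
    apply addHaar_image_eq_zero_of_differentiableOn_of_addHaar_eq_zero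
    · exact (hP.differentiable (by simp)).differentiableOn
    · exact Measure.addHaar_submodule _ W hWtop
  obtain ⟨c, hc, hcP⟩ : ∃ c ∈ ball (0 : E) (1 / 2), c ∉ P '' (W : Set E) := by
    by_contra hcon
    push Not at hcon
    have h1 : (Measure.addHaar : Measure E) (ball (0 : E) (1 / 2)) ≤ 0 := by
      rw [← hnull]
      exact measure_mono hcon
    have h2 := measure_ball_pos (Measure.addHaar : Measure E) (0 : E)
      (show (0 : ℝ) < 1 / 2 by norm_num)
    exact absurd h1 (not_le.mpr h2)
  obtain ⟨x, hx, hx'⟩ := brouwer_cont (h := fun x => x - (P (φ x) - c)) (by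
      exact continuousOn_id.sub ((hP.continuous.comp_continuousOn hφc).sub continuousOn_const))
    (by
      intro x hx
      have h1 := hP' (φ x) (hR x hx)
      rw [dist_eq_norm, hGe x hx] at h1
      have h2 : ‖c‖ ≤ 1 / 2 := by
        have := hc
        rw [mem_ball, dist_zero_right] at this
        exact this.le
      have e : x - (P (φ x) - c) = -(P (φ x) - x) + c := by abel
      rw [e]
      refine (norm_add_le _ _).trans ?_
      rw [norm_neg]
      linarith)
  apply hcP
  refine ⟨φ x, ⟨f (s x), rfl⟩, ?_⟩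
  have : P (φ x) - c = 0 := by
    have h3 : x - (P (φ x) - c) = x := hx'
    exact sub_eq_self.mp h3
  exact sub_eq_zero.mp this

end topo

/-- version for an open subset of `Fin k → ℝ` -/
theorem no_inj_fin {k : ℕ} {F : Type*} [NormedAddCommGroup F] [NormedSpace ℝ F]
    [FiniteDimensional ℝ F] (hd : Module.finrank ℝ F < k) {U : Set (Fin k → ℝ)}
    (hU : IsOpen U) (hne : U.Nonempty) {f : (Fin k → ℝ) → F} (hf : ContinuousOn f U)
    (hinj : InjOn f U) : False := by
  set e := EuclideanSpace.equiv (Fin k) ℝ with he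
  refine no_inj_of_finrank_lt (E := EuclideanSpace ℝ (Fin k)) (F := F) (by simpa using hd)
    (U := e ⁻¹' U) (hU.preimage e.continuous) ?_ (f := fun x => f (e x))
    (hf.comp e.continuous.continuousOn fun x hx => hx) ?_
  · obtain ⟨x, hx⟩ := hne
    exact ⟨e.symm x, by simpa using hx⟩
  · intro x hx y hy hxy
    exact e.injective (hinj hx hy hxy)

end Pool.Agent.Work.MP_089002_mp
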