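import Pool.Agent.Work.MP_089002_mp.Circle2

open MeasureTheory Filter Topology Set
open scoped ContDiff Real

namespace Pool.Agent.Work.MP_089002_mp

theorem pt_log {ρ : ℝ} (hρ : 0 < ρ) (t : ℝ) :
    pt (Real.log ρ) t = Complex.polarCoord.symm (ρ, t) := by
  rw [Complex.polarCoord_symm_apply, pt, Complex.exp_add, ← Complex.ofReal_exp,
    Real.exp_log hρ, Complex.exp_mul_I]
  simp

theorem pt_periodic (s : ℝ) : Function.Periodic (pt s) (2 * π) := by
  intro t
  have : (s : ℂ) + ((t + 2 * π : ℝ) : ℂ) * Complex.I = (s + t * Complex.I) + 2 * π * Complex.I := by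
    push_cast; ring
  rw [pt, this, Complex.exp_add, Complex.exp_two_pi_mul_I, mul_one, pt]

theorem mean_eq (F : ℂ → ℝ) (c : ℂ) (s : ℝ) : mean F c s = ∫ t in (-π)..π, F (c + pt s t) := by
  have hp : Function.Periodic (fun t => F (c + pt s t)) (2 * π) := by
    intro t
    simp only [pt_periodic s t]
  have := hp.intervalIntegral_add_eq 0 (-π)
  rw [zero_add] at this
  rw [mean, this]
  congr 1
  ring

/-- circle sums as a function of the radius -/
noncomputable def kmean (h : ℂ → ℝ) (c : ℂ) (ρ : ℝ) : ℝ :=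
  ∫ t in (-π)..π, h (c + Complex.polarCoord.symm (ρ, t))

theorem kmean_eq (h : ℂ → ℝ) (c : ℂ) {ρ : ℝ} (hρ : 0 < ρ) :
    kmean h c ρ = mean h c (Real.log ρ) := by
  rw [mean_eq, kmean]
  apply intervalIntegral.integral_congr
  intro t _
  simp only
  rw [pt_log hρ]

theorem cont_polar {h : ℂ → ℝ} (hc : Continuous h) (c : ℂ) :
    Continuous (fun p : ℝ × ℝ => h (c + Complex.polarCoord.symm p)) := by
  have : (fun p : ℝ × ℝ => h (c + Complex.polarCoord.symm p)) =
      fun p : ℝ × ℝ => h (c + p.1 * (Real.cos p.2 + Real.sin p.2 * Complex.I)) := by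
    funext p; rw [Complex.polarCoord_symm_apply]
  rw [this]
  fun_prop

theorem continuous_kmean {h : ℂ → ℝ} (hc : Continuous h) (c : ℂ) : Continuous (kmean h c) := by
  unfold kmean
  exact intervalIntegral.continuous_parametric_intervalIntegral_of_continuous'
    (f := fun ρ t => h (c + Complex.polarCoord.symm (ρ, t))) (cont_polar hc c) _ _

theorem area_eq {h : ℂ → ℝ} (hc : Continuous h) (c : ℂ) {r : ℝ} (hr : 0 < r) :
    ∫ z in Metric.ball c r, h z = ∫ ρ in (0 : ℝ)..r, ρ * kmean h c ρ := by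
  have hA : ∫ z in Metric.ball c r, h z =
      ∫ z, (Metric.ball (0 : ℂ) r).indicator (fun z => h (c + z)) z := by
    rw [← integral_indicator Metric.isOpen_ball.measurableSet,
      ← integral_add_left_eq_self (μ := volume) _ c]
    apply integral_congr_ae
    refine Eventually.of_forall fun z => ?_
    simp only [indicator, Metric.mem_ball, dist_self_add_left, dist_zero_right]
  have hcont : Continuous (fun p : ℝ × ℝ => p.1 * h (c + Complex.polarCoord.symm p)) :=
    continuous_fst.mul (cont_polar hc c)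
  have hsub : (Ioo 0 r) ×ˢ (Ioo (-π) π) ⊆ polarCoord.target := by
    rintro ⟨a, b⟩ ⟨⟨h1, h2⟩, h3⟩
    exact ⟨h1, h3⟩
  have hB : ∫ z, (Metric.ball (0 : ℂ) r).indicator (fun z => h (c + z)) z =
      ∫ p in (Ioo 0 r) ×ˢ (Ioo (-π) π), p.1 * h (c + Complex.polarCoord.symm p) := by
    have e1 := setIntegral_eq_of_subset_of_forall_sdiff_eq_zero (μ := volume)
      (f := fun p : ℝ × ℝ => p.1 • (Metric.ball (0 : ℂ) r).indicator (fun z => h (c + z))
        (Complex.polarCoord.symm p)) polarCoord.open_target.measurableSet hsub ?_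
    · rw [← Complex.integral_comp_polarCoord_symm, e1]
      apply setIntegral_congr_fun (measurableSet_Ioo.prod measurableSet_Ioo)
      rintro ⟨a, b⟩ ⟨⟨h1, h2⟩, h3⟩
      have : Complex.polarCoord.symm (a, b) ∈ Metric.ball (0 : ℂ) r := by
        rw [mem_ball_zero_iff, Complex.norm_polarCoord_symm]
        simpa [abs_of_pos h1] using h2
      simp only [indicator_of_mem this, smul_eq_mul]
    · rintro ⟨a, b⟩ ⟨⟨h1, h3⟩, h4⟩
      have : Complex.polarCoord.symm (a, b) ∉ Metric.ball (0 : ℂ) r := by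
        rw [mem_ball_zero_iff, Complex.norm_polarCoord_symm]
        intro h5
        apply h4
        have h1' : 0 < a := h1
        simp only [abs_of_pos h1'] at h5
        exact ⟨⟨h1', h5⟩, h3⟩
      rw [indicator_of_notMem this, smul_zero]
  have hint : IntegrableOn (fun p : ℝ × ℝ => p.1 * h (c + Complex.polarCoord.symm p))
      ((Ioo 0 r) ×ˢ (Ioo (-π) π)) (volume.prod volume) := by
    have h1 : IntegrableOn (fun p : ℝ × ℝ => p.1 * h (c + Complex.polarCoord.symm p))
      ((Icc 0 r) ×ˢ (Icc (-π) π)) (volume.prod volume) :=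
      hcont.continuousOn.integrableOn_compact (isCompact_Icc.prod isCompact_Icc)
    exact h1.mono_set (prod_mono Ioo_subset_Icc_self Ioo_subset_Icc_self)
  rw [hA, hB, Measure.volume_eq_prod, setIntegral_prod _ hint]
  have h6 : ∀ ρ, ∫ y in Ioo (-π) π, ρ * h (c + Complex.polarCoord.symm (ρ, y)) =
      ρ * kmean h c ρ := by
    intro ρ
    rw [integral_const_mul, kmean, intervalIntegral.integral_of_le (by linarith [Real.pi_pos]),
      integral_Ioc_eq_integral_Ioo]
  simp only [h6]
  rw [intervalIntegral.integral_of_le hr.le, integral_Ioc_eq_integral_Ioo]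

/-- pointwise bound from circle sums -/
theorem sup_bound {h : ℂ → ℝ} (hF : ContDiff ℝ 2 h) (hl : ∀ z, 0 ≤ lap h z)
    (h0 : ∀ z, 0 ≤ h z) {z : ℂ} (hz : z ≠ 0) :
    h z ≤ mean h 0 (Real.log (2 * ‖z‖)) := by
  have hr : 0 < ‖z‖ := norm_pos_iff.2 hz
  have h1 := area_eq hF.continuous z hr
  have h2 := area_eq hF.continuous 0 (r := 2 * ‖z‖) (by positivity)
  have hsub : Metric.ball z ‖z‖ ⊆ Metric.ball 0 (2 * ‖z‖) := by
    intro w hw
    rw [Metric.mem_ball, dist_eq_norm] at hw
    rw [mem_ball_zero_iff]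
    have := norm_sub_norm_le w z
    linarith
  have h3 : ∫ w in Metric.ball z ‖z‖, h w ≤ ∫ w in Metric.ball 0 (2 * ‖z‖), h w := by
    apply setIntegral_mono_set
    · exact (hF.continuous.continuousOn.integrableOn_compact
        (isCompact_closedBall (0 : ℂ) (2 * ‖z‖))).mono_set Metric.ball_subset_closedBall
    · exact Eventually.of_forall fun w => h0 w
    · exact hsub.eventuallyLE
  have hint : ∀ c r, IntervalIntegrable (fun ρ => ρ * kmean h c ρ) volume 0 r := fun c r =>
    (continuous_id.mul (continuous_kmean hF.continuous c)).intervalIntegrable _ _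
  have h4 : ∫ ρ in (0 : ℝ)..‖z‖, ρ * (2 * π * h z) ≤
      ∫ ρ in (0 : ℝ)..‖z‖, ρ * kmean h z ρ := by
    apply intervalIntegral.integral_mono_on hr.le
    · exact (continuous_id.mul continuous_const).intervalIntegrable _ _
    · exact hint _ _
    · intro ρ hρ
      rcases hρ.1.eq_or_lt with h | h
      · rw [← h]; simp
      · rw [kmean_eq _ _ h]
        exact mul_le_mul_of_nonneg_left (le_mean hF hl z _) hρ.1
  have h5 : ∫ ρ in (0 : ℝ)..(2 * ‖z‖), ρ * kmean h 0 ρ ≤
      ∫ ρ in (0 : ℝ)..(2 * ‖z‖), ρ * mean h 0 (Real.log (2 * ‖z‖)) := by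
    apply intervalIntegral.integral_mono_on (by positivity)
    · exact hint _ _
    · exact (continuous_id.mul continuous_const).intervalIntegrable _ _
    · intro ρ hρ
      rcases hρ.1.eq_or_lt with h | h
      · rw [← h]; simp
      · rw [kmean_eq _ _ h]
        exact mul_le_mul_of_nonneg_left (mean_mono hF hl 0 (Real.log_le_log h hρ.2)) hρ.1
  rw [intervalIntegral.integral_mul_const] at h4 h5
  rw [integral_id] at h4 h5
  rw [← h1] at h4
  rw [← h2] at h5
  have h7 : (‖z‖ ^ 2 / 2) * (2 * π * h z) ≤ (4 * ‖z‖ ^ 2 / 2) * mean h 0 (Real.log (2 * ‖z‖)) := by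
    have := h4.trans (h3.trans h5)
    nlinarith [this]
  have h8 : (‖z‖ ^ 2 / 2) * (2 * π * h z) ≤
      (‖z‖ ^ 2 / 2) * (4 * mean h 0 (Real.log (2 * ‖z‖))) := by linarith
  have h9 := le_of_mul_le_mul_left h8 (by positivity)
  have h10 : 4 * h z ≤ 2 * π * h z := by
    have := Real.pi_gt_three
    nlinarith [h0 z]
  linarith

end Pool.Agent.Work.MP_089002_mp
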