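import Pool.Agent.Work.MP_089002_mp.Compare

open MeasureTheory Filter Topology Set
open scoped ContDiff Real

namespace Pool.Agent.Work.MP_089002_mp

/-- the inequality y'' ≥ exp y with y' ≥ 0 has no solution on a half line -/
theorem blowup {y y1 y2 : ℝ → ℝ} (h1 : ∀ s, HasDerivAt y (y1 s) s)
    (h2 : ∀ s, HasDerivAt y1 (y2 s) s) {s₀ : ℝ} (h3 : ∀ s, s₀ ≤ s → Real.exp (y s) ≤ y2 s)
    (h4 : ∀ s, s₀ ≤ s → 0 ≤ y1 s) : False := by
  have hy : MonotoneOn y (Ici s₀) := by
    apply monotoneOn_of_deriv_nonneg (convex_Ici _)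
    · exact fun s _ => (h1 s).continuousAt.continuousWithinAt
    · exact fun s _ => (h1 s).differentiableAt.differentiableWithinAt
    · intro s hs
      rw [interior_Ici] at hs
      rw [(h1 s).deriv]
      exact h4 s (le_of_lt hs)
  set κ := Real.exp (y s₀) with hκ
  have hκ0 : 0 < κ := Real.exp_pos _
  have hm : ∀ s, s₀ ≤ s → κ ≤ y2 s := fun s hs =>
    (Real.exp_le_exp.2 (hy (mem_Ici.2 le_rfl) (mem_Ici.2 hs) hs)).trans (h3 s hs)
  have hlin : ∀ s, s₀ ≤ s → κ * (s - s₀) ≤ y1 s := by
    have h5 : MonotoneOn (fun s => y1 s - κ * s) (Ici s₀) := by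
      have hd : ∀ s, HasDerivAt (fun s => y1 s - κ * s) (y2 s - κ * 1) s := fun s =>
        (h2 s).sub ((hasDerivAt_id s).const_mul κ)
      apply monotoneOn_of_deriv_nonneg (convex_Ici _)
      · exact fun s _ => (hd s).continuousAt.continuousWithinAt
      · exact fun s _ => (hd s).differentiableAt.differentiableWithinAt
      · intro s hs
        rw [interior_Ici] at hs
        rw [(hd s).deriv]
        have := hm s (le_of_lt hs)
        linarith
    intro s hs
    have h6 := h5 (mem_Ici.2 le_rfl) (mem_Ici.2 hs) hs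
    simp only at h6
    have := h4 s₀ le_rfl
    nlinarith
  -- y' ≥ κ from s₀ + 1 on
  have hκ1 : ∀ s, s₀ + 1 ≤ s → κ ≤ y1 s := by
    intro s hs
    have := hlin s (by linarith)
    nlinarith
  have hylin : ∀ s, s₀ + 1 ≤ s → y (s₀ + 1) + κ * (s - (s₀ + 1)) ≤ y s := by
    have h5 : MonotoneOn (fun s => y s - κ * s) (Ici (s₀ + 1)) := by
      have hd : ∀ s, HasDerivAt (fun s => y s - κ * s) (y1 s - κ * 1) s := fun s =>
        (h1 s).sub ((hasDerivAt_id s).const_mul κ)
      apply monotoneOn_of_deriv_nonneg (convex_Ici _)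
      · exact fun s _ => (hd s).continuousAt.continuousWithinAt
      · exact fun s _ => (hd s).differentiableAt.differentiableWithinAt
      · intro s hs
        rw [interior_Ici] at hs
        rw [(hd s).deriv]
        have := hκ1 s (le_of_lt hs)
        linarith
    intro s hs
    have h6 := h5 (mem_Ici.2 le_rfl) (mem_Ici.2 hs) hs
    simp only at h6
    linarith
  -- energy
  have hE : MonotoneOn (fun s => y1 s ^ 2 - 2 * Real.exp (y s)) (Ici s₀) := by
    have hd : ∀ s, HasDerivAt (fun s => y1 s ^ 2 - 2 * Real.exp (y s))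
        (2 * y1 s * y2 s - 2 * (Real.exp (y s) * y1 s)) s := by
      intro s
      have e1 : HasDerivAt (fun s => y1 s ^ 2) (2 * y1 s * y2 s) s := by
        simpa using (h2 s).fun_pow 2
      exact e1.sub ((h1 s).exp.const_mul 2)
    apply monotoneOn_of_deriv_nonneg (convex_Ici _)
    · exact fun s _ => (hd s).continuousAt.continuousWithinAt
    · exact fun s _ => (hd s).differentiableAt.differentiableWithinAt
    · intro s hs
      rw [interior_Ici] at hs
      rw [(hd s).deriv]
      have e1 := h4 s (le_of_lt hs)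
      have e2 := h3 s (le_of_lt hs)
      nlinarith
  set E := y1 s₀ ^ 2 - 2 * Real.exp (y s₀) with hEdef
  -- choose s₂ with exp y ≥ -E afterwards
  obtain ⟨s₂, hs₂, hs₂'⟩ : ∃ s₂, s₀ + 1 ≤ s₂ ∧ ∀ s, s₂ ≤ s → -E ≤ Real.exp (y s) := by
    refine ⟨max (s₀ + 1) (s₀ + 1 + (|E| - y (s₀ + 1)) / κ), le_max_left _ _, fun s hs => ?_⟩
    have h5 := hylin s ((le_max_left _ _).trans hs)
    have h6 : (|E| - y (s₀ + 1)) / κ ≤ s - (s₀ + 1) := by
      have := (le_max_right (s₀ + 1) (s₀ + 1 + (|E| - y (s₀ + 1)) / κ)).trans hs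
      linarith
    rw [div_le_iff₀ hκ0] at h6
    have h7 : |E| ≤ y s := by nlinarith
    have h8 := Real.add_one_le_exp (y s)
    have := neg_abs_le E
    linarith
  have hroot : ∀ s, s₂ ≤ s → Real.exp (y s / 2) ≤ y1 s := by
    intro s hs
    have h5 := hE (mem_Ici.2 le_rfl) (mem_Ici.2 (show s₀ ≤ s by linarith)) (by linarith)
    simp only at h5
    have h6 := hs₂' s hs
    have h7 : Real.exp (y s / 2) ^ 2 ≤ y1 s ^ 2 := by
      rw [← Real.exp_nat_mul]
      have : ((2 : ℕ) : ℝ) * (y s / 2) = y s := by push_cast; ring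
      rw [this]
      linarith
    exact le_of_sq_le_sq h7 (h4 s (by linarith))
  -- contradiction
  have hg : AntitoneOn (fun s => Real.exp (-y s / 2) + s / 2) (Ici s₂) := by
    have hd : ∀ s, HasDerivAt (fun s => Real.exp (-y s / 2) + s / 2)
        (Real.exp (-y s / 2) * (-y1 s / 2) + 1 / 2) s := fun s =>
      (((h1 s).neg.div_const 2).exp).add ((hasDerivAt_id s).div_const 2)
    apply antitoneOn_of_deriv_nonpos (convex_Ici _)
    · exact fun s _ => (hd s).continuousAt.continuousWithinAt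
    · exact fun s _ => (hd s).differentiableAt.differentiableWithinAt
    · intro s hs
      rw [interior_Ici] at hs
      rw [(hd s).deriv]
      have e1 := hroot s (le_of_lt hs)
      have e2 : Real.exp (-y s / 2) * Real.exp (y s / 2) = 1 := by
        rw [← Real.exp_add]; ring_nf; exact Real.exp_zero
      have e3 := Real.exp_pos (-y s / 2)
      nlinarith
  have h5 := hg (mem_Ici.2 le_rfl)
    (mem_Ici.2 (show s₂ ≤ s₂ + 2 * Real.exp (-y s₂ / 2) by linarith [Real.exp_pos (-y s₂ / 2)]))
    (by linarith [Real.exp_pos (-y s₂ / 2)])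
  simp only at h5
  have := Real.exp_pos (-y (s₂ + 2 * Real.exp (-y s₂ / 2)) / 2)
  linarith

end Pool.Agent.Work.MP_089002_mp
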