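import Mathlib

open MeasureTheory Filter Topology Set
open scoped ContDiff Real

namespace Pool.Agent.Work.MP_089002_mp

/-- differentiation under an interval integral, continuous data -/
theorem hasDerivAt_intervalIntegral {g g' : ℝ → ℝ → ℝ} {a b : ℝ}
    (hg : ∀ s, Continuous (g s)) (hg' : Continuous (fun p : ℝ × ℝ => g' p.1 p.2))
    (hd : ∀ s t, HasDerivAt (fun s => g s t) (g' s t) s) (s₀ : ℝ) :
    HasDerivAt (fun s => ∫ t in a..b, g s t) (∫ t in a..b, g' s₀ t) s₀ := by
  have hK : IsCompact (Icc (s₀ - 1) (s₀ + 1) ×ˢ uIcc a b) := isCompact_Icc.prod isCompact_uIcc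
  obtain ⟨C, hC⟩ := hK.exists_bound_of_continuousOn (f := fun p : ℝ × ℝ => g' p.1 p.2)
    hg'.continuousOn
  have hs : Icc (s₀ - 1) (s₀ + 1) ∈ 𝓝 s₀ := Icc_mem_nhds (by linarith) (by linarith)
  refine (intervalIntegral.hasDerivAt_integral_of_dominated_loc_of_deriv_le (bound := fun _ => C) hs
    ?_ ?_ ?_ ?_ ?_ ?_).2
  · exact Eventually.of_forall fun s => (hg s).aestronglyMeasurable
  · exact (hg s₀).intervalIntegrable _ _
  · exact (hg'.comp (continuous_const.prodMk continuous_id)).aestronglyMeasurable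
  · refine Eventually.of_forall fun t ht s hs => ?_
    exact hC (s, t) ⟨hs, uIoc_subset_uIcc ht⟩
  · exact intervalIntegrable_const
  · exact Eventually.of_forall fun t _ s _ => hd s t

/-- the Laplacian of a function on the plane -/
noncomputable def lap (F : ℂ → ℝ) (z : ℂ) : ℝ :=
  fderiv ℝ (fun z => fderiv ℝ F z 1) z 1 + fderiv ℝ (fun z => fderiv ℝ F z Complex.I) z Complex.I

/-- second derivative -/
noncomputable def D2 (F : ℂ → ℝ) (z : ℂ) : ℂ →L[ℝ] ℂ →L[ℝ] ℝ := fderiv ℝ (fderiv ℝ F) z

theorem diff_fderiv {F : ℂ → ℝ} (hF : ContDiff ℝ 2 F) (z : ℂ) :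
    HasFDerivAt (fderiv ℝ F) (D2 F z) z :=
  ((hF.fderiv_right (m := 1) (by norm_num)).differentiable (by norm_num) z).hasFDerivAt

theorem cont_fderiv {F : ℂ → ℝ} (hF : ContDiff ℝ 2 F) : Continuous (fderiv ℝ F) :=
  hF.continuous_fderiv (by norm_num)

theorem cont_D2 {F : ℂ → ℝ} (hF : ContDiff ℝ 2 F) : Continuous (D2 F) :=
  (hF.fderiv_right (m := 1) (by norm_num)).continuous_fderiv (by norm_num)

theorem lap_eq {F : ℂ → ℝ} (hF : ContDiff ℝ 2 F) (z : ℂ) :
    lap F z = D2 F z 1 1 + D2 F z Complex.I Complex.I := by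
  have h : ∀ v : ℂ, fderiv ℝ (fun z => fderiv ℝ F z v) z = (D2 F z).flip v := by
    intro v
    have h1 : HasFDerivAt (fun z => fderiv ℝ F z v)
        ((ContinuousLinearMap.apply ℝ ℝ v).comp (D2 F z)) z :=
      (ContinuousLinearMap.apply ℝ ℝ v).hasFDerivAt.comp z (diff_fderiv hF z)
    rw [h1.fderiv]
    ext
    simp
  rw [lap, h, h]
  simp

theorem D2_symm {F : ℂ → ℝ} (hF : ContDiff ℝ 2 F) (z v w : ℂ) : D2 F z v w = D2 F z w v :=
  (hF.contDiffAt.isSymmSndFDerivAt (by simp)).eq v w

theorem D2_rot {F : ℂ → ℝ} (hF : ContDiff ℝ 2 F) (z e : ℂ) :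
    D2 F z e e + D2 F z (Complex.I * e) (Complex.I * e) = ‖e‖ ^ 2 * lap F z := by
  have h1 : e = e.re • (1 : ℂ) + e.im • Complex.I := by
    apply Complex.ext <;> simp
  have h2 : Complex.I * e = (-e.im) • (1 : ℂ) + e.re • Complex.I := by
    apply Complex.ext <;> simp
  have h3 : ‖e‖ ^ 2 = e.re ^ 2 + e.im ^ 2 := by
    rw [← Complex.normSq_eq_norm_sq, Complex.normSq_apply]; ring
  rw [h2, h3, lap_eq hF]
  have h4 : D2 F z e e = D2 F z (e.re • (1 : ℂ) + e.im • Complex.I)
      (e.re • (1 : ℂ) + e.im • Complex.I) := by rw [← h1]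
  rw [h4]
  simp only [map_add, map_smul, add_apply, smul_apply,
    smul_eq_mul, D2_symm hF z Complex.I 1]
  ring

/-- the point at log-polar coordinates -/
noncomputable def pt (s t : ℝ) : ℂ := Complex.exp (s + t * Complex.I)

theorem continuous_pt : Continuous (fun p : ℝ × ℝ => pt p.1 p.2) := by
  unfold pt
  fun_prop

theorem norm_pt (s t : ℝ) : ‖pt s t‖ = Real.exp s := by
  simp [pt, Complex.norm_exp]

theorem hasDerivAt_pt_left (s t : ℝ) : HasDerivAt (fun s => pt s t) (pt s t) s := by
  unfold pt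
  have h : HasDerivAt (fun s : ℝ => (s : ℂ) + t * Complex.I) 1 s := by
    simpa using (Complex.ofRealCLM.hasDerivAt (x := s)).add_const (t * Complex.I)
  simpa using h.cexp

theorem hasDerivAt_pt_right (s t : ℝ) :
    HasDerivAt (fun t => pt s t) (Complex.I * pt s t) t := by
  unfold pt
  have h : HasDerivAt (fun t : ℝ => (s : ℂ) + t * Complex.I) Complex.I t := by
    simpa using ((Complex.ofRealCLM.hasDerivAt (x := t)).mul_const Complex.I).const_add (s : ℂ)
  have := h.cexp
  convert this using 1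
  ring

theorem pt_two_pi (s : ℝ) : pt s (2 * π) = pt s 0 := by
  simp [pt, Complex.exp_add]

/-- circle sums -/
noncomputable def mean (F : ℂ → ℝ) (c : ℂ) (s : ℝ) : ℝ := ∫ t in (0 : ℝ)..(2 * π), F (c + pt s t)

noncomputable def mean1 (F : ℂ → ℝ) (c : ℂ) (s : ℝ) : ℝ :=
  ∫ t in (0 : ℝ)..(2 * π), fderiv ℝ F (c + pt s t) (pt s t)

noncomputable def mean2 (F : ℂ → ℝ) (c : ℂ) (s : ℝ) : ℝ :=
  ∫ t in (0 : ℝ)..(2 * π), Real.exp (2 * s) * lap F (c + pt s t)

theorem cont_pt' (s : ℝ) : Continuous (fun t => pt s t) :=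
  continuous_pt.comp (continuous_const.prodMk continuous_id)

theorem hasDerivAt_mean {F : ℂ → ℝ} (hF : ContDiff ℝ 1 F) (c : ℂ) (s : ℝ) :
    HasDerivAt (mean F c) (mean1 F c s) s := by
  refine hasDerivAt_intervalIntegral (g := fun s t => F (c + pt s t))
    (g' := fun s t => fderiv ℝ F (c + pt s t) (pt s t)) ?_ ?_ ?_ s
  · intro s
    exact hF.continuous.comp (continuous_const.add (cont_pt' s))
  · have h1 := hF.continuous_fderiv (by norm_num)
    have h2 : Continuous (fun p : ℝ × ℝ => c + pt p.1 p.2) := continuous_const.add continuous_pt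
    exact (h1.comp h2).clm_apply continuous_pt
  · intro s t
    have h1 : HasDerivAt (fun s => c + pt s t) (pt s t) s := (hasDerivAt_pt_left s t).const_add c
    exact ((hF.differentiable (by norm_num) _).hasFDerivAt.comp_hasDerivAt s h1)

theorem continuous_lap {F : ℂ → ℝ} (hF : ContDiff ℝ 2 F) : Continuous (lap F) := by
  have : lap F = fun z => D2 F z 1 1 + D2 F z Complex.I Complex.I := by
    funext z; exact lap_eq hF z
  rw [this]
  have h := cont_D2 hF
  fun_prop

theorem hasDerivAt_mean1 {F : ℂ → ℝ} (hF : ContDiff ℝ 2 F) (c : ℂ) (s : ℝ) :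
    HasDerivAt (mean1 F c) (mean2 F c s) s := by
  have hc1 := cont_fderiv hF
  have hc2 := cont_D2 hF
  have h2 : Continuous (fun p : ℝ × ℝ => c + pt p.1 p.2) := continuous_const.add continuous_pt
  have hA : ∀ s t, HasDerivAt (fun s => fderiv ℝ F (c + pt s t) (pt s t))
      (D2 F (c + pt s t) (pt s t) (pt s t) + fderiv ℝ F (c + pt s t) (pt s t)) s := by
    intro s t
    have h1 : HasDerivAt (fun s => c + pt s t) (pt s t) s := (hasDerivAt_pt_left s t).const_add c
    have h3 := (diff_fderiv hF (c + pt s t)).comp_hasDerivAt s h1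
    exact h3.clm_apply (hasDerivAt_pt_left s t)
  have hB : ∀ s t, HasDerivAt (fun t => fderiv ℝ F (c + pt s t) (Complex.I * pt s t))
      (D2 F (c + pt s t) (Complex.I * pt s t) (Complex.I * pt s t) -
        fderiv ℝ F (c + pt s t) (pt s t)) t := by
    intro s t
    have h1 : HasDerivAt (fun t => c + pt s t) (Complex.I * pt s t) t :=
      (hasDerivAt_pt_right s t).const_add c
    have h3 := (diff_fderiv hF (c + pt s t)).comp_hasDerivAt t h1
    have h4 := h3.clm_apply ((hasDerivAt_pt_right s t).const_mul Complex.I)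
    have : Complex.I * (Complex.I * pt s t) = -pt s t := by
      rw [← mul_assoc, Complex.I_mul_I]; ring
    rw [this, map_neg, ← sub_eq_add_neg] at h4
    exact h4
  have h1 : HasDerivAt (mean1 F c)
      (∫ t in (0 : ℝ)..(2 * π), (D2 F (c + pt s t) (pt s t) (pt s t) +
        fderiv ℝ F (c + pt s t) (pt s t))) s := by
    refine hasDerivAt_intervalIntegral (g := fun s t => fderiv ℝ F (c + pt s t) (pt s t))
      (g' := fun s t => D2 F (c + pt s t) (pt s t) (pt s t) + fderiv ℝ F (c + pt s t) (pt s t))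
      ?_ ?_ ?_ s
    · intro s
      exact (hc1.comp (continuous_const.add (cont_pt' s))).clm_apply (cont_pt' s)
    · exact (((hc2.comp h2).clm_apply continuous_pt).clm_apply continuous_pt).add
        ((hc1.comp h2).clm_apply continuous_pt)
    · exact hA
  have h0 : ∫ t in (0 : ℝ)..(2 * π), (D2 F (c + pt s t) (Complex.I * pt s t)
      (Complex.I * pt s t) - fderiv ℝ F (c + pt s t) (pt s t)) = 0 := by
    rw [intervalIntegral.integral_eq_sub_of_hasDerivAt (fun t _ => hB s t)]
    · rw [pt_two_pi]; ring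
    · apply Continuous.intervalIntegrable
      have h2' : Continuous (fun t => c + pt s t) := continuous_const.add (cont_pt' s)
      exact (((hc2.comp h2').clm_apply (continuous_const.mul (cont_pt' s))).clm_apply
        (continuous_const.mul (cont_pt' s))).sub ((hc1.comp h2').clm_apply (cont_pt' s))
  have h5 : mean2 F c s = ∫ t in (0 : ℝ)..(2 * π), (D2 F (c + pt s t) (pt s t) (pt s t) +
        fderiv ℝ F (c + pt s t) (pt s t)) := by
    have h2' : Continuous (fun t => c + pt s t) := continuous_const.add (cont_pt' s)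
    have h8 : ∫ t in (0 : ℝ)..(2 * π), (D2 F (c + pt s t) (pt s t) (pt s t) +
        fderiv ℝ F (c + pt s t) (pt s t)) = (∫ t in (0 : ℝ)..(2 * π), (D2 F (c + pt s t) (pt s t)
        (pt s t) + fderiv ℝ F (c + pt s t) (pt s t))) + ∫ t in (0 : ℝ)..(2 * π),
        (D2 F (c + pt s t) (Complex.I * pt s t)
      (Complex.I * pt s t) - fderiv ℝ F (c + pt s t) (pt s t)) := by
      rw [h0, add_zero]
    rw [h8, ← intervalIntegral.integral_add]
    · unfold mean2
      apply intervalIntegral.integral_congr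
      intro t _
      simp only
      have h6 := D2_rot hF (c + pt s t) (pt s t)
      rw [norm_pt] at h6
      have h7 : Real.exp (2 * s) = Real.exp s ^ 2 := by
        rw [← Real.exp_nat_mul]; norm_num
      rw [h7, ← h6]; ring
    · apply Continuous.intervalIntegrable
      exact (((hc2.comp h2').clm_apply (cont_pt' s)).clm_apply (cont_pt' s)).add
        ((hc1.comp h2').clm_apply (cont_pt' s))
    · apply Continuous.intervalIntegrable
      exact (((hc2.comp h2').clm_apply (continuous_const.mul (cont_pt' s))).clm_apply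
        (continuous_const.mul (cont_pt' s))).sub ((hc1.comp h2').clm_apply (cont_pt' s))
  rw [h5]
  exact h1

end Pool.Agent.Work.MP_089002_mp
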