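import Pool.Agent.Work.MP_089002_mp.Circle

open MeasureTheory Filter Topology Set
open scoped ContDiff Real

namespace Pool.Agent.Work.MP_089002_mp

theorem pi_pos2 : (0 : ℝ) ≤ 2 * π := by positivity

theorem norm_pt_le_one {s : ℝ} (hs : s ≤ 0) (t : ℝ) : ‖pt s t‖ ≤ 1 := by
  rw [norm_pt]; exact Real.exp_le_one_iff.2 hs

/-- a bound for the derivative near c -/
theorem exists_bound_fderiv {F : ℂ → ℝ} (hF : ContDiff ℝ 1 F) (c : ℂ) :
    ∃ M : ℝ, 0 ≤ M ∧ ∀ z ∈ Metric.closedBall c 1, ‖fderiv ℝ F z‖ ≤ M := by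
  obtain ⟨M, hM⟩ := (isCompact_closedBall c 1).exists_bound_of_continuousOn
    (hF.continuous_fderiv (by norm_num)).continuousOn
  exact ⟨M, (norm_nonneg _).trans (hM c (by simp)), hM⟩

theorem mem_ball_pt (c : ℂ) {s : ℝ} (hs : s ≤ 0) (t : ℝ) :
    c + pt s t ∈ Metric.closedBall c 1 := by
  simp [norm_pt_le_one hs t]

theorem tendsto_mean1 {F : ℂ → ℝ} (hF : ContDiff ℝ 1 F) (c : ℂ) :
    Tendsto (mean1 F c) atBot (𝓝 0) := by
  obtain ⟨M, hM0, hM⟩ := exists_bound_fderiv hF c
  have h1 : ∀ᶠ s in atBot, ‖mean1 F c s‖ ≤ M * Real.exp s * (2 * π) := by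
    filter_upwards [eventually_le_atBot 0] with s hs
    have h2 : ∀ t ∈ uIoc 0 (2 * π), ‖fderiv ℝ F (c + pt s t) (pt s t)‖ ≤ M * Real.exp s := by
      intro t _
      refine ((fderiv ℝ F (c + pt s t)).le_opNorm _).trans ?_
      rw [norm_pt]
      exact mul_le_mul_of_nonneg_right (hM _ (mem_ball_pt c hs t)) (Real.exp_nonneg _)
    have := intervalIntegral.norm_integral_le_of_norm_le_const h2
    rwa [sub_zero, abs_of_nonneg pi_pos2] at this
  have h3 : Tendsto (fun s => M * Real.exp s * (2 * π)) atBot (𝓝 0) := by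
    have := (Real.tendsto_exp_atBot.const_mul M).mul_const (2 * π)
    simpa using this
  exact squeeze_zero_norm' h1 h3

theorem tendsto_mean {F : ℂ → ℝ} (hF : ContDiff ℝ 1 F) (c : ℂ) :
    Tendsto (mean F c) atBot (𝓝 (2 * π * F c)) := by
  obtain ⟨M, hM0, hM⟩ := exists_bound_fderiv hF c
  have hcont : ∀ s, Continuous (fun t => F (c + pt s t)) := fun s =>
    hF.continuous.comp (continuous_const.add (cont_pt' s))
  have h1 : ∀ᶠ s in atBot, ‖mean F c s - 2 * π * F c‖ ≤ M * Real.exp s * (2 * π) := by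
    filter_upwards [eventually_le_atBot 0] with s hs
    have h0 : mean F c s - 2 * π * F c = ∫ t in (0 : ℝ)..(2 * π), (F (c + pt s t) - F c) := by
      rw [intervalIntegral.integral_sub ((hcont s).intervalIntegrable _ _)
        intervalIntegrable_const]
      simp [mean]
    rw [h0]
    have h2 : ∀ t ∈ uIoc 0 (2 * π), ‖F (c + pt s t) - F c‖ ≤ M * Real.exp s := by
      intro t _
      have := (convex_closedBall c (1 : ℝ)).norm_image_sub_le_of_norm_fderiv_le
        (𝕜 := ℝ) (f := F) (C := M) (fun z _ => hF.differentiable (by norm_num) z) hM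
        (Metric.mem_closedBall_self zero_le_one) (mem_ball_pt c hs t)
      simpa [norm_pt] using this
    have := intervalIntegral.norm_integral_le_of_norm_le_const h2
    rwa [sub_zero, abs_of_nonneg pi_pos2] at this
  have h3 : Tendsto (fun s => M * Real.exp s * (2 * π)) atBot (𝓝 0) := by
    have := (Real.tendsto_exp_atBot.const_mul M).mul_const (2 * π)
    simpa using this
  have h4 := squeeze_zero_norm' h1 h3
  have := h4.add_const (2 * π * F c)
  simpa using this

theorem mean2_nonneg {F : ℂ → ℝ} (hl : ∀ z, 0 ≤ lap F z) (c : ℂ) (s : ℝ) : 0 ≤ mean2 F c s :=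
  intervalIntegral.integral_nonneg pi_pos2 fun t _ => mul_nonneg (Real.exp_nonneg _) (hl _)

theorem mean1_mono {F : ℂ → ℝ} (hF : ContDiff ℝ 2 F) (hl : ∀ z, 0 ≤ lap F z) (c : ℂ) :
    Monotone (mean1 F c) :=
  monotone_of_deriv_nonneg (fun s => (hasDerivAt_mean1 hF c s).differentiableAt)
    fun s => by rw [(hasDerivAt_mean1 hF c s).deriv]; exact mean2_nonneg hl c s

theorem mean1_nonneg {F : ℂ → ℝ} (hF : ContDiff ℝ 2 F) (hl : ∀ z, 0 ≤ lap F z) (c : ℂ) (s : ℝ) :
    0 ≤ mean1 F c s :=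
  (mean1_mono hF hl c).le_of_tendsto (tendsto_mean1 (hF.of_le (by norm_num)) c) s

theorem mean_mono {F : ℂ → ℝ} (hF : ContDiff ℝ 2 F) (hl : ∀ z, 0 ≤ lap F z) (c : ℂ) :
    Monotone (mean F c) :=
  monotone_of_deriv_nonneg
    (fun s => (hasDerivAt_mean (hF.of_le (by norm_num)) c s).differentiableAt)
    fun s => by
      rw [(hasDerivAt_mean (hF.of_le (by norm_num)) c s).deriv]; exact mean1_nonneg hF hl c s

theorem le_mean {F : ℂ → ℝ} (hF : ContDiff ℝ 2 F) (hl : ∀ z, 0 ≤ lap F z) (c : ℂ) (s : ℝ) :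
    2 * π * F c ≤ mean F c s :=
  (mean_mono hF hl c).le_of_tendsto (tendsto_mean (hF.of_le (by norm_num)) c) s

/-- Liouville: a nonnegative subharmonic function tending to zero at infinity vanishes -/
theorem eq_zero_of_tendsto {F : ℂ → ℝ} (hF : ContDiff ℝ 2 F) (hl : ∀ z, 0 ≤ lap F z)
    (h0 : ∀ z, 0 ≤ F z) (hlim : Tendsto F (cocompact ℂ) (𝓝 0)) (c : ℂ) : F c = 0 := by
  refine le_antisymm ?_ (h0 c)
  have key : ∀ ε > 0, F c ≤ ε := by
    intro ε hε
    have h1 : ∀ᶠ z in cocompact ℂ, F z < ε := hlim (Iio_mem_nhds hε)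
    rw [← Metric.cobounded_eq_cocompact, ← comap_norm_atTop, eventually_comap] at h1
    obtain ⟨R, hR⟩ := eventually_atTop.1 h1
    have hs : ∀ t, R ≤ ‖c + pt (Real.log (|R| + ‖c‖ + 1)) t‖ := by
      intro t
      have h2 : ‖pt (Real.log (|R| + ‖c‖ + 1)) t‖ = |R| + ‖c‖ + 1 := by
        rw [norm_pt, Real.exp_log (by positivity)]
      have h3 := norm_sub_norm_le (pt (Real.log (|R| + ‖c‖ + 1)) t) (-c)
      rw [sub_neg_eq_add, norm_neg, h2, add_comm (pt _ _)] at h3
      have := le_abs_self R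
      linarith
    have h4 := le_mean hF hl c (Real.log (|R| + ‖c‖ + 1))
    have h5 : mean F c (Real.log (|R| + ‖c‖ + 1)) ≤ ∫ t in (0 : ℝ)..(2 * π), ε := by
      apply intervalIntegral.integral_mono_on pi_pos2
      · exact (hF.continuous.comp (continuous_const.add (cont_pt' _))).intervalIntegrable _ _
      · exact intervalIntegrable_const
      · intro t _
        exact (hR _ (hs t) _ rfl).le
    rw [intervalIntegral.integral_const, sub_zero, smul_eq_mul] at h5
    have h6 : 2 * π * F c ≤ 2 * π * ε := h4.trans h5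
    exact le_of_mul_le_mul_left h6 (by positivity)
  exact le_of_forall_pos_le_add fun ε hε => by simpa using key ε hε

end Pool.Agent.Work.MP_089002_mp
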