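import Pool.Agent.Work.MP_089002_mp.TwoPhase

open MeasureTheory Filter Topology Set
open scoped ContDiff Real

namespace Pool.Agent.Work.MP_089002_mp

theorem hasDerivAt_sq_pos (x : ℝ) :
    HasDerivAt (fun x : ℝ => (max x 0) ^ 2) (2 * max x 0) x := by
  rcases lt_trichotomy x 0 with h | h | h
  · have h1 : (fun x : ℝ => (max x 0) ^ 2) =ᶠ[𝓝 x] fun _ => 0 := by
      filter_upwards [Iio_mem_nhds h] with y hy
      rw [max_eq_right (le_of_lt hy)]; norm_num
    rw [max_eq_right h.le, mul_zero]
    exact (hasDerivAt_const x (0 : ℝ)).congr_of_eventuallyEq h1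
  · subst h
    rw [max_self, mul_zero, hasDerivAt_iff_isLittleO_nhds_zero]
    simp only [zero_add, max_self, smul_zero, sub_zero]
    have h2 : (fun h : ℝ => h ^ 2) =o[𝓝 0] fun h => h := by
      simpa using (Asymptotics.isLittleO_pow_pow (𝕜 := ℝ) (show 1 < 2 by norm_num))
    refine Asymptotics.IsLittleO.congr_left (f₁ := fun h : ℝ => (max h 0) ^ 2) ?_ (by
      intro h; norm_num)
    refine (Asymptotics.IsBigO.of_bound 1 ?_).trans_isLittleO h2
    refine Eventually.of_forall fun h => ?_
    rw [one_mul, Real.norm_eq_abs, Real.norm_eq_abs, abs_of_nonneg (sq_nonneg _),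
      abs_of_nonneg (sq_nonneg _)]
    rcases le_total h 0 with h3 | h3
    · rw [max_eq_right h3]; nlinarith
    · rw [max_eq_left h3]
  · have h1 : (fun x : ℝ => (max x 0) ^ 2) =ᶠ[𝓝 x] fun x => x ^ 2 := by
      filter_upwards [Ioi_mem_nhds h] with y hy
      rw [max_eq_left (le_of_lt hy)]
    rw [max_eq_left h.le]
    have := (hasDerivAt_pow 2 x).congr_of_eventuallyEq h1
    simpa using this

/-- an auxiliary convex function -/
theorem exists_psi : ∃ ψ ψ' ψ'' : ℝ → ℝ, (∀ x, HasDerivAt ψ (ψ' x) x) ∧
    (∀ x, HasDerivAt ψ' (ψ'' x) x) ∧ Continuous ψ'' ∧ (∀ x, 0 ≤ ψ' x) ∧ (∀ x, 0 ≤ ψ'' x) ∧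
    (∀ x ≤ 0, ψ x = 0) ∧ (∀ x ≤ 0, ψ' x = 0) ∧ (∀ x, 0 < x → 0 < ψ x) ∧
    (∀ x, 0 ≤ ψ x) ∧ ∀ x, ψ x ≤ |x| := by
  set g : ℝ → ℝ := fun t => (max t 0) ^ 2 / (1 + t ^ 2) with hg
  have hgc : Continuous g := by
    apply Continuous.div (by fun_prop) (by fun_prop)
    intro t; positivity
  have hg0 : ∀ t, 0 ≤ g t := fun t => by positivity
  have hg1 : ∀ t, g t ≤ 1 := by
    intro t
    rw [hg]
    simp only
    rw [div_le_one (by positivity)]
    rcases le_total t 0 with h | h
    · rw [max_eq_right h]; nlinarith
    · rw [max_eq_left h]; linarith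
  have hgn : ∀ t ≤ 0, g t = 0 := by
    intro t ht
    simp [hg, max_eq_right ht]
  have hgp : ∀ t, 0 < t → 0 < g t := by
    intro t ht
    rw [hg]; simp only
    rw [max_eq_left ht.le]; positivity
  refine ⟨fun x => ∫ t in (0 : ℝ)..x, g t, g, fun t => 2 * max t 0 / (1 + t ^ 2) ^ 2,
    ?_, ?_, ?_, hg0, ?_, ?_, hgn, ?_, ?_, ?_⟩
  · intro x
    exact intervalIntegral.integral_hasDerivAt_right (hgc.intervalIntegrable _ _)
      hgc.aestronglyMeasurable.stronglyMeasurableAtFilter hgc.continuousAt
  · intro x
    have h1 : HasDerivAt (fun t : ℝ => 1 + t ^ 2) (2 * x) x := by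
      simpa using ((hasDerivAt_pow 2 x).const_add 1)
    have h2 := (hasDerivAt_sq_pos x).div h1 (by positivity)
    refine HasDerivAt.congr_deriv (f' := _) h2 ?_
    simp only
    rcases le_total x 0 with h | h
    · rw [max_eq_right h]; simp
    · rw [max_eq_left h]; congr 1; ring
  · apply Continuous.div (by fun_prop) (by fun_prop)
    intro t; positivity
  · intro x; positivity
  · intro x hx
    simp only
    rw [intervalIntegral.integral_symm, neg_eq_zero]
    have : ∫ t in x..(0 : ℝ), g t = ∫ t in x..(0 : ℝ), (0 : ℝ) := by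
      apply intervalIntegral.integral_congr
      intro t ht
      rw [uIcc_of_le hx] at ht
      exact hgn t ht.2
    rw [this]; simp
  · intro x hx
    apply intervalIntegral.intervalIntegral_pos_of_pos_on (hgc.intervalIntegrable _ _) _ hx
    intro t ht
    exact hgp t ht.1
  · intro x
    simp only
    rcases le_total x 0 with h | h
    · rw [intervalIntegral.integral_symm]
      have : ∫ t in x..(0 : ℝ), g t = ∫ t in x..(0 : ℝ), (0 : ℝ) := by
        apply intervalIntegral.integral_congr
        intro t ht
        rw [uIcc_of_le h] at ht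
        exact hgn t ht.2
      rw [this]; simp
    · exact intervalIntegral.integral_nonneg h fun t _ => hg0 t
  · intro x
    simp only
    rcases le_total x 0 with h | h
    · rw [intervalIntegral.integral_symm]
      have : ∫ t in x..(0 : ℝ), g t = ∫ t in x..(0 : ℝ), (0 : ℝ) := by
        apply intervalIntegral.integral_congr
        intro t ht
        rw [uIcc_of_le h] at ht
        exact hgn t ht.2
      rw [this]; simp
    · have : ∫ t in (0 : ℝ)..x, g t ≤ ∫ t in (0 : ℝ)..x, (1 : ℝ) :=
        intervalIntegral.integral_mono_on h (hgc.intervalIntegrable _ _)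
          intervalIntegrable_const fun t _ => hg1 t
      simpa [abs_of_nonneg h] using this

section comp
variable {ψ ψ' ψ'' : ℝ → ℝ} (h1 : ∀ x, HasDerivAt ψ (ψ' x) x) (h2 : ∀ x, HasDerivAt ψ' (ψ'' x) x)
  (h3 : Continuous ψ'')
include h1 h2 h3

theorem contDiff_psi : ContDiff ℝ 2 ψ := by
  have e1 : deriv ψ = ψ' := funext fun x => (h1 x).deriv
  have e2 : deriv ψ' = ψ'' := funext fun x => (h2 x).deriv
  have c1 : ContDiff ℝ 1 ψ' := by
    rw [contDiff_one_iff_deriv]
    exact ⟨fun x => (h2 x).differentiableAt, by rw [e2]; exact h3⟩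
  have : ContDiff ℝ (1 + 1) ψ := by
    rw [contDiff_succ_iff_deriv]
    refine ⟨fun x => (h1 x).differentiableAt, by simp, ?_⟩
    rw [e1]; exact c1
  exact this

theorem lap_psi {v : ℂ → ℝ} (hv : ContDiff ℝ 2 v) (z : ℂ) :
    lap (fun z => ψ (v z)) z = ψ'' (v z) * (fderiv ℝ v z 1 ^ 2 + fderiv ℝ v z Complex.I ^ 2) +
      ψ' (v z) * lap v z := by
  have hc : ContDiff ℝ 2 (fun z => ψ (v z)) := (contDiff_psi h1 h2 h3).comp hv
  have e1 : fderiv ℝ (fun z => ψ (v z)) = fun z => (ψ' (v z)) • fderiv ℝ v z := by
    funext z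
    exact ((h1 (v z)).comp_hasFDerivAt z (hv.differentiable (by norm_num) z).hasFDerivAt).fderiv
  have e2 : ∀ a b : ℂ, D2 (fun z => ψ (v z)) z a b =
      ψ'' (v z) * (fderiv ℝ v z a * fderiv ℝ v z b) + ψ' (v z) * D2 v z a b := by
    intro a b
    have h4 : HasFDerivAt (fun z => ψ' (v z)) (ψ'' (v z) • fderiv ℝ v z) z :=
      (h2 (v z)).comp_hasFDerivAt z (hv.differentiable (by norm_num) z).hasFDerivAt
    have h5 := h4.smul (diff_fderiv hv z)
    rw [D2, e1]
    have h6 : fderiv ℝ (fun z => ψ' (v z) • fderiv ℝ v z) z = _ := h5.fderiv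
    rw [h6]
    simp
    ring
  rw [lap_eq hc, lap_eq hv, e2, e2]
  ring

end comp

/-- Two-phase alternative: the difference has a sign. -/
theorem sign_of_growth {v : ℂ → ℝ} (hv : ContDiff ℝ 2 v) (hp : ∀ z, 0 < v z → 0 ≤ lap v z)
    (hn : ∀ z, v z < 0 → lap v z ≤ 0) {C s₀ : ℝ}
    (hC : ∀ s, s₀ ≤ s → mean (fun z => |v z|) 0 s ≤ C * s) :
    (∀ z, v z ≤ 0) ∨ ∀ z, 0 ≤ v z := by
  by_contra hcon
  push Not at hcon
  obtain ⟨⟨z₁, hz₁⟩, ⟨z₂, hz₂⟩⟩ := hcon
  obtain ⟨ψ, ψ', ψ'', h1, h2, h3, h4, h5, h6, h7, h8, h9, h10⟩ := exists_psi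
  have key : ∀ u : ℂ → ℝ, ContDiff ℝ 2 u → (∀ z, 0 < u z → 0 ≤ lap u z) →
      ContDiff ℝ 2 (fun z => ψ (u z)) ∧ ∀ z, 0 ≤ lap (fun z => ψ (u z)) z := by
    intro u hu hup
    refine ⟨(contDiff_psi h1 h2 h3).comp hu, fun z => ?_⟩
    rw [lap_psi h1 h2 h3 hu]
    have e1 : 0 ≤ ψ'' (u z) * (fderiv ℝ u z 1 ^ 2 + fderiv ℝ u z Complex.I ^ 2) :=
      mul_nonneg (h5 _) (by positivity)
    have e2 : 0 ≤ ψ' (u z) * lap u z := by
      rcases le_or_gt (u z) 0 with h | h
      · rw [h7 _ h, zero_mul]
      · exact mul_nonneg (h4 _) (hup z h)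
    linarith
  obtain ⟨ha, hal⟩ := key v hv hp
  have hlapneg : ∀ z, lap (fun z => -v z) z = -lap v z := by
    intro z
    have e : ∀ a b, D2 (fun z => -v z) z a b = -D2 v z a b := by
      intro a b
      have : fderiv ℝ (fun z => -v z) = fun z => -fderiv ℝ v z := by
        funext z; exact fderiv_fun_neg
      rw [D2, this, fderiv_fun_neg]
      simp [D2]
    rw [lap_eq hv.neg, lap_eq hv, e, e]; ring
  obtain ⟨hb, hbl⟩ := key (fun z => -v z) hv.neg (fun z hz => by
    rw [hlapneg]
    have := hn z (by linarith)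
    linarith)
  have hzero := eq_zero_of_growth ha hal (fun z => h9 _) (s₀ := max s₀ (Real.log ‖z₂‖)) (C := C)
    (fun s hs => by
      have h11 := mean_pos hb hbl (fun z => h9 _) (z := z₂) (h8 _ (by linarith))
        ((le_max_right _ _).trans hs)
      by_contra hno
      push Not at hno
      have h12 : mean (fun z => ψ (-v z)) 0 s ≤ ∫ t in (0 : ℝ)..(2 * π), (0 : ℝ) := by
        apply intervalIntegral.integral_mono_on pi_pos2
        · exact (hb.continuous.comp (continuous_const.add (cont_pt' _))).intervalIntegrable _ _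
        · exact intervalIntegrable_const
        · intro t ht
          have h13 := hno t ht
          rw [zero_add]
          have h14 : 0 < v (pt s t) := by
            by_contra h15
            push Not at h15
            exact h13 (h6 _ h15)
          exact (h6 (-v (pt s t)) (by linarith)).le
      simp only [intervalIntegral.integral_const, smul_zero] at h12
      linarith)
    (fun s hs => by
      refine le_trans ?_ (hC s ((le_max_left _ _).trans hs))
      apply intervalIntegral.integral_mono_on pi_pos2
      · exact (ha.continuous.comp (continuous_const.add (cont_pt' _))).intervalIntegrable _ _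
      · exact ((hv.continuous.abs).comp
          (continuous_const.add (cont_pt' _))).intervalIntegrable _ _
      · intro t _
        exact h10 _) z₁
  exact absurd hzero (h8 _ hz₁).ne'

/-- strong minimum principle -/
theorem eq_zero_of_min {v : ℂ → ℝ} (hv : ContDiff ℝ 2 v) (h0 : ∀ z, 0 ≤ v z)
    (hl : ∀ z, lap v z ≤ v z) {x₀ : ℂ} (hx₀ : v x₀ = 0) (z : ℂ) : v z = 0 := by
  -- local statement with uniform radius
  have key : ∀ c, v c = 0 → ∀ s ≤ (0 : ℝ), ∀ t, v (c + pt s t) = 0 := by
    intro c hc
    have hd0 := hasDerivAt_mean (F := v) (hv.of_le (by norm_num)) c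
    have hd1 := hasDerivAt_mean1 hv c
    have ht0 := tendsto_mean (F := v) (hv.of_le (by norm_num)) c
    have ht1 := tendsto_mean1 (F := v) (hv.of_le (by norm_num)) c
    rw [hc, mul_zero] at ht0
    have hm0 : ∀ s, 0 ≤ mean v c s := fun s =>
      intervalIntegral.integral_nonneg pi_pos2 fun t _ => h0 _
    have hm2 : ∀ s, mean2 v c s ≤ Real.exp (2 * s) * mean v c s := by
      intro s
      rw [mean, ← intervalIntegral.integral_const_mul]
      apply intervalIntegral.integral_mono_on pi_pos2
      · exact (continuous_const.mul ((continuous_lap hv).comp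
          (continuous_const.add (cont_pt' s)))).intervalIntegrable _ _
      · exact (continuous_const.mul (hv.continuous.comp
          (continuous_const.add (cont_pt' s)))).intervalIntegrable _ _
      · intro t _
        exact mul_le_mul_of_nonneg_left (hl _) (Real.exp_nonneg _)
    -- m is bounded on (-∞, 0]
    obtain ⟨S, hS0, hS⟩ : ∃ S, 0 ≤ S ∧ ∀ s ≤ (0 : ℝ), mean v c s ≤ S := by
      obtain ⟨M, hM⟩ := (isCompact_closedBall c 1).exists_bound_of_continuousOn
        hv.continuous.continuousOn
      refine ⟨2 * π * |M|, by positivity, fun s hs => ?_⟩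
      have : mean v c s ≤ ∫ t in (0 : ℝ)..(2 * π), |M| := by
        apply intervalIntegral.integral_mono_on pi_pos2
        · exact (hv.continuous.comp (continuous_const.add (cont_pt' _))).intervalIntegrable _ _
        · exact intervalIntegrable_const
        · intro t _
          exact (le_abs_self _).trans ((hM _ (mem_ball_pt c hs t)).trans (le_abs_self M))
      simpa using this
    -- improvement
    have himp : ∀ S, 0 ≤ S → (∀ s ≤ (0 : ℝ), mean v c s ≤ S) →
        ∀ s ≤ (0 : ℝ), mean v c s ≤ S / 4 := by
      intro S hS0 hS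
      have hexp : ∀ s, HasDerivAt (fun s => Real.exp (2 * s)) (Real.exp (2 * s) * 2) s := by
        intro s
        have := ((hasDerivAt_id s).const_mul 2).exp
        simpa using this
      have hlim : Tendsto (fun s : ℝ => Real.exp (2 * s)) atBot (𝓝 0) :=
        Real.tendsto_exp_atBot.comp (tendsto_id.const_mul_atBot (by norm_num))
      have h1 : ∀ s ≤ (0 : ℝ), mean1 v c s ≤ S * Real.exp (2 * s) / 2 := by
        have hanti : AntitoneOn (fun s => mean1 v c s - S * Real.exp (2 * s) / 2) (Iic 0) := by
          have hd : ∀ s, HasDerivAt (fun s => mean1 v c s - S * Real.exp (2 * s) / 2)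
              (mean2 v c s - S * (Real.exp (2 * s) * 2) / 2) s := fun s =>
            (hd1 s).sub (((hexp s).const_mul S).div_const 2)
          apply antitoneOn_of_deriv_nonpos (convex_Iic _)
          · exact fun s _ => (hd s).continuousAt.continuousWithinAt
          · exact fun s _ => (hd s).differentiableAt.differentiableWithinAt
          · intro s hs
            rw [interior_Iic] at hs
            rw [(hd s).deriv]
            have e1 := hm2 s
            have e2 := hS s (le_of_lt hs)
            have e3 := Real.exp_pos (2 * s)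
            nlinarith
        intro s hs
        have hlim2 : Tendsto (fun s => mean1 v c s - S * Real.exp (2 * s) / 2) atBot (𝓝 0) := by
          have := ht1.sub ((hlim.const_mul S).div_const 2)
          simpa using this
        have : mean1 v c s - S * Real.exp (2 * s) / 2 ≤ 0 := by
          apply ge_of_tendsto hlim2
          filter_upwards [eventually_le_atBot s] with r hr
          exact hanti (hr.trans hs) hs hr
        linarith
      intro s hs
      have hanti : AntitoneOn (fun s => mean v c s - S * Real.exp (2 * s) / 4) (Iic 0) := by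
        have hd : ∀ s, HasDerivAt (fun s => mean v c s - S * Real.exp (2 * s) / 4)
            (mean1 v c s - S * (Real.exp (2 * s) * 2) / 4) s := fun s =>
          (hd0 s).sub (((hexp s).const_mul S).div_const 4)
        apply antitoneOn_of_deriv_nonpos (convex_Iic _)
        · exact fun s _ => (hd s).continuousAt.continuousWithinAt
        · exact fun s _ => (hd s).differentiableAt.differentiableWithinAt
        · intro s hs
          rw [interior_Iic] at hs
          rw [(hd s).deriv]
          have e1 := h1 s (le_of_lt hs)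
          linarith
      have hlim2 : Tendsto (fun s => mean v c s - S * Real.exp (2 * s) / 4) atBot (𝓝 0) := by
        have := ht0.sub ((hlim.const_mul S).div_const 4)
        simpa using this
      have : mean v c s - S * Real.exp (2 * s) / 4 ≤ 0 := by
        apply ge_of_tendsto hlim2
        filter_upwards [eventually_le_atBot s] with r hr
        exact hanti (hr.trans hs) hs hr
      have e4 : Real.exp (2 * s) ≤ 1 := Real.exp_le_one_iff.2 (by linarith)
      nlinarith
    have hpow : ∀ n : ℕ, ∀ s ≤ (0 : ℝ), mean v c s ≤ S / 4 ^ n := by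
      intro n
      induction n with
      | zero => simpa using hS
      | succ n ih =>
        have := himp (S / 4 ^ n) (by positivity) ih
        intro s hs
        rw [pow_succ, ← div_div]
        exact this s hs
    intro s hs t
    have hm : mean v c s = 0 := by
      refine le_antisymm ?_ (hm0 s)
      have hlim : Tendsto (fun n : ℕ => S / 4 ^ n) atTop (𝓝 0) := by
        have := (tendsto_pow_atTop_nhds_zero_of_lt_one (r := (1 / 4 : ℝ)) (by norm_num)
          (by norm_num)).const_mul S
        rw [mul_zero] at this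
        refine this.congr fun n => ?_
        rw [one_div, inv_pow, div_eq_mul_inv]
      exact ge_of_tendsto' hlim fun n => hpow n s hs
    -- conclude pointwise
    by_contra hne
    have hpos : 0 < v (c + pt s t) := lt_of_le_of_ne (h0 _) (Ne.symm hne)
    obtain ⟨t', ht', hpt⟩ : ∃ t' ∈ Icc 0 (2 * π), pt s t' = pt s t := by
      obtain ⟨t', ht', h⟩ := exists_pt (z := pt s t) (by
        rw [← norm_pos_iff, norm_pt]; exact Real.exp_pos _)
      rw [norm_pt, Real.log_exp] at h
      exact ⟨t', ht', h⟩
    have hc' : Continuous fun t => v (c + pt s t) :=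
      hv.continuous.comp (continuous_const.add (cont_pt' _))
    have := intervalIntegral.integral_pos (a := 0) (b := 2 * π) (by positivity) hc'.continuousOn
      (fun t _ => h0 _) ⟨t', ht', by rw [hpt]; exact hpos⟩
    have e : mean v c s = ∫ t in (0 : ℝ)..(2 * π), v (c + pt s t) := rfl
    rw [← e, hm] at this
    exact lt_irrefl _ this
  have hball : ∀ c, v c = 0 → ∀ w ∈ Metric.ball c 1, v w = 0 := by
    intro c hc w hw
    by_cases hwc : w = c
    · rw [hwc]; exact hc
    · obtain ⟨t, _, ht⟩ := exists_pt (z := w - c) (sub_ne_zero.2 hwc)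
      have hn : ‖w - c‖ < 1 := by rwa [Metric.mem_ball, dist_eq_norm] at hw
      have := key c hc (Real.log ‖w - c‖) (Real.log_nonpos (norm_nonneg _) hn.le) t
      rw [ht] at this
      simpa using this
  have hopen : IsOpen {z | v z = 0} := by
    rw [Metric.isOpen_iff]
    exact fun c hc => ⟨1, one_pos, hball c hc⟩
  have hclosed : IsClosed {z | v z = 0} := isClosed_eq hv.continuous continuous_const
  have huniv : {z | v z = 0} = univ :=
    IsClopen.eq_univ ⟨hclosed, hopen⟩ ⟨x₀, hx₀⟩
  have : z ∈ {z | v z = 0} := by rw [huniv]; trivial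
  exact this

end Pool.Agent.Work.MP_089002_mp
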