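import Pool.Agent.Work.MP_089002_mp.Circle2

set_option autoImplicit false

open MeasureTheory Filter Topology Set Bornology Metric
open scoped ContDiff Real

namespace Pool.Agent.Work.MP_089002_mp

/-! ### A bound for circle means -/

theorem abs_mean1_le {v : ℂ → ℝ} (hv : ContDiff ℝ 2 v) {z1 : ℂ}
    (hl : ∀ z ∈ closedBall z1 1, |lap v z| ≤ 1) {s : ℝ} (hs : s ≤ 0) :
    |mean1 v z1 s| ≤ π := by
  have hexp : Tendsto (fun s : ℝ => Real.exp (2 * s)) atBot (𝓝 0) :=
    Real.tendsto_exp_atBot.comp (tendsto_id.const_mul_atBot (by norm_num))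
  have hdexp : ∀ s : ℝ, HasDerivAt (fun s : ℝ => Real.exp (2 * s)) (2 * Real.exp (2 * s)) s := by
    intro s
    exact (((hasDerivAt_id s).const_mul 2).exp).congr_deriv (by simp; ring)
  have hm2 : ∀ s ≤ 0, |mean2 v z1 s| ≤ 2 * π * Real.exp (2 * s) := by
    intro s hs
    unfold mean2
    have h1 := intervalIntegral.norm_integral_le_of_norm_le_const (a := 0) (b := 2 * π)
      (f := fun t => Real.exp (2 * s) * lap v (z1 + pt s t)) (C := Real.exp (2 * s)) (by
        intro t _
        rw [norm_mul, Real.norm_of_nonneg (Real.exp_nonneg _), Real.norm_eq_abs]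
        have h2 : |lap v (z1 + pt s t)| ≤ 1 := by
          apply hl
          rw [mem_closedBall, dist_eq_norm, add_sub_cancel_left, norm_pt]
          exact Real.exp_le_one_iff.mpr hs
        calc Real.exp (2 * s) * |lap v (z1 + pt s t)| ≤ Real.exp (2 * s) * 1 := by gcongr
          _ = _ := mul_one _)
    rw [Real.norm_eq_abs, sub_zero, abs_of_pos Real.two_pi_pos] at h1
    linarith
  have hlim := tendsto_mean1 (hv.of_le (by norm_num)) z1
  have hpi := Real.pi_pos
  have hexp1 : Real.exp (2 * s) ≤ 1 := Real.exp_le_one_iff.mpr (by linarith)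
  -- upper bound
  have up : mean1 v z1 s - π * Real.exp (2 * s) ≤ 0 := by
    have hanti : AntitoneOn (fun s => mean1 v z1 s - π * Real.exp (2 * s)) (Iic 0) := by
      apply antitoneOn_of_deriv_nonpos (convex_Iic 0)
      · intro x _
        exact ((hasDerivAt_mean1 hv z1 x).sub ((hdexp x).const_mul π)).continuousAt.continuousWithinAt
      · intro x _
        exact ((hasDerivAt_mean1 hv z1 x).sub
          ((hdexp x).const_mul π)).differentiableAt.differentiableWithinAt
      · intro x hx
        rw [interior_Iic] at hx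
        have e := ((hasDerivAt_mean1 hv z1 x).sub ((hdexp x).const_mul π)).deriv
        have e' : deriv (fun s => mean1 v z1 s - π * Real.exp (2 * s)) x = _ := e
        rw [e']
        have := (abs_le.mp (hm2 x (le_of_lt hx))).2
        linarith
    have hl0 : Tendsto (fun s => mean1 v z1 s - π * Real.exp (2 * s)) atBot (𝓝 0) := by
      have := hlim.sub (hexp.const_mul π)
      simpa using this
    apply ge_of_tendsto hl0
    filter_upwards [eventually_le_atBot s] with x hx
    exact hanti (mem_Iic.mpr (hx.trans hs)) (mem_Iic.mpr hs) hx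
  have down : 0 ≤ mean1 v z1 s + π * Real.exp (2 * s) := by
    have hmono : MonotoneOn (fun s => mean1 v z1 s + π * Real.exp (2 * s)) (Iic 0) := by
      apply monotoneOn_of_deriv_nonneg (convex_Iic 0)
      · intro x _
        exact ((hasDerivAt_mean1 hv z1 x).add ((hdexp x).const_mul π)).continuousAt.continuousWithinAt
      · intro x _
        exact ((hasDerivAt_mean1 hv z1 x).add
          ((hdexp x).const_mul π)).differentiableAt.differentiableWithinAt
      · intro x hx
        rw [interior_Iic] at hx
        have e := ((hasDerivAt_mean1 hv z1 x).add ((hdexp x).const_mul π)).deriv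
        have e' : deriv (fun s => mean1 v z1 s + π * Real.exp (2 * s)) x = _ := e
        rw [e']
        have := (abs_le.mp (hm2 x (le_of_lt hx))).1
        linarith
    have hl0 : Tendsto (fun s => mean1 v z1 s + π * Real.exp (2 * s)) atBot (𝓝 0) := by
      have := hlim.add (hexp.const_mul π)
      simpa using this
    apply le_of_tendsto hl0
    filter_upwards [eventually_le_atBot s] with x hx
    exact hmono (mem_Iic.mpr (hx.trans hs)) (mem_Iic.mpr hs) hx
  rw [abs_le]
  have : π * Real.exp (2 * s) ≤ π := by nlinarith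
  constructor <;> linarith

/-- a function with bounded Laplacian cannot be close to `k log |z - z1|` on two circles about `z1`
whose radii have a large ratio, unless `k = 0` -/
theorem mult_core {v : ℂ → ℝ} (hv : ContDiff ℝ 2 v) {z1 : ℂ}
    (hl : ∀ z ∈ closedBall z1 1, |lap v z| ≤ 1) {k : ℤ} {C s T : ℝ} (hs : s ≤ 0)
    (hT : 4 * (C + 1) < T) (hT0 : 0 < T)
    (h1 : ∀ z, ‖z - z1‖ = Real.exp s → |v z - k * s| ≤ C + 1)
    (h2 : ∀ z, ‖z - z1‖ = Real.exp (s - T) → |v z - k * (s - T)| ≤ C + 1) : k = 0 := by
  by_contra hk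
  have hpi := Real.pi_pos
  have hcirc : ∀ s : ℝ, Continuous fun θ => v (z1 + pt s θ) := fun s =>
    hv.continuous.comp (continuous_const.add (cont_pt' s))
  have hb : ∀ s : ℝ, (∀ z, ‖z - z1‖ = Real.exp s → |v z - k * s| ≤ C + 1) →
      |mean v z1 s - 2 * π * (k * s)| ≤ 2 * π * (C + 1) := by
    intro s hs
    have e : mean v z1 s - 2 * π * (k * s) =
        ∫ θ in (0 : ℝ)..2 * π, (v (z1 + pt s θ) - k * s) := by
      rw [intervalIntegral.integral_sub ((hcirc s).intervalIntegrable _ _)
        intervalIntegrable_const, intervalIntegral.integral_const, smul_eq_mul, sub_zero]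
      rfl
    rw [e]
    have h3 := intervalIntegral.norm_integral_le_of_norm_le_const (a := 0) (b := 2 * π)
      (f := fun θ => v (z1 + pt s θ) - k * s) (C := C + 1) (by
        intro θ _
        rw [Real.norm_eq_abs]
        apply hs
        rw [add_sub_cancel_left, norm_pt])
    rw [Real.norm_eq_abs, sub_zero, abs_of_pos Real.two_pi_pos] at h3
    linarith
  have b1 := hb s h1
  have b2 := hb (s - T) h2
  -- mean value inequality
  have hmv : |mean v z1 s - mean v z1 (s - T)| ≤ π * T := by
    have := Convex.norm_image_sub_le_of_norm_hasDerivWithin_le (f := mean v z1)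
      (f' := mean1 v z1) (C := π) (s := Iic 0) (x := s - T) (y := s)
      (fun x _ => (hasDerivAt_mean (hv.of_le (by norm_num)) z1 x).hasDerivWithinAt)
      (fun x hx => by
        rw [Real.norm_eq_abs]
        exact abs_mean1_le hv hl hx) (convex_Iic 0) (by
          rw [mem_Iic]; linarith) (mem_Iic.mpr hs)
    rw [Real.norm_eq_abs, Real.norm_eq_abs] at this
    have e : s - (s - T) = T := by ring
    rw [e, abs_of_pos hT0] at this
    exact this
  have hk1 : (1 : ℝ) ≤ |(k : ℝ)| := by
    have : (1 : ℤ) ≤ |k| := Int.one_le_abs hk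
    exact_mod_cast this
  have e : 2 * π * (k * s) - 2 * π * (k * (s - T)) = 2 * π * (k * T) := by ring
  have h4 : |2 * π * (k * T)| ≤ 4 * π * (C + 1) + π * T := by
    rw [← e]
    calc |2 * π * (k * s) - 2 * π * (k * (s - T))|
        = |(mean v z1 s - mean v z1 (s - T)) - (mean v z1 s - 2 * π * (k * s)) +
          (mean v z1 (s - T) - 2 * π * (k * (s - T)))| := by
          congr 1; ring
      _ ≤ |mean v z1 s - mean v z1 (s - T)| + |mean v z1 s - 2 * π * (k * s)| +
          |mean v z1 (s - T) - 2 * π * (k * (s - T))| := by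
          refine (abs_add_le _ _).trans ?_
          gcongr
          exact abs_sub _ _
      _ ≤ π * T + 2 * π * (C + 1) + 2 * π * (C + 1) := by gcongr
      _ = _ := by ring
  rw [abs_mul (2 * π), abs_mul (k : ℝ), abs_of_pos Real.two_pi_pos, abs_of_pos hT0] at h4
  have h5 : 2 * π * (1 * T) ≤ 2 * π * (|(k : ℝ)| * T) := by gcongr
  nlinarith

end Pool.Agent.Work.MP_089002_mp
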