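import Mathlib

set_option autoImplicit false

open Set Filter Topology

namespace Pool.Agent.Work.MP_089002_mp

theorem mono_of {f f' : ℝ → ℝ} {T : ℝ} (h : ∀ t ≥ T, HasDerivAt f (f' t) t)
    (h0 : ∀ t ≥ T, 0 ≤ f' t) : ∀ s ≥ T, ∀ t ≥ s, f s ≤ f t := by
  intro s hs t hst
  have hmono : MonotoneOn f (Ici T) := by
    apply monotoneOn_of_deriv_nonneg (convex_Ici T)
    · intro x hx
      exact (h x hx).continuousAt.continuousWithinAt
    · intro x hx
      rw [interior_Ici] at hx
      exact (h x (le_of_lt hx)).differentiableAt.differentiableWithinAt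
    · intro x hx
      rw [interior_Ici] at hx
      rw [(h x (le_of_lt hx)).deriv]
      exact h0 x (le_of_lt hx)
  exact hmono hs (le_trans hs hst) hst

theorem blowup_auto {n n1 n2 : ℝ → ℝ} {T c m0 : ℝ} (hc : 0 < c) (hm0 : 0 < m0)
    (h1 : ∀ t ≥ T, HasDerivAt n (n1 t) t) (h2 : ∀ t ≥ T, HasDerivAt n1 (n2 t) t)
    (hpos : ∀ t ≥ T, m0 ≤ n t) (hn1 : ∀ t ≥ T, 0 ≤ n1 t)
    (hineq : ∀ t ≥ T, c * n t ^ 2 ≤ n2 t) : False := by
  -- linear growth of the derivative
  set k := c * m0 ^ 2 with hk
  have hkpos : 0 < k := by positivity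
  have hn2k : ∀ t ≥ T, k ≤ n2 t := by
    intro t ht
    have := hpos t ht
    calc k ≤ c * n t ^ 2 := by
          rw [hk]; gcongr
      _ ≤ n2 t := hineq t ht
  have hlin : ∀ t ≥ T, k * (t - T) ≤ n1 t := by
    intro t ht
    have := mono_of (f := fun s => n1 s - k * (s - T)) (f' := fun s => n2 s - k) (T := T)
      (by
        intro s hs
        exact ((h2 s hs).sub (((hasDerivAt_id s).sub_const T).const_mul k)).congr_deriv
          (by ring))
      (by intro s hs; linarith [hn2k s hs]) T le_rfl t ht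
    have h0 := hn1 T le_rfl
    simp only [sub_self, mul_zero, sub_zero] at this
    linarith
  have hquad : ∀ t ≥ T, k / 2 * (t - T) ^ 2 ≤ n t := by
    intro t ht
    have := mono_of (f := fun s => n s - k / 2 * (s - T) ^ 2)
      (f' := fun s => n1 s - k * (s - T)) (T := T)
      (by
        intro s hs
        exact ((h1 s hs).sub ((((hasDerivAt_id s).sub_const T).pow 2).const_mul
          (k / 2))).congr_deriv (by simp; ring))
      (by intro s hs; linarith [hlin s hs]) T le_rfl t ht
    have h0 := hpos T le_rfl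
    simp only [sub_self] at this
    nlinarith
  -- energy
  set E := n1 T ^ 2 - 2 * c / 3 * n T ^ 3 with hE
  have hen : ∀ t ≥ T, E ≤ n1 t ^ 2 - 2 * c / 3 * n t ^ 3 := by
    intro t ht
    exact mono_of (f := fun s => n1 s ^ 2 - 2 * c / 3 * n s ^ 3)
      (f' := fun s => 2 * n1 s * (n2 s - c * n s ^ 2)) (T := T)
      (by
        intro s hs
        exact (((h2 s hs).pow 2).sub (((h1 s hs).pow 3).const_mul (2 * c / 3))).congr_deriv
          (by push_cast; ring))
      (by
        intro s hs
        have a := hn1 s hs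
        have b := hineq s hs
        have : 0 ≤ n2 s - c * n s ^ 2 := by linarith
        positivity) T le_rfl t ht
  -- find T1
  obtain ⟨T1, hT1, hT1'⟩ : ∃ T1 ≥ T, ∀ t ≥ T1, -E ≤ c / 3 * n t ^ 3 := by
    set A := max 1 (3 / c * |E|) with hA
    have hA1 : 1 ≤ A := le_max_left _ _
    have hA2 : 3 / c * |E| ≤ A := le_max_right _ _
    refine ⟨T + Real.sqrt (2 * A / k), by
      have := Real.sqrt_nonneg (2 * A / k); linarith, ?_⟩
    intro t ht
    have hs := Real.sqrt_nonneg (2 * A / k)
    have htT : t ≥ T := by linarith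
    have hq := hquad t htT
    have hsq : Real.sqrt (2 * A / k) ^ 2 = 2 * A / k := Real.sq_sqrt (by positivity)
    have h3 : 2 * A / k ≤ (t - T) ^ 2 := by
      rw [← hsq]
      apply pow_le_pow_left₀ hs
      linarith
    have h4 : A ≤ n t := by
      have : k / 2 * (2 * A / k) ≤ k / 2 * (t - T) ^ 2 := by gcongr
      have e : k / 2 * (2 * A / k) = A := by field_simp
      linarith
    have h5 : A ≤ n t ^ 3 := by
      have h1n : 1 ≤ n t := le_trans hA1 h4
      have : n t ≤ n t ^ 3 := by
        have := pow_le_pow_right₀ h1n (show 1 ≤ 3 by norm_num)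
        simpa using this
      linarith
    have h6 : 3 / c * |E| ≤ n t ^ 3 := le_trans hA2 h5
    have h7 : c / 3 * (3 / c * |E|) ≤ c / 3 * n t ^ 3 := by gcongr
    have h8 : c / 3 * (3 / c * |E|) = |E| := by field_simp
    have h9 := neg_abs_le E
    linarith
  have hder : ∀ t ≥ T1, c / 3 * n t ^ 3 ≤ n1 t ^ 2 := by
    intro t ht
    have a := hen t (le_trans hT1 ht)
    have b := hT1' t ht
    linarith
  -- final comparison
  set κ := Real.sqrt (c / 3) / 2 with hκ
  have hκpos : 0 < κ := by positivity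
  have hnpos : ∀ t ≥ T1, 0 < n t := fun t ht => lt_of_lt_of_le hm0 (hpos t (le_trans hT1 ht))
  have hfin := fun t (ht : t ≥ T1) => mono_of
    (f := fun s => -(Real.sqrt (n s))⁻¹ - κ * s)
    (f' := fun s => (n1 s / (2 * Real.sqrt (n s))) / (Real.sqrt (n s)) ^ 2 - κ) (T := T1)
    (by
      intro s hs
      have hp := hnpos s hs
      have hsq : 0 < Real.sqrt (n s) := Real.sqrt_pos.mpr hp
      have a := ((h1 s (le_trans hT1 hs)).sqrt hp.ne').inv hsq.ne'
      exact (a.neg.sub ((hasDerivAt_id s).const_mul κ)).congr_deriv (by ring))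
    (by
      intro s hs
      have hp := hnpos s hs
      have hsq : 0 < Real.sqrt (n s) := Real.sqrt_pos.mpr hp
      have h3 := hder s hs
      have h4 := hn1 s (le_trans hT1 hs)
      have e1 : Real.sqrt (c / 3) * Real.sqrt (n s) ^ 3 ≤ n1 s := by
        apply le_of_sq_le_sq _ h4 |> fun h => h
        rw [mul_pow, Real.sq_sqrt (by positivity)]
        have : (Real.sqrt (n s) ^ 3) ^ 2 = n s ^ 3 := by
          rw [← pow_mul, show 3 * 2 = 2 * 3 by norm_num, pow_mul, Real.sq_sqrt hp.le]
        rw [this]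
        exact h3
      rw [sub_nonneg, hκ, div_div, le_div_iff₀ (by positivity)]
      calc Real.sqrt (c / 3) / 2 * (2 * Real.sqrt (n s) * Real.sqrt (n s) ^ 2)
          = Real.sqrt (c / 3) * Real.sqrt (n s) ^ 3 := by ring
        _ ≤ n1 s := e1) T1 le_rfl t ht
  set y := (Real.sqrt (n T1))⁻¹ with hy
  have hypos : 0 < y := by
    have := Real.sqrt_pos.mpr (hnpos T1 le_rfl)
    positivity
  have hbad := hfin (T1 + y / κ) (by
    have : 0 ≤ y / κ := by positivity
    linarith)
  have h10 : 0 < (Real.sqrt (n (T1 + y / κ)))⁻¹ := by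
    have := Real.sqrt_pos.mpr (hnpos (T1 + y / κ) (by
      have : 0 ≤ y / κ := by positivity
      linarith))
    positivity
  have h11 : κ * (T1 + y / κ) = κ * T1 + y := by field_simp
  simp only [h11] at hbad
  linarith

end Pool.Agent.Work.MP_089002_mp
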