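import Pool.Agent.Work.MP_089002_mp.Area

open MeasureTheory Filter Topology Set
open scoped ContDiff Real

namespace Pool.Agent.Work.MP_089002_mp

theorem D2_sq {h : ℂ → ℝ} (hF : ContDiff ℝ 2 h) (z v w : ℂ) :
    D2 (fun z => h z ^ 2) z v w = 2 * (fderiv ℝ h z v * fderiv ℝ h z w) + 2 * h z * D2 h z v w := by
  have h1 : fderiv ℝ (fun z => h z ^ 2) = fun z => (2 * h z) • fderiv ℝ h z := by
    funext z
    have := ((hF.differentiable (by norm_num) z).hasFDerivAt.pow 2).fderiv
    simpa using this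
  have h2 : HasFDerivAt (fun z => (2 * h z) • fderiv ℝ h z)
      ((2 * h z) • D2 h z + ((2 : ℝ) • fderiv ℝ h z).smulRight (fderiv ℝ h z)) z :=
    ((hF.differentiable (by norm_num) z).hasFDerivAt.const_mul 2).smul (diff_fderiv hF z)
  rw [D2, h1, h2.fderiv]
  simp
  ring

theorem lap_sq {h : ℂ → ℝ} (hF : ContDiff ℝ 2 h) (z : ℂ) :
    lap (fun z => h z ^ 2) z = 2 * (fderiv ℝ h z 1 ^ 2 + fderiv ℝ h z Complex.I ^ 2) +
      2 * h z * lap h z := by
  rw [lap_eq (hF.pow 2), lap_eq hF, D2_sq hF, D2_sq hF]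
  ring

theorem fderiv_rot {h : ℂ → ℝ} (z e : ℂ) :
    ‖e‖ ^ 2 * (fderiv ℝ h z 1 ^ 2 + fderiv ℝ h z Complex.I ^ 2) =
      fderiv ℝ h z e ^ 2 + fderiv ℝ h z (Complex.I * e) ^ 2 := by
  have h1 : e = e.re • (1 : ℂ) + e.im • Complex.I := by
    apply Complex.ext <;> simp
  have h2 : Complex.I * e = (-e.im) • (1 : ℂ) + e.re • Complex.I := by
    apply Complex.ext <;> simp
  have h3 : ‖e‖ ^ 2 = e.re ^ 2 + e.im ^ 2 := by
    rw [← Complex.normSq_eq_norm_sq, Complex.normSq_apply]; ring
  rw [h2, h3]
  have h4 : fderiv ℝ h z e = fderiv ℝ h z (e.re • (1 : ℂ) + e.im • Complex.I) := by rw [← h1]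
  rw [h4]
  simp only [map_add, map_smul, smul_eq_mul]
  ring

theorem cauchy_schwarz {g : ℝ → ℝ} (hg : Continuous g) {a b : ℝ} (hab : a ≤ b) :
    (∫ t in a..b, g t) ^ 2 ≤ (b - a) * ∫ t in a..b, g t ^ 2 := by
  rcases hab.eq_or_lt with h | h
  · rw [h]; simp
  set G := ∫ t in a..b, g t with hG
  have h1 : 0 ≤ ∫ t in a..b, (g t * (b - a) - G) ^ 2 :=
    intervalIntegral.integral_nonneg hab fun t _ => sq_nonneg _
  have h2 : ∫ t in a..b, (g t * (b - a) - G) ^ 2 =
      (b - a) ^ 2 * (∫ t in a..b, g t ^ 2) - (b - a) * G ^ 2 := by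
    have e : (fun t => (g t * (b - a) - G) ^ 2) =
        fun t => ((b - a) ^ 2 * g t ^ 2 - (2 * (b - a) * G) * g t) + G ^ 2 := by
      funext t; ring
    rw [e, intervalIntegral.integral_add, intervalIntegral.integral_sub,
      intervalIntegral.integral_const_mul, intervalIntegral.integral_const_mul,
      intervalIntegral.integral_const, ← hG, smul_eq_mul]
    · ring
    · exact (continuous_const.mul (hg.pow 2)).intervalIntegrable _ _
    · exact (continuous_const.mul hg).intervalIntegrable _ _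
    · exact ((continuous_const.mul (hg.pow 2)).sub (continuous_const.mul hg)).intervalIntegrable _ _
    · exact intervalIntegrable_const
  rw [h2] at h1
  have h3 : 0 < b - a := by linarith
  nlinarith [mul_pos h3 h3]

/-- the tangential energy controls the square sum if the function vanishes somewhere -/
theorem wirtinger {h : ℂ → ℝ} (hF : ContDiff ℝ 2 h) {s t₀ : ℝ} (ht₀ : t₀ ∈ Icc 0 (2 * π))
    (hz : h (pt s t₀) = 0) :
    mean (fun z => h z ^ 2) 0 s ≤
      4 * π ^ 2 * ∫ t in (0 : ℝ)..(2 * π), fderiv ℝ h (pt s t) (Complex.I * pt s t) ^ 2 := by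
  set g : ℝ → ℝ := fun t => fderiv ℝ h (pt s t) (Complex.I * pt s t) with hg
  have hgc : Continuous g :=
    ((hF.continuous_fderiv (by norm_num)).comp (cont_pt' s)).clm_apply
      (continuous_const.mul (cont_pt' s))
  have hd : ∀ t, HasDerivAt (fun t => h (pt s t)) (g t) t := fun t =>
    (hF.differentiable (by norm_num) _).hasFDerivAt.comp_hasDerivAt t (hasDerivAt_pt_right s t)
  have hub : ∀ t ∈ Icc 0 (2 * π), h (pt s t) ^ 2 ≤ (2 * π) * ∫ t in (0 : ℝ)..(2 * π), g t ^ 2 := by
    intro t ht
    have h1 : h (pt s t) = ∫ τ in t₀..t, g τ := by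
      rw [intervalIntegral.integral_eq_sub_of_hasDerivAt (fun t _ => hd t)
        (hgc.intervalIntegrable _ _), hz, sub_zero]
    have h2 : |h (pt s t)| ≤ ∫ τ in (0 : ℝ)..(2 * π), |g τ| := by
      rw [h1, ← Real.norm_eq_abs]
      refine intervalIntegral.norm_integral_le_integral_norm_uIoc.trans ?_
      rw [intervalIntegral.integral_of_le pi_pos2]
      simp only [Real.norm_eq_abs]
      apply setIntegral_mono_set
      · exact (hgc.abs.continuousOn.integrableOn_compact isCompact_Icc).mono_set Ioc_subset_Icc_self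
      · exact Eventually.of_forall fun τ => abs_nonneg _
      · apply LE.le.eventuallyLE
        intro τ hτ
        rw [mem_uIoc] at hτ
        rcases hτ with hτ | hτ
        · exact ⟨lt_of_le_of_lt ht₀.1 hτ.1, hτ.2.trans ht.2⟩
        · exact ⟨lt_of_le_of_lt ht.1 hτ.1, hτ.2.trans ht₀.2⟩
    have h3 := cauchy_schwarz hgc.abs pi_pos2
    rw [sub_zero] at h3
    simp only [sq_abs] at h3
    calc h (pt s t) ^ 2 = |h (pt s t)| ^ 2 := (sq_abs _).symm
      _ ≤ (∫ τ in (0 : ℝ)..(2 * π), |g τ|) ^ 2 := by gcongr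
      _ ≤ _ := h3
  have h4 : mean (fun z => h z ^ 2) 0 s ≤
      ∫ t in (0 : ℝ)..(2 * π), ((2 * π) * ∫ t in (0 : ℝ)..(2 * π), g t ^ 2) := by
    apply intervalIntegral.integral_mono_on pi_pos2
    · exact ((hF.continuous.comp (continuous_const.add (cont_pt' s))).pow 2).intervalIntegrable _ _
    · exact intervalIntegrable_const
    · intro t ht
      simpa using hub t ht
  rw [intervalIntegral.integral_const, sub_zero, smul_eq_mul] at h4
  calc _ ≤ _ := h4
    _ = _ := by ring


theorem exists_pt {z : ℂ} (hz : z ≠ 0) : ∃ t ∈ Icc 0 (2 * π), pt (Real.log ‖z‖) t = z := by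
  have hr : 0 < ‖z‖ := norm_pos_iff.2 hz
  have h1 : pt (Real.log ‖z‖) z.arg = z := by
    rw [pt, Complex.exp_add, ← Complex.ofReal_exp, Real.exp_log hr, Complex.norm_mul_exp_arg_mul_I]
  rcases le_or_gt 0 z.arg with h | h
  · exact ⟨z.arg, ⟨h, by linarith [Complex.arg_le_pi z, Real.pi_pos]⟩, h1⟩
  · refine ⟨z.arg + 2 * π, ⟨by linarith [Complex.neg_pi_lt_arg z, Real.pi_pos], by linarith⟩, ?_⟩
    rw [pt_periodic]; exact h1

/-- circle sums of a nonnegative subharmonic nonzero function are eventually positive -/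
theorem mean_pos {F : ℂ → ℝ} (hF : ContDiff ℝ 2 F) (hl : ∀ z, 0 ≤ lap F z) (h0 : ∀ z, 0 ≤ F z)
    {z : ℂ} (hz : 0 < F z) {s : ℝ} (hs : Real.log ‖z‖ ≤ s) : 0 < mean F 0 s := by
  by_cases hz0 : z = 0
  · have := le_mean hF hl 0 s
    rw [hz0] at hz
    have hpi := Real.pi_pos
    have : 0 < 2 * π * F 0 := by positivity
    linarith
  · obtain ⟨t, ht, h1⟩ := exists_pt hz0
    refine lt_of_lt_of_le ?_ (mean_mono hF hl 0 hs)
    have hc : Continuous fun t => F (0 + pt (Real.log ‖z‖) t) :=
      hF.continuous.comp (continuous_const.add (cont_pt' _))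
    apply intervalIntegral.integral_pos (by positivity) hc.continuousOn
    · intro t _
      exact h0 _
    · exact ⟨t, ht, by rw [zero_add, h1]; exact hz⟩

/-- A nonnegative subharmonic function which vanishes somewhere on every large circle and whose
circle sums grow at most like log r vanishes identically. -/
theorem eq_zero_of_growth {h : ℂ → ℝ} (hF : ContDiff ℝ 2 h) (hl : ∀ z, 0 ≤ lap h z)
    (h0 : ∀ z, 0 ≤ h z) {s₀ : ℝ} (hz : ∀ s, s₀ ≤ s → ∃ t ∈ Icc 0 (2 * π), h (pt s t) = 0)
    {C : ℝ} (hC : ∀ s, s₀ ≤ s → mean h 0 s ≤ C * s) (z : ℂ) : h z = 0 := by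
  by_contra hne
  have hpos : 0 < h z := lt_of_le_of_ne (h0 z) (Ne.symm hne)
  set F : ℂ → ℝ := fun z => h z ^ 2 with hFdef
  have hF2 : ContDiff ℝ 2 F := hF.pow 2
  have hFl : ∀ z, 0 ≤ lap F z := by
    intro z
    rw [hFdef, lap_sq hF]
    have := mul_nonneg (h0 z) (hl z)
    nlinarith [sq_nonneg (fderiv ℝ h z 1), sq_nonneg (fderiv ℝ h z Complex.I)]
  -- the energies
  set X : ℝ → ℝ := fun s => ∫ t in (0 : ℝ)..(2 * π), fderiv ℝ h (pt s t) (pt s t) ^ 2 with hX
  set Y : ℝ → ℝ := fun s =>
    ∫ t in (0 : ℝ)..(2 * π), fderiv ℝ h (pt s t) (Complex.I * pt s t) ^ 2 with hY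
  have hc1 : ∀ s, Continuous fun t => fderiv ℝ h (pt s t) (pt s t) := fun s =>
    ((hF.continuous_fderiv (by norm_num)).comp (cont_pt' s)).clm_apply (cont_pt' s)
  have hc2 : ∀ s, Continuous fun t => fderiv ℝ h (pt s t) (Complex.I * pt s t) := fun s =>
    ((hF.continuous_fderiv (by norm_num)).comp (cont_pt' s)).clm_apply
      (continuous_const.mul (cont_pt' s))
  have hX0 : ∀ s, 0 ≤ X s := fun s =>
    intervalIntegral.integral_nonneg pi_pos2 fun t _ => sq_nonneg _
  have hY0 : ∀ s, 0 ≤ Y s := fun s =>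
    intervalIntegral.integral_nonneg pi_pos2 fun t _ => sq_nonneg _
  have hJ2 : ∀ s, 2 * (X s + Y s) ≤ mean2 F 0 s := by
    intro s
    have e : 2 * (X s + Y s) = ∫ t in (0 : ℝ)..(2 * π),
        (2 * (fderiv ℝ h (pt s t) (pt s t) ^ 2 +
          fderiv ℝ h (pt s t) (Complex.I * pt s t) ^ 2)) := by
      have e1 : Continuous fun t => fderiv ℝ h (pt s t) (pt s t) ^ 2 := (hc1 s).pow 2
      have e2 : Continuous fun t => fderiv ℝ h (pt s t) (Complex.I * pt s t) ^ 2 := (hc2 s).pow 2
      rw [intervalIntegral.integral_const_mul, intervalIntegral.integral_add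
        (e1.intervalIntegrable _ _) (e2.intervalIntegrable _ _)]
    rw [e]
    apply intervalIntegral.integral_mono_on pi_pos2
    · exact (continuous_const.mul (((hc1 s).pow 2).add ((hc2 s).pow 2))).intervalIntegrable _ _
    · exact (continuous_const.mul ((continuous_lap hF2).comp
        (continuous_const.add (cont_pt' s)))).intervalIntegrable _ _
    · intro t _
      rw [zero_add, ← fderiv_rot, norm_pt, hFdef, lap_sq hF]
      have h7 : Real.exp (2 * s) = Real.exp s ^ 2 := by
        rw [← Real.exp_nat_mul]; norm_num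
      rw [h7]
      have := mul_nonneg (h0 (pt s t)) (hl (pt s t))
      have h8 : 0 < Real.exp s ^ 2 := by positivity
      nlinarith [mul_nonneg h8.le this]
  have hJ : ∀ s, s₀ ≤ s → mean F 0 s ≤ 4 * π ^ 2 * Y s := by
    intro s hs
    obtain ⟨t₀, ht₀, hzt⟩ := hz s hs
    exact wirtinger hF ht₀ hzt
  have hJ1 : ∀ s, s₀ ≤ s → mean1 F 0 s ≤ π * mean2 F 0 s := by
    intro s hs
    have e1 : mean1 F 0 s ≤ (1 / (2 * π)) * mean F 0 s + (2 * π) * X s := by
      have e2 : (1 / (2 * π)) * mean F 0 s + (2 * π) * X s = ∫ t in (0 : ℝ)..(2 * π),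
          ((1 / (2 * π)) * F (0 + pt s t) + (2 * π) * fderiv ℝ h (pt s t) (pt s t) ^ 2) := by
        rw [intervalIntegral.integral_add, intervalIntegral.integral_const_mul,
          intervalIntegral.integral_const_mul, mean]
        · exact (continuous_const.mul (hF2.continuous.comp
            (continuous_const.add (cont_pt' s)))).intervalIntegrable _ _
        · exact (continuous_const.mul ((hc1 s).pow 2)).intervalIntegrable _ _
      rw [e2]
      apply intervalIntegral.integral_mono_on pi_pos2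
      · exact (((hF2.continuous_fderiv (by norm_num)).comp
          (continuous_const.add (cont_pt' s))).clm_apply (cont_pt' s)).intervalIntegrable _ _
      · exact ((continuous_const.mul (hF2.continuous.comp
            (continuous_const.add (cont_pt' s)))).add
            (continuous_const.mul ((hc1 s).pow 2))).intervalIntegrable _ _
      · intro t _
        have e3 : fderiv ℝ F (0 + pt s t) (pt s t) =
            2 * h (pt s t) * fderiv ℝ h (pt s t) (pt s t) := by
          have := ((hF.differentiable (by norm_num) (0 + pt s t)).hasFDerivAt.pow 2).fderiv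
          rw [hFdef, this]
          simp
        rw [e3, zero_add]
        set u := h (pt s t)
        set v := fderiv ℝ h (pt s t) (pt s t)
        have hpi := Real.pi_pos
        have e4 : 0 ≤ (u / (2 * π) - v) ^ 2 * (2 * π) := by positivity
        have e5 : (u / (2 * π) - v) ^ 2 * (2 * π) =
            (1 / (2 * π)) * u ^ 2 + (2 * π) * v ^ 2 - 2 * u * v := by
          field_simp
          ring
        have e6 : F (pt s t) = u ^ 2 := rfl
        rw [e6]
        linarith
    have e7 := hJ s hs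
    have e8 := hJ2 s
    have hpi := Real.pi_pos
    have e9 : (1 / (2 * π)) * mean F 0 s ≤ 2 * π * Y s := by
      rw [div_mul_eq_mul_div, one_mul, div_le_iff₀ (by positivity)]
      nlinarith
    nlinarith
  have hJ2' : ∀ s, s₀ ≤ s → mean F 0 s ≤ 2 * π ^ 2 * mean2 F 0 s := by
    intro s hs
    have e7 := hJ s hs
    have e8 := hJ2 s
    have := hX0 s
    have hpi := Real.pi_pos
    nlinarith [sq_nonneg π, mul_nonneg (sq_nonneg π) this]
  -- lower bounds
  obtain ⟨s₁, hs₁, hJpos⟩ : ∃ s₁, s₀ ≤ s₁ ∧ 0 < mean F 0 s₁ :=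
    ⟨max s₀ (Real.log ‖z‖), le_max_left _ _,
      mean_pos hF2 hFl (fun z => sq_nonneg _) (z := z) (by positivity) (le_max_right _ _)⟩
  have hpi := Real.pi_pos
  have hd0 := hasDerivAt_mean (F := F) (hF2.of_le (by norm_num)) 0
  have hd1 := hasDerivAt_mean1 hF2 0
  set κ := mean F 0 s₁ / (2 * π ^ 2) with hκ
  have hκ0 : 0 < κ := by positivity
  have hm : ∀ s, s₁ ≤ s → κ ≤ mean2 F 0 s := by
    intro s hs
    rw [hκ, div_le_iff₀ (by positivity)]
    have := hJ2' s (hs₁.trans hs)
    have := mean_mono hF2 hFl 0 hs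
    linarith
  have hδ : 0 < mean1 F 0 (s₁ + 1) := by
    have h1 : MonotoneOn (fun s => mean1 F 0 s - κ * s) (Ici s₁) := by
      apply monotoneOn_of_deriv_nonneg (convex_Ici _)
      · exact fun s _ => ((hd1 s).continuousAt.sub
          (continuous_const.mul continuous_id).continuousAt).continuousWithinAt
      · exact fun s _ => ((hd1 s).sub ((hasDerivAt_id s).const_mul κ)).differentiableAt.differentiableWithinAt
      · intro s hs
        rw [interior_Ici] at hs
        have e : deriv (fun s => mean1 F 0 s - κ * s) s = mean2 F 0 s - κ * 1 :=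
          ((hd1 s).sub ((hasDerivAt_id s).const_mul κ)).deriv
        rw [e]
        have := hm s (le_of_lt hs)
        linarith
    have h2 := h1 (mem_Ici.2 le_rfl) (mem_Ici.2 (by linarith : s₁ ≤ s₁ + 1)) (by linarith)
    have h3 := mean1_nonneg hF2 hFl 0 s₁
    simp only at h2
    linarith
  set s₂ := s₁ + 1 with hs₂
  set δ := mean1 F 0 s₂ with hδdef
  have hlow1 : ∀ s, s₂ ≤ s → δ * Real.exp ((s - s₂) / π) ≤ mean1 F 0 s := by
    intro s hs
    have h1 : MonotoneOn (fun s => mean1 F 0 s * Real.exp (-(s - s₂) / π)) (Ici s₂) := by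
      have hd : ∀ s, HasDerivAt (fun s => mean1 F 0 s * Real.exp (-(s - s₂) / π))
          (mean2 F 0 s * Real.exp (-(s - s₂) / π) +
            mean1 F 0 s * (Real.exp (-(s - s₂) / π) * (-1 / π))) s := by
        intro s
        have e1 : HasDerivAt (fun s => -(s - s₂) / π) (-1 / π) s :=
          (((hasDerivAt_id s).sub_const s₂).neg).div_const π
        exact (hd1 s).mul e1.exp
      apply monotoneOn_of_deriv_nonneg (convex_Ici _)
      · exact fun s _ => (hd s).continuousAt.continuousWithinAt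
      · exact fun s _ => (hd s).differentiableAt.differentiableWithinAt
      · intro s hs
        rw [interior_Ici] at hs
        rw [(hd s).deriv]
        have h4 := hJ1 s (by have : s₂ < s := hs; linarith)
        have h5 : 0 < Real.exp (-(s - s₂) / π) := Real.exp_pos _
        have h6 : mean2 F 0 s * Real.exp (-(s - s₂) / π) +
            mean1 F 0 s * (Real.exp (-(s - s₂) / π) * (-1 / π)) =
            Real.exp (-(s - s₂) / π) * ((π * mean2 F 0 s - mean1 F 0 s) / π) := by
          field_simp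
          ring
        rw [h6]
        have : 0 ≤ π * mean2 F 0 s - mean1 F 0 s := by linarith
        positivity
    have h2 := h1 (mem_Ici.2 le_rfl) (mem_Ici.2 hs) hs
    simp only [sub_self, neg_zero, zero_div, Real.exp_zero, mul_one] at h2
    have h3 : Real.exp (-(s - s₂) / π) = (Real.exp ((s - s₂) / π))⁻¹ := by
      rw [neg_div, Real.exp_neg]
    rw [h3, ← div_eq_mul_inv, le_div_iff₀ (Real.exp_pos _)] at h2
    exact h2
  have hlow : ∀ s, s₂ ≤ s → δ * π * (Real.exp ((s - s₂) / π) - 1) ≤ mean F 0 s := by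
    intro s hs
    have hd : ∀ s, HasDerivAt (fun s => mean F 0 s - δ * π * Real.exp ((s - s₂) / π))
        (mean1 F 0 s - δ * Real.exp ((s - s₂) / π)) s := by
      intro s
      have e1 : HasDerivAt (fun s => (s - s₂) / π) (1 / π) s :=
        ((hasDerivAt_id s).sub_const s₂).div_const π
      have e2 := (hd0 s).sub (e1.exp.const_mul (δ * π))
      have e3 : mean1 F 0 s - δ * Real.exp ((s - s₂) / π) =
          mean1 F 0 s - δ * π * (Real.exp ((s - s₂) / π) * (1 / π)) := by
        field_simp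
      rw [e3]
      exact e2
    have h1 : MonotoneOn (fun s => mean F 0 s - δ * π * Real.exp ((s - s₂) / π)) (Ici s₂) := by
      apply monotoneOn_of_deriv_nonneg (convex_Ici _)
      · exact fun s _ => (hd s).continuousAt.continuousWithinAt
      · exact fun s _ => (hd s).differentiableAt.differentiableWithinAt
      · intro s hs
        rw [interior_Ici] at hs
        rw [(hd s).deriv]
        have := hlow1 s (le_of_lt hs)
        linarith
    have h2 := h1 (mem_Ici.2 le_rfl) (mem_Ici.2 hs) hs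
    simp only [sub_self, zero_div, Real.exp_zero, mul_one] at h2
    have h3 : 0 ≤ mean F 0 s₂ := by
      have := mean_mono hF2 hFl 0 (show s₁ ≤ s₂ by linarith)
      linarith
    linarith
  -- upper bound
  have hup : ∀ s, s₀ ≤ s → mean F 0 s ≤ 2 * π * (C * (s + Real.log 2)) ^ 2 := by
    intro s hs
    have hlog2 : 0 < Real.log 2 := Real.log_pos (by norm_num)
    have h1 : ∀ t, h (pt s t) ≤ C * (s + Real.log 2) := by
      intro t
      have hne : pt s t ≠ 0 := by
        rw [← norm_pos_iff, norm_pt]; exact Real.exp_pos _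
      have h2 := sup_bound hF hl h0 hne
      rw [norm_pt, Real.log_mul (by norm_num) (Real.exp_ne_zero _), Real.log_exp, add_comm] at h2
      exact h2.trans (hC _ (by linarith))
    have h2 : mean F 0 s ≤ ∫ t in (0 : ℝ)..(2 * π), (C * (s + Real.log 2)) ^ 2 := by
      apply intervalIntegral.integral_mono_on pi_pos2
      · exact (hF2.continuous.comp (continuous_const.add (cont_pt' s))).intervalIntegrable _ _
      · exact intervalIntegrable_const
      · intro t _
        rw [zero_add]
        exact pow_le_pow_left₀ (h0 _) (h1 t) 2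
    rw [intervalIntegral.integral_const, sub_zero, smul_eq_mul] at h2
    exact h2
  -- contradiction
  set b := s₂ + Real.log 2 with hb
  set K := 2 * C ^ 2 * (π + |b|) ^ 2 with hK
  have hK0 : 0 ≤ K := by positivity
  set x := 6 * (K / δ) + 7 with hx
  have hx1 : 1 ≤ x := by
    have : 0 ≤ K / δ := by positivity
    linarith
  have h1 := hlow (π * x + s₂) (by nlinarith)
  have h2 := hup (π * x + s₂) (by nlinarith)
  have h3 : (π * x + s₂ - s₂) / π = x := by field_simp; ring
  rw [h3] at h1
  have h4 : x ^ 3 / 6 ≤ Real.exp x := by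
    have := Real.pow_div_factorial_le_exp x (by linarith) 3
    norm_num [Nat.factorial] at this
    exact this
  have h5 : (C * (π * x + s₂ + Real.log 2)) ^ 2 ≤ C ^ 2 * ((π + |b|) * x) ^ 2 := by
    rw [mul_pow]
    apply mul_le_mul_of_nonneg_left _ (sq_nonneg _)
    apply sq_le_sq'
    · have := neg_abs_le b
      have := abs_nonneg b
      nlinarith
    · have := le_abs_self b
      have := abs_nonneg b
      nlinarith
  have h6 : δ * π * (x ^ 3 / 6 - 1) ≤ π * (K * x ^ 2) := by
    calc δ * π * (x ^ 3 / 6 - 1) ≤ δ * π * (Real.exp x - 1) := by gcongr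
      _ ≤ _ := h1
      _ ≤ _ := h2
      _ ≤ 2 * π * (C ^ 2 * ((π + |b|) * x) ^ 2) := by gcongr
      _ = _ := by rw [hK]; ring
  have h7 : δ * (x ^ 3 / 6 - 1) ≤ K * x ^ 2 := by
    have : π * (δ * (x ^ 3 / 6 - 1)) ≤ π * (K * x ^ 2) := by linarith
    exact le_of_mul_le_mul_left this hpi
  have h8 : δ * x = 6 * K + 7 * δ := by
    rw [hx]; field_simp
  have h9 : δ * (x ^ 3 / 6 - 1) = x ^ 2 * (δ * x) / 6 - δ := by ring
  rw [h9, h8] at h7
  nlinarith [mul_pos hδ (show (0 : ℝ) < x ^ 2 by positivity), mul_le_mul_of_nonneg_left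
    (show (1 : ℝ) ≤ x ^ 2 by nlinarith) hδ.le]

end Pool.Agent.Work.MP_089002_mp
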