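import Pool.Agent.Work.MP_089002_mp.Defs
import Pool.Agent.Work.MP_089002_mp.TwoPhase
import Pool.Agent.Work.MP_089002_mp.Ode

set_option autoImplicit false

open MeasureTheory Filter Topology Set Bornology
open scoped ContDiff Real

namespace Pool.Agent.Work.MP_089002_mp

section calculus

theorem cd1 {f : ℂ → ℝ} {n m : ℕ∞ω} (hf : ContDiff ℝ n f) (h : m + 1 ≤ n) :
    ContDiff ℝ m (d1 f) := (hf.fderiv_right h).clm_apply contDiff_const

theorem cd2 {f : ℂ → ℝ} {n m : ℕ∞ω} (hf : ContDiff ℝ n f) (h : m + 1 ≤ n) :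
    ContDiff ℝ m (d2 f) := (hf.fderiv_right h).clm_apply contDiff_const

theorem d1_add' {f g : ℂ → ℝ} {z : ℂ} (hf : DifferentiableAt ℝ f z)
    (hg : DifferentiableAt ℝ g z) : d1 (fun z => f z + g z) z = d1 f z + d1 g z := by
  have e : fderiv ℝ (fun z => f z + g z) z = _ := (hf.hasFDerivAt.add hg.hasFDerivAt).fderiv
  unfold d1
  rw [e]
  simp

theorem d2_add' {f g : ℂ → ℝ} {z : ℂ} (hf : DifferentiableAt ℝ f z)
    (hg : DifferentiableAt ℝ g z) : d2 (fun z => f z + g z) z = d2 f z + d2 g z := by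
  have e : fderiv ℝ (fun z => f z + g z) z = _ := (hf.hasFDerivAt.add hg.hasFDerivAt).fderiv
  unfold d2
  rw [e]
  simp

theorem d1_sub'' {f g : ℂ → ℝ} {z : ℂ} (hf : DifferentiableAt ℝ f z)
    (hg : DifferentiableAt ℝ g z) : d1 (fun z => f z - g z) z = d1 f z - d1 g z := by
  have e : fderiv ℝ (fun z => f z - g z) z = _ := (hf.hasFDerivAt.sub hg.hasFDerivAt).fderiv
  unfold d1
  rw [e]
  simp

theorem d2_sub'' {f g : ℂ → ℝ} {z : ℂ} (hf : DifferentiableAt ℝ f z)
    (hg : DifferentiableAt ℝ g z) : d2 (fun z => f z - g z) z = d2 f z - d2 g z := by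
  have e : fderiv ℝ (fun z => f z - g z) z = _ := (hf.hasFDerivAt.sub hg.hasFDerivAt).fderiv
  unfold d2
  rw [e]
  simp

theorem d1_mul' {f g : ℂ → ℝ} {z : ℂ} (hf : DifferentiableAt ℝ f z)
    (hg : DifferentiableAt ℝ g z) :
    d1 (fun z => f z * g z) z = d1 f z * g z + f z * d1 g z := by
  have e : fderiv ℝ (fun z => f z * g z) z = _ := (hf.hasFDerivAt.mul hg.hasFDerivAt).fderiv
  unfold d1
  rw [e]
  simp
  ring

theorem d2_mul' {f g : ℂ → ℝ} {z : ℂ} (hf : DifferentiableAt ℝ f z)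
    (hg : DifferentiableAt ℝ g z) :
    d2 (fun z => f z * g z) z = d2 f z * g z + f z * d2 g z := by
  have e : fderiv ℝ (fun z => f z * g z) z = _ := (hf.hasFDerivAt.mul hg.hasFDerivAt).fderiv
  unfold d2
  rw [e]
  simp
  ring

theorem d1_ms {f g h k : ℂ → ℝ} {z : ℂ} (hf : DifferentiableAt ℝ f z)
    (hg : DifferentiableAt ℝ g z) (hh : DifferentiableAt ℝ h z) (hk : DifferentiableAt ℝ k z) :
    d1 (fun z => f z * g z - h z * k z) z =
      (d1 f z * g z + f z * d1 g z) - (d1 h z * k z + h z * d1 k z) := by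
  rw [d1_sub'' (f := fun z => f z * g z) (g := fun z => h z * k z) (hf.mul hg) (hh.mul hk),
    d1_mul' hf hg, d1_mul' hh hk]

theorem d2_ms {f g h k : ℂ → ℝ} {z : ℂ} (hf : DifferentiableAt ℝ f z)
    (hg : DifferentiableAt ℝ g z) (hh : DifferentiableAt ℝ h z) (hk : DifferentiableAt ℝ k z) :
    d2 (fun z => f z * g z - h z * k z) z =
      (d2 f z * g z + f z * d2 g z) - (d2 h z * k z + h z * d2 k z) := by
  rw [d2_sub'' (f := fun z => f z * g z) (g := fun z => h z * k z) (hf.mul hg) (hh.mul hk),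
    d2_mul' hf hg, d2_mul' hh hk]

theorem d1_ma {f g h k : ℂ → ℝ} {z : ℂ} (hf : DifferentiableAt ℝ f z)
    (hg : DifferentiableAt ℝ g z) (hh : DifferentiableAt ℝ h z) (hk : DifferentiableAt ℝ k z) :
    d1 (fun z => f z * g z + h z * k z) z =
      (d1 f z * g z + f z * d1 g z) + (d1 h z * k z + h z * d1 k z) := by
  rw [d1_add' (f := fun z => f z * g z) (g := fun z => h z * k z) (hf.mul hg) (hh.mul hk),
    d1_mul' hf hg, d1_mul' hh hk]

theorem d2_ma {f g h k : ℂ → ℝ} {z : ℂ} (hf : DifferentiableAt ℝ f z)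
    (hg : DifferentiableAt ℝ g z) (hh : DifferentiableAt ℝ h z) (hk : DifferentiableAt ℝ k z) :
    d2 (fun z => f z * g z + h z * k z) z =
      (d2 f z * g z + f z * d2 g z) + (d2 h z * k z + h z * d2 k z) := by
  rw [d2_add' (f := fun z => f z * g z) (g := fun z => h z * k z) (hf.mul hg) (hh.mul hk),
    d2_mul' hf hg, d2_mul' hh hk]

theorem d12 {f : ℂ → ℝ} (hf : ContDiff ℝ 2 f) (z : ℂ) : d1 (d2 f) z = d2 (d1 f) z := by
  have h := diff_fderiv hf z
  have e1 : fderiv ℝ (fun z => fderiv ℝ f z Complex.I) z = (D2 f z).flip Complex.I := by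
    have := h.clm_apply (hasFDerivAt_const Complex.I z)
    rw [this.fderiv]
    ext
    simp
  have e2 : fderiv ℝ (fun z => fderiv ℝ f z 1) z = (D2 f z).flip 1 := by
    have := h.clm_apply (hasFDerivAt_const (1 : ℂ) z)
    rw [this.fderiv]
    ext
    simp
  unfold d1 d2
  rw [e1, e2]
  simp only [ContinuousLinearMap.flip_apply]
  exact D2_symm hf z 1 Complex.I

theorem lap_def' (f : ℂ → ℝ) (z : ℂ) : lap f z = d1 (d1 f) z + d2 (d2 f) z := rfl

end calculus

/-- Bochner type inequality for `|G|^2`, `G = u + i v`, `∂_1 G + i ∂_2 G = κ G` -/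
theorem lap_sq_ge {u v k1 k2 : ℂ → ℝ} (hu : ContDiff ℝ 2 u) (hv : ContDiff ℝ 2 v)
    (hk1 : ContDiff ℝ 1 k1) (hk2 : ContDiff ℝ 1 k2)
    (h1 : ∀ z, d1 u z - d2 v z = k1 z * u z - k2 z * v z)
    (h2 : ∀ z, d1 v z + d2 u z = k1 z * v z + k2 z * u z) (z : ℂ) :
    2 * (d1 k1 z + d2 k2 z) * (u z ^ 2 + v z ^ 2) ≤ lap (fun z => u z ^ 2 + v z ^ 2) z := by
  have du : Differentiable ℝ u := hu.differentiable (by norm_num)
  have dv : Differentiable ℝ v := hv.differentiable (by norm_num)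
  have dk1 : Differentiable ℝ k1 := hk1.differentiable (by norm_num)
  have dk2 : Differentiable ℝ k2 := hk2.differentiable (by norm_num)
  have du1 : Differentiable ℝ (d1 u) := (cd1 hu (m := 1) (by norm_num)).differentiable (by norm_num)
  have du2 : Differentiable ℝ (d2 u) := (cd2 hu (m := 1) (by norm_num)).differentiable (by norm_num)
  have dv1 : Differentiable ℝ (d1 v) := (cd1 hv (m := 1) (by norm_num)).differentiable (by norm_num)
  have dv2 : Differentiable ℝ (d2 v) := (cd2 hv (m := 1) (by norm_num)).differentiable (by norm_num)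
  -- differentiate the equations
  have f1 : (fun z => d1 u z - d2 v z) = fun z => k1 z * u z - k2 z * v z := funext h1
  have f2 : (fun z => d1 v z + d2 u z) = fun z => k1 z * v z + k2 z * u z := funext h2
  have a1 := congrArg (fun f => d1 f z) f1
  have a2 := congrArg (fun f => d2 f z) f1
  have b1 := congrArg (fun f => d1 f z) f2
  have b2 := congrArg (fun f => d2 f z) f2
  beta_reduce at a1 a2 b1 b2
  rw [d1_sub'' (du1 z) (dv2 z), d1_ms (dk1 z) (du z) (dk2 z) (dv z)] at a1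
  rw [d2_sub'' (du1 z) (dv2 z), d2_ms (dk1 z) (du z) (dk2 z) (dv z)] at a2
  rw [d1_add' (dv1 z) (du2 z), d1_ma (dk1 z) (dv z) (dk2 z) (du z)] at b1
  rw [d2_add' (dv1 z) (du2 z), d2_ma (dk1 z) (dv z) (dk2 z) (du z)] at b2
  have cu := d12 hu z
  have cv := d12 hv z
  -- Laplacian of the sum of squares
  have e1 : d1 (fun z => u z ^ 2 + v z ^ 2) = fun z => 2 * (u z * d1 u z + v z * d1 v z) := by
    funext z
    have : (fun z => u z ^ 2 + v z ^ 2) = fun z => u z * u z + v z * v z := by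
      funext z; ring
    rw [this, d1_ma (du z) (du z) (dv z) (dv z)]
    ring
  have e2 : d2 (fun z => u z ^ 2 + v z ^ 2) = fun z => 2 * (u z * d2 u z + v z * d2 v z) := by
    funext z
    have : (fun z => u z ^ 2 + v z ^ 2) = fun z => u z * u z + v z * v z := by
      funext z; ring
    rw [this, d2_ma (du z) (du z) (dv z) (dv z)]
    ring
  have hl : lap (fun z => u z ^ 2 + v z ^ 2) z =
      2 * (d1 u z ^ 2 + d2 u z ^ 2 + d1 v z ^ 2 + d2 v z ^ 2) +
      2 * (u z * (d1 (d1 u) z + d2 (d2 u) z) + v z * (d1 (d1 v) z + d2 (d2 v) z)) := by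
    rw [lap_def', e1, e2]
    have g1 : d1 (fun z => 2 * (u z * d1 u z + v z * d1 v z)) z =
        2 * (d1 u z * d1 u z + u z * d1 (d1 u) z + (d1 v z * d1 v z + v z * d1 (d1 v) z)) := by
      have c : Differentiable ℝ (fun _ : ℂ => (2 : ℝ)) := differentiable_const _
      rw [d1_mul' (g := fun z => u z * d1 u z + v z * d1 v z) (c z)
        (((du z).mul (du1 z)).add ((dv z).mul (dv1 z))), d1_ma (du z) (du1 z) (dv z) (dv1 z)]
      have : d1 (fun _ : ℂ => (2 : ℝ)) z = 0 := by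
        unfold d1
        rw [fderiv_const_apply]
        rfl
      rw [this]
      ring
    have g2 : d2 (fun z => 2 * (u z * d2 u z + v z * d2 v z)) z =
        2 * (d2 u z * d2 u z + u z * d2 (d2 u) z + (d2 v z * d2 v z + v z * d2 (d2 v) z)) := by
      have c : Differentiable ℝ (fun _ : ℂ => (2 : ℝ)) := differentiable_const _
      rw [d2_mul' (g := fun z => u z * d2 u z + v z * d2 v z) (c z)
        (((du z).mul (du2 z)).add ((dv z).mul (dv2 z))), d2_ma (du z) (du2 z) (dv z) (dv2 z)]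
      have : d2 (fun _ : ℂ => (2 : ℝ)) z = 0 := by
        unfold d2
        rw [fderiv_const_apply]
        rfl
      rw [this]
      ring
    rw [g1, g2]
    ring
  rw [hl]
  have q1 := h1 z
  have q2 := h2 z
  have hfin : 2 * (d1 u z ^ 2 + d2 u z ^ 2 + d1 v z ^ 2 + d2 v z ^ 2) +
      2 * (u z * (d1 (d1 u) z + d2 (d2 u) z) + v z * (d1 (d1 v) z + d2 (d2 v) z)) =
      2 * (d1 k1 z + d2 k2 z) * (u z ^ 2 + v z ^ 2) +
      ((d1 u z + d2 v z + k1 z * u z + k2 z * v z) ^ 2 +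
        (d1 v z - d2 u z + k1 z * v z - k2 z * u z) ^ 2) := by
    linear_combination (2 * u z) * a1 + (2 * u z) * b2 - (2 * v z) * a2 + (2 * v z) * b1 +
      (2 * u z) * cv - (2 * v z) * cu +
      (-(d1 u z - d2 v z) - (k1 z * u z - k2 z * v z)) * q1 * (-1) +
      (-(d1 v z + d2 u z) - (k1 z * v z + k2 z * u z)) * q2 * (-1)
  rw [hfin]
  have := sq_nonneg (d1 u z + d2 v z + k1 z * u z + k2 z * v z)
  have := sq_nonneg (d1 v z - d2 u z + k1 z * v z - k2 z * u z)
  linarith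

/-- At most `N - 2` points over the north pole: with `G = u + i v`, `∂_1 G + i ∂_2 G = κ G`,
`Q1` a polynomial of degree at least `deg P - 1`, the relation `F = 2 |Q1 G|^2/(|P|^2 + |Q1 G|^2)`
between `F = ∂_1 κ_1 + ∂_2 κ_2` and `G` forces `G = 0` when `|Q1 G| ≤ |P|` near infinity. -/
theorem count_false {u v k1 k2 : ℂ → ℝ} (hu : ContDiff ℝ 2 u) (hv : ContDiff ℝ 2 v)
    (hk1 : ContDiff ℝ 1 k1) (hk2 : ContDiff ℝ 1 k2)
    (h1 : ∀ z, d1 u z - d2 v z = k1 z * u z - k2 z * v z)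
    (h2 : ∀ z, d1 v z + d2 u z = k1 z * v z + k2 z * u z)
    {P Q1 : Polynomial ℂ} (hP : P ≠ 0) (hQ1 : Q1 ≠ 0) (hdeg : P.natDegree ≤ Q1.natDegree + 1)
    (hF : ∀ z, (d1 k1 z + d2 k2 z) * (‖P.eval z‖ ^ 2 + ‖Q1.eval z‖ ^ 2 * (u z ^ 2 + v z ^ 2)) =
      2 * (‖Q1.eval z‖ ^ 2 * (u z ^ 2 + v z ^ 2)))
    (hF0 : ∀ z, 0 ≤ d1 k1 z + d2 k2 z)
    (hle : ∀ᶠ z in cobounded ℂ, ‖Q1.eval z‖ ^ 2 * (u z ^ 2 + v z ^ 2) ≤ ‖P.eval z‖ ^ 2)
    (hne : ∃ z, u z ^ 2 + v z ^ 2 ≠ 0) : False := by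
  obtain ⟨z0, hz0⟩ := hne
  set X : ℂ → ℝ := fun z => u z ^ 2 + v z ^ 2 with hX
  have hXc : ContDiff ℝ 2 X := (hu.pow 2).add (hv.pow 2)
  have hX0 : ∀ z, 0 ≤ X z := fun z => by positivity
  have hlapF : ∀ z, 2 * (d1 k1 z + d2 k2 z) * X z ≤ lap X z :=
    fun z => lap_sq_ge hu hv hk1 hk2 h1 h2 z
  have hlap0 : ∀ z, 0 ≤ lap X z := fun z =>
    le_trans (mul_nonneg (mul_nonneg (by norm_num) (hF0 z)) (hX0 z)) (hlapF z)
  -- comparison of the polynomials
  have hbig : P.eval =O[cobounded ℂ] (Polynomial.X * Q1).eval := by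
    apply Polynomial.isBigO_cobounded_of_degree_le
    rw [Polynomial.degree_eq_natDegree hP,
      Polynomial.degree_eq_natDegree (mul_ne_zero Polynomial.X_ne_zero hQ1),
      Polynomial.natDegree_X_mul hQ1]
    exact_mod_cast hdeg
  obtain ⟨C, hC0, hC⟩ := hbig.exists_pos
  have hCb := hC.bound
  have hPne : ∀ᶠ z in cobounded ℂ, P.eval z ≠ 0 := by
    have : {z : ℂ | P.eval z = 0}.Finite := by
      have := P.roots.toFinset.finite_toSet
      refine this.subset fun z hz => ?_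
      simp only [Finset.mem_coe, Multiset.mem_toFinset]
      exact (Polynomial.mem_roots hP).mpr hz
    have h3 := this.isBounded
    rw [isBounded_def] at h3
    exact h3
  have hnz : ∀ᶠ z : ℂ in cobounded ℂ, 1 ≤ ‖z‖ := by
    have := tendsto_norm_cobounded_atTop (E := ℂ)
    exact this.eventually_ge_atTop 1
  have hall := hle.and (hCb.and (hPne.and hnz))
  rw [← comap_norm_atTop, eventually_comap] at hall
  obtain ⟨R, hR⟩ := eventually_atTop.1 hall
  -- pointwise lower bound of the Laplacian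
  have hlow : ∀ z, R ≤ ‖z‖ → 2 / C ^ 2 * X z ^ 2 ≤ ‖z‖ ^ 2 * lap X z := by
    intro z hz
    obtain ⟨a1, a2, a3, a4⟩ := hR _ hz z rfl
    have hPpos : 0 < ‖P.eval z‖ := norm_pos_iff.mpr a3
    rw [Polynomial.eval_mul, Polynomial.eval_X, norm_mul] at a2
    set p := ‖P.eval z‖ with hp
    set q := ‖Q1.eval z‖ with hq
    have hq0 : 0 ≤ q := norm_nonneg _
    have hn0 : 0 ≤ ‖z‖ := norm_nonneg z
    set F := d1 k1 z + d2 k2 z with hFd
    have hFz := hF z
    change F * (p ^ 2 + q ^ 2 * X z) = 2 * (q ^ 2 * X z) at hFz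
    change q ^ 2 * X z ≤ p ^ 2 at a1
    have hF0' := hF0 z
    -- F ≥ q² X / p²
    have b1 : q ^ 2 * X z ≤ F * p ^ 2 := by
      have : F * (q ^ 2 * X z) ≤ F * p ^ 2 := by gcongr
      linarith
    have b2 : p ^ 2 ≤ C ^ 2 * (‖z‖ ^ 2 * q ^ 2) := by
      calc p ^ 2 ≤ (C * (‖z‖ * q)) ^ 2 := by gcongr
        _ = _ := by ring
    -- q² X ≤ F p² ≤ F C² |z|² q²
    have b3 : X z ≤ F * C ^ 2 * ‖z‖ ^ 2 := by
      have hq1 : 0 < q := by
        rcases hq0.eq_or_lt with h | h
        · rw [← h] at b2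
          have : 0 < p ^ 2 := by positivity
          simp at b2
          nlinarith
        · exact h
      have : q ^ 2 * X z ≤ q ^ 2 * (F * C ^ 2 * ‖z‖ ^ 2) := by
        calc q ^ 2 * X z ≤ F * p ^ 2 := b1
          _ ≤ F * (C ^ 2 * (‖z‖ ^ 2 * q ^ 2)) := by gcongr
          _ = _ := by ring
      exact le_of_mul_le_mul_left this (by positivity)
    have b4 := hlapF z
    have b5 : 2 * X z * X z ≤ C ^ 2 * (‖z‖ ^ 2 * lap X z) := by
      calc 2 * X z * X z ≤ 2 * (F * C ^ 2 * ‖z‖ ^ 2) * X z := by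
            have := hX0 z
            gcongr
        _ = C ^ 2 * ‖z‖ ^ 2 * (2 * F * X z) := by ring
        _ ≤ C ^ 2 * ‖z‖ ^ 2 * lap X z := by gcongr
        _ = _ := by ring
    rw [div_mul_eq_mul_div, div_le_iff₀ (by positivity)]
    linarith
  -- circle means about z0
  have hXz0 : 0 < X z0 := lt_of_le_of_ne (hX0 z0) (Ne.symm hz0)
  set T := Real.log (|R| + ‖z0‖ + 1) with hT
  refine blowup_auto (n := mean X z0) (n1 := mean1 X z0) (n2 := mean2 X z0) (T := T)
    (c := 1 / (4 * π * C ^ 2)) (m0 := 2 * π * X z0) (by positivity) (by positivity) ?_ ?_ ?_ ?_ ?_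
  · intro t _
    exact hasDerivAt_mean (hXc.of_le (by norm_num)) z0 t
  · intro t _
    exact hasDerivAt_mean1 hXc z0 t
  · intro t _
    exact le_mean hXc hlap0 z0 t
  · intro t _
    exact mean1_nonneg hXc hlap0 z0 t
  · intro t ht
    have het : |R| + ‖z0‖ + 1 ≤ Real.exp t := by
      rw [← Real.log_le_iff_le_exp (by positivity)]
      exact ht
    have hcirc : Continuous fun θ => X (z0 + pt t θ) :=
      hXc.continuous.comp (continuous_const.add (cont_pt' t))
    have hCS := cauchy_schwarz hcirc (a := 0) (b := 2 * π) pi_pos2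
    rw [sub_zero] at hCS
    have hpt : ∀ θ, 1 / (2 * C ^ 2) * X (z0 + pt t θ) ^ 2 ≤
        Real.exp (2 * t) * lap X (z0 + pt t θ) := by
      intro θ
      have hn : ‖pt t θ‖ = Real.exp t := norm_pt t θ
      have hge : R ≤ ‖z0 + pt t θ‖ := by
        have h3 := norm_sub_norm_le (pt t θ) (-z0)
        rw [sub_neg_eq_add, norm_neg, hn, add_comm (pt _ _)] at h3
        have := le_abs_self R
        linarith
      have hle2 : ‖z0 + pt t θ‖ ≤ 2 * Real.exp t := by
        refine (norm_add_le _ _).trans ?_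
        rw [hn]
        have := abs_nonneg R
        linarith
      have h3 := hlow _ hge
      have h4 : ‖z0 + pt t θ‖ ^ 2 ≤ 4 * Real.exp (2 * t) := by
        calc ‖z0 + pt t θ‖ ^ 2 ≤ (2 * Real.exp t) ^ 2 := by gcongr
          _ = 4 * Real.exp (2 * t) := by
              rw [mul_pow, ← Real.exp_nat_mul]
              norm_num
      have h5 := hlap0 (z0 + pt t θ)
      have h6 : ‖z0 + pt t θ‖ ^ 2 * lap X (z0 + pt t θ) ≤
          4 * Real.exp (2 * t) * lap X (z0 + pt t θ) := by gcongr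
      have h7 : 1 / (2 * C ^ 2) * X (z0 + pt t θ) ^ 2 =
          1 / 4 * (2 / C ^ 2 * X (z0 + pt t θ) ^ 2) := by
        field_simp
        ring
      rw [h7]
      linarith
    have hint : 1 / (2 * C ^ 2) * ∫ θ in (0 : ℝ)..2 * π, X (z0 + pt t θ) ^ 2 ≤
        mean2 X z0 t := by
      unfold mean2
      rw [← intervalIntegral.integral_const_mul]
      apply intervalIntegral.integral_mono_on pi_pos2
      · exact ((hcirc.pow 2).const_mul _).intervalIntegrable _ _
      · apply Continuous.intervalIntegrable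
        apply Continuous.mul continuous_const
        exact (continuous_lap hXc).comp (continuous_const.add (cont_pt' t))
      · intro θ _
        exact hpt θ
    refine le_trans ?_ hint
    have hm : mean X z0 t = ∫ θ in (0 : ℝ)..2 * π, X (z0 + pt t θ) := rfl
    rw [hm]
    have hpi := Real.pi_pos
    calc 1 / (4 * π * C ^ 2) * (∫ θ in (0 : ℝ)..2 * π, X (z0 + pt t θ)) ^ 2
        ≤ 1 / (4 * π * C ^ 2) * (2 * π * ∫ θ in (0 : ℝ)..2 * π, X (z0 + pt t θ) ^ 2) := by
          gcongr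
      _ = 1 / (2 * C ^ 2) * ∫ θ in (0 : ℝ)..2 * π, X (z0 + pt t θ) ^ 2 := by
          field_simp
          norm_num

end Pool.Agent.Work.MP_089002_mp
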