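import Pool.Agent.Work.MP_089002_mp.Count

set_option autoImplicit false

open MeasureTheory Filter Topology Set Bornology
open scoped ContDiff Real

namespace Pool.Agent.Work.MP_089002_mp

theorem two_le_inf : (2 : ℕ∞ω) ≤ ∞ := by
  simpa using WithTop.coe_le_coe.mpr (le_top : ((2 : ℕ) : ℕ∞) ≤ ⊤)

theorem north_dot (v : Fin 3 → ℝ) : dotProduct north v = v 2 := by
  simp [north, dotProduct, Fin.sum_univ_three]

theorem planar_normSq {v : Fin 3 → ℝ} (hv : dotProduct v v = 1) :
    ‖planar v‖ ^ 2 = (1 - v 2) * (1 + v 2) := by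
  have h1 : ‖planar v‖ ^ 2 = v 0 ^ 2 + v 1 ^ 2 := by
    rw [← Complex.normSq_eq_norm_sq, Complex.normSq_apply]
    simp [planar]
    ring
  have h2 : v 0 * v 0 + v 1 * v 1 + v 2 * v 2 = 1 := by
    simpa [dotProduct, Fin.sum_univ_three] using hv
  rw [h1]
  linarith

theorem eq_south_iff {v : Fin 3 → ℝ} (hv : dotProduct v v = 1) :
    v = south ↔ 1 + v 2 = 0 := by
  have h2 : v 0 * v 0 + v 1 * v 1 + v 2 * v 2 = 1 := by
    simpa [dotProduct, Fin.sum_univ_three] using hv
  constructor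
  · rintro rfl
    simp [south]
  · intro h
    have h3 : v 2 = -1 := by linarith
    rw [h3] at h2
    have h0 : v 0 = 0 := by nlinarith [sq_nonneg (v 0), sq_nonneg (v 1)]
    have h1 : v 1 = 0 := by nlinarith [sq_nonneg (v 0), sq_nonneg (v 1)]
    ext i
    fin_cases i <;> simp [south, h0, h1, h3]

/-- no polynomial `Q1` of degree at least `deg P - 1` divides the numerator -/
theorem count_config {c : Config} {N : ℕ} (hc : c.IsSolution N) {G : ℂ → ℂ}
    (hG : ContDiff ℝ ∞ G)
    (hGd : ∀ z, fderiv ℝ G z 1 + Complex.I * fderiv ℝ G z Complex.I =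
      ((c.A₂ z : ℂ) - Complex.I * c.A₁ z) * G z)
    {P Q1 : Polynomial ℂ} (hP : P ≠ 0) (hQ1 : Q1 ≠ 0) (hdeg : P.natDegree ≤ Q1.natDegree + 1)
    (hrel : ∀ z, planar (c.φ z) * P.eval z = ((1 + c.φ z 2 : ℝ) : ℂ) * (Q1.eval z * G z))
    (hne : ∃ z, G z ≠ 0) : False := by
  set u : ℂ → ℝ := fun z => (G z).re with hu
  set v : ℂ → ℝ := fun z => (G z).im with hv
  have hGn : ∀ z, u z ^ 2 + v z ^ 2 = ‖G z‖ ^ 2 := by
    intro z
    rw [← Complex.normSq_eq_norm_sq, Complex.normSq_apply]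
    simp only [hu, hv]
    ring
  have hGdiff : Differentiable ℝ G := hG.differentiable (by simp)
  have huc : ContDiff ℝ ∞ u := Complex.reCLM.contDiff.comp hG
  have hvc : ContDiff ℝ ∞ v := Complex.imCLM.contDiff.comp hG
  have hud : ∀ z w, fderiv ℝ u z w = (fderiv ℝ G z w).re := by
    intro z w
    have e : fderiv ℝ u z = _ := (Complex.reCLM.hasFDerivAt.comp z (hGdiff z).hasFDerivAt).fderiv
    rw [e]
    rfl
  have hvd : ∀ z w, fderiv ℝ v z w = (fderiv ℝ G z w).im := by
    intro z w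
    have e : fderiv ℝ v z = _ := (Complex.imCLM.hasFDerivAt.comp z (hGdiff z).hasFDerivAt).fderiv
    rw [e]
    rfl
  have hφc : Continuous c.φ := hc.smooth_φ.continuous
  have hφ2 : Continuous fun z => c.φ z 2 := (continuous_apply 2).comp hφc
  have hF12 : ∀ z, d1 c.A₂ z + d2 (fun z => -c.A₁ z) z = 1 - c.φ z 2 := by
    intro z
    have h1 := hc.sd2 z
    rw [north_dot] at h1
    have h2 : d2 (fun z => -c.A₁ z) z = -d2 c.A₁ z := by
      unfold d2
      have : fderiv ℝ (fun z => -c.A₁ z) z = -fderiv ℝ c.A₁ z :=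
        ((hc.smooth_A₁.differentiable (by simp)) z).hasFDerivAt.neg.fderiv
      rw [this]
      rfl
    rw [h2]
    unfold Config.F₁₂ at h1
    linarith
  -- the algebraic relation, first off the poles, then everywhere
  obtain ⟨S, m, hS, -, -⟩ := hc.degree
  have hrel2 : ∀ z, (1 - c.φ z 2) * ‖P.eval z‖ ^ 2 =
      (1 + c.φ z 2) * (‖Q1.eval z‖ ^ 2 * ‖G z‖ ^ 2) := by
    have hdense : Dense ((S : Set ℂ)ᶜ) := by
      exact S.finite_toSet.countable.dense_compl ℝ
    have hcont1 : Continuous fun z => (1 - c.φ z 2) * ‖P.eval z‖ ^ 2 := by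
      have := P.continuous
      fun_prop
    have hcont2 : Continuous fun z => (1 + c.φ z 2) * (‖Q1.eval z‖ ^ 2 * ‖G z‖ ^ 2) := by
      have := Q1.continuous
      have := hG.continuous
      fun_prop
    have := Continuous.ext_on hdense hcont1 hcont2 (by
      intro z hz
      have hzS : c.φ z ≠ south := fun h => hz ((hS z).mp h)
      have h1 : 1 + c.φ z 2 ≠ 0 := fun h => hzS ((eq_south_iff (hc.unit z)).mpr h)
      have h2 := congrArg (fun x => ‖x‖ ^ 2) (hrel z)
      simp only [norm_mul, Complex.norm_real, mul_pow, Real.norm_eq_abs, sq_abs] at h2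
      rw [planar_normSq (hc.unit z)] at h2
      apply mul_left_cancel₀ h1
      linear_combination h2)
    intro z
    exact congrFun this z
  have hle1 : ∀ z, -1 ≤ c.φ z 2 ∧ c.φ z 2 ≤ 1 := by
    intro z
    have h2 : c.φ z 0 * c.φ z 0 + c.φ z 1 * c.φ z 1 + c.φ z 2 * c.φ z 2 = 1 := by
      simpa [dotProduct, Fin.sum_univ_three] using hc.unit z
    constructor <;> nlinarith [sq_nonneg (c.φ z 0), sq_nonneg (c.φ z 1)]
  refine count_false (u := u) (v := v) (k1 := c.A₂) (k2 := fun z => -c.A₁ z)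
    (huc.of_le two_le_inf) (hvc.of_le two_le_inf)
    (hc.smooth_A₂.of_le (by simp))
    (hc.smooth_A₁.neg.of_le (by simp)) ?_ ?_ hP hQ1 hdeg ?_ ?_ ?_ ?_
  · intro z
    have h := congrArg Complex.re (hGd z)
    unfold d1 d2
    rw [hud, hvd]
    simp at h
    linear_combination h
  · intro z
    have h := congrArg Complex.im (hGd z)
    unfold d1 d2
    rw [hud, hvd]
    simp at h
    linear_combination h
  · intro z
    rw [hF12, hGn]
    linear_combination hrel2 z
  · intro z
    rw [hF12]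
    linarith [(hle1 z).2]
  · have h1 : ∀ᶠ z in cobounded ℂ, 0 < c.φ z 2 := by
      have h2 := hc.vacuum
      rw [← Metric.cobounded_eq_cocompact] at h2
      have h3 := h2.eventually (lt_mem_nhds (show (0 : ℝ) < 1 by norm_num))
      filter_upwards [h3] with z hz
      rwa [north_dot] at hz
    filter_upwards [h1] with z hz
    rw [hGn]
    have h3 := hrel2 z
    have h4 : 0 ≤ ‖Q1.eval z‖ ^ 2 * ‖G z‖ ^ 2 := by positivity
    have h5 : 0 ≤ ‖P.eval z‖ ^ 2 := by positivity
    nlinarith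
  · obtain ⟨z, hz⟩ := hne
    refine ⟨z, ?_⟩
    rw [hGn]
    have : 0 < ‖G z‖ := norm_pos_iff.mpr hz
    positivity

end Pool.Agent.Work.MP_089002_mp
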