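import Mathlib

open MeasureTheory Filter Topology Set
open scoped ContDiff Real Convolution

namespace Pool.Agent.Work.MP_089002_mp

/-- the Cauchy kernel -/
noncomputable def ker (z : ℂ) : ℂ := (2 * π : ℂ)⁻¹ * z⁻¹

theorem integrableOn_ker (R : ℝ) : IntegrableOn ker (Metric.ball 0 R) := by
  have h1 : IntegrableOn (fun z : ℂ => ‖z‖⁻¹) (Metric.ball 0 R) := by
    have := integrableOn_fun_norm_addHaar (E := ℂ) (μ := volume) (f := fun y : ℝ => y⁻¹) (r := R)
    rw [this, Complex.finrank_real_complex]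
    have h2 : IntegrableOn (fun _ : ℝ => (1 : ℝ)) (Ioo 0 R) :=
      integrableOn_const (by simp)
    refine h2.congr_fun (fun y hy => ?_) measurableSet_Ioo
    have : y ≠ 0 := ne_of_gt hy.1
    simp [this]
  have h3 : AEStronglyMeasurable ker (volume.restrict (Metric.ball (0 : ℂ) R)) := by
    have : Measurable ker := by unfold ker; fun_prop
    exact this.aestronglyMeasurable
  refine Integrable.mono' (h1.const_mul (2 * π)⁻¹) h3 (Eventually.of_forall fun z => ?_)
  rw [ker, norm_mul, norm_inv, norm_inv]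
  simp [abs_of_pos Real.pi_pos]

theorem locallyIntegrable_ker : LocallyIntegrable ker volume := by
  intro z
  refine ⟨Metric.ball 0 (‖z‖ + 1), Metric.isOpen_ball.mem_nhds ?_, integrableOn_ker _⟩
  simp

/-- unit vectors -/
noncomputable def uv (t : ℝ) : ℂ := Real.cos t + Real.sin t * Complex.I

theorem hasDerivAt_uv (t : ℝ) : HasDerivAt uv (Complex.I * uv t) t := by
  have h1 : HasDerivAt (fun t : ℝ => (Real.cos t : ℂ)) (-(Real.sin t : ℝ) : ℂ) t := by
    have := (Real.hasDerivAt_cos t).ofReal_comp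
    simpa using this
  have h2 : HasDerivAt (fun t : ℝ => (Real.sin t : ℂ)) ((Real.cos t : ℝ) : ℂ) t := by
    have := (Real.hasDerivAt_sin t).ofReal_comp
    simpa using this
  have h3 := h1.add (h2.mul_const Complex.I)
  refine HasDerivAt.congr_deriv (f' := _) h3 ?_
  rw [uv]
  linear_combination (-(Real.sin t : ℂ)) * Complex.I_mul_I

theorem norm_uv (t : ℝ) : ‖uv t‖ = 1 := by
  have := Complex.norm_cos_add_sin_mul_I t
  rwa [← Complex.ofReal_cos, ← Complex.ofReal_sin] at this

theorem continuous_uv : Continuous uv := by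
  unfold uv
  fun_prop

theorem dbar_rot {E : ℂ} (D : ℂ →L[ℝ] ℂ) (hE : ‖E‖ = 1) :
    E⁻¹ * (D 1 + Complex.I * D Complex.I) = D E + Complex.I * D (Complex.I * E) := by
  have h1 : E = E.re • (1 : ℂ) + E.im • Complex.I := by
    apply Complex.ext <;> simp
  have h2 : Complex.I * E = (-E.im) • (1 : ℂ) + E.re • Complex.I := by
    apply Complex.ext <;> simp
  have h3 : E⁻¹ = (E.re : ℂ) - E.im * Complex.I := by
    have h4 : Complex.normSq E = 1 := by rw [Complex.normSq_eq_norm_sq, hE]; norm_num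
    rw [Complex.inv_def, h4]
    apply Complex.ext <;> simp
  have h5 : D E = E.re • D 1 + E.im • D Complex.I := by
    conv_lhs => rw [h1]
    rw [map_add, map_smul, map_smul]
  have h6 : D (Complex.I * E) = (-E.im) • D 1 + E.re • D Complex.I := by
    rw [h2, map_add, map_smul, map_smul]
  rw [h3, h5, h6]
  simp only [Complex.real_smul, Complex.ofReal_neg]
  linear_combination (E.im * D Complex.I * (-1)) * Complex.I_mul_I

/-- The Cauchy-Pompeiu formula for compactly supported functions. -/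
theorem cauchy_pompeiu {b : ℂ → ℂ} (hb : ContDiff ℝ 1 b) (hc : HasCompactSupport b) (z : ℂ) :
    ∫ t, ker t * (fderiv ℝ b (z - t) 1 + Complex.I * fderiv ℝ b (z - t) Complex.I) = b z := by
  have hpi := Real.pi_pos
  have hdc : Continuous (fderiv ℝ b) := hb.continuous_fderiv (by norm_num)
  -- radius
  obtain ⟨R, hR0, hR⟩ : ∃ R > 0, ∀ w, R ≤ ‖w‖ → b (z - w) = 0 ∧ fderiv ℝ b (z - w) = 0 := by
    obtain ⟨R₁, hR₁⟩ := hc.isCompact.isBounded.subset_closedBall 0
    refine ⟨|R₁| + ‖z‖ + 1, by positivity, fun w hw => ?_⟩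
    have hnot : z - w ∉ tsupport b := by
      intro h
      have h1 := hR₁ h
      rw [mem_closedBall_zero_iff] at h1
      have h2 := norm_sub_norm_le w z
      rw [norm_sub_rev] at h2
      have := le_abs_self R₁
      linarith
    refine ⟨image_eq_zero_of_notMem_tsupport hnot, ?_⟩
    exact image_eq_zero_of_notMem_tsupport fun h => hnot (tsupport_fderiv_subset ℝ h)
  set G₁ : ℝ → ℝ → ℂ := fun ρ t => fderiv ℝ b (z - ρ * uv t) (uv t) with hG₁
  set G₂ : ℝ → ℝ → ℂ := fun ρ t => fderiv ℝ b (z - ρ * uv t) (Complex.I * uv t) with hG₂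
  have hw : Continuous (fun p : ℝ × ℝ => z - p.1 * uv p.2) := by
    have := continuous_uv
    fun_prop
  have hu : Continuous (fun p : ℝ × ℝ => uv p.2) := continuous_uv.comp continuous_snd
  have hG₁c : Continuous (fun p : ℝ × ℝ => G₁ p.1 p.2) := (hdc.comp hw).clm_apply hu
  have hG₂c : Continuous (fun p : ℝ × ℝ => G₂ p.1 p.2) :=
    (hdc.comp hw).clm_apply (continuous_const.mul hu)
  have hsub : (Ioo 0 R) ×ˢ (Ioo (-π) π) ⊆ polarCoord.target := by
    rintro ⟨a, b⟩ ⟨⟨h1, h2⟩, h3⟩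
    exact ⟨h1, h3⟩
  have hsymm : ∀ ρ t : ℝ, Complex.polarCoord.symm (ρ, t) = ρ * uv t := fun ρ t => by
    rw [Complex.polarCoord_symm_apply, uv]
  have e1 : ∫ t, ker t * (fderiv ℝ b (z - t) 1 + Complex.I * fderiv ℝ b (z - t) Complex.I) =
      ∫ p in (Ioo 0 R) ×ˢ (Ioo (-π) π), (2 * π : ℂ)⁻¹ * (G₁ p.1 p.2 + Complex.I * G₂ p.1 p.2) := by
    rw [← Complex.integral_comp_polarCoord_symm]
    rw [setIntegral_eq_of_subset_of_forall_sdiff_eq_zero (μ := volume)
      polarCoord.open_target.measurableSet hsub]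
    · apply setIntegral_congr_fun (measurableSet_Ioo.prod measurableSet_Ioo)
      rintro ⟨ρ, t⟩ ⟨⟨h1, h2⟩, h3⟩
      simp only at h1 h2
      simp only [hsymm, ker, hG₁, hG₂]
      rw [← dbar_rot _ (norm_uv t), Complex.real_smul, mul_inv]
      have : (ρ : ℂ) ≠ 0 := by exact_mod_cast h1.ne'
      field_simp
    · rintro ⟨ρ, t⟩ ⟨⟨h1, h3⟩, h4⟩
      have h1' : 0 < ρ := h1
      have h5 : R ≤ ‖(ρ : ℂ) * uv t‖ := by
        rw [norm_mul, norm_uv, mul_one, Complex.norm_real, Real.norm_eq_abs, abs_of_pos h1']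
        by_contra h6
        push Not at h6
        exact h4 ⟨⟨h1', h6⟩, h3⟩
      simp only [hsymm]
      rw [(hR _ h5).2]
      simp
  have hint : ∀ G : ℝ → ℝ → ℂ, Continuous (fun p : ℝ × ℝ => G p.1 p.2) →
      IntegrableOn (fun p : ℝ × ℝ => G p.1 p.2) ((Ioo 0 R) ×ˢ (Ioo (-π) π))
        (volume.prod volume) := by
    intro G hG
    have h1 : IntegrableOn (fun p : ℝ × ℝ => G p.1 p.2)
      ((Icc 0 R) ×ˢ (Icc (-π) π)) (volume.prod volume) :=
      hG.continuousOn.integrableOn_compact (isCompact_Icc.prod isCompact_Icc)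
    exact h1.mono_set (prod_mono Ioo_subset_Icc_self Ioo_subset_Icc_self)
  have e2 : ∀ G : ℝ → ℝ → ℂ, Continuous (fun p : ℝ × ℝ => G p.1 p.2) →
      ∫ p in (Ioo 0 R) ×ˢ (Ioo (-π) π), G p.1 p.2 = ∫ ρ in (0 : ℝ)..R, ∫ t in (-π)..π, G ρ t := by
    intro G hG
    rw [Measure.volume_eq_prod, setIntegral_prod _ (hint G hG),
      intervalIntegral.integral_of_le hR0.le, integral_Ioc_eq_integral_Ioo]
    apply setIntegral_congr_fun measurableSet_Ioo
    intro ρ _
    simp only
    rw [intervalIntegral.integral_of_le (by linarith), integral_Ioc_eq_integral_Ioo]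
  have e3 : ∫ ρ in (0 : ℝ)..R, ∫ t in (-π)..π, G₁ ρ t = 2 * π * b z := by
    rw [intervalIntegral_intervalIntegral_swap]
    · have h1 : ∀ t, ∫ ρ in (0 : ℝ)..R, G₁ ρ t = b z := by
        intro t
        have hd : ∀ ρ : ℝ, HasDerivAt (fun ρ : ℝ => -b (z - ρ * uv t)) (G₁ ρ t) ρ := by
          intro ρ
          have h2 : HasDerivAt (fun ρ : ℝ => z - (ρ : ℂ) * uv t) (-(1 * uv t)) ρ :=
            ((Complex.ofRealCLM.hasDerivAt (x := ρ)).mul_const (uv t)).const_sub z
          have h3 := ((hb.differentiable (by norm_num) (z - ρ * uv t)).hasFDerivAt.comp_hasDerivAt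
            ρ h2).neg
          refine HasDerivAt.congr_deriv (f' := _) h3 ?_
          rw [hG₁, one_mul, map_neg, neg_neg]
        rw [intervalIntegral.integral_eq_sub_of_hasDerivAt (fun ρ _ => hd ρ)]
        · have h4 : b (z - R * uv t) = 0 := (hR _ (by
            rw [norm_mul, norm_uv, mul_one, Complex.norm_real, Real.norm_eq_abs,
              abs_of_pos hR0])).1
          rw [h4]; simp
        · exact (hG₁c.comp (continuous_id.prodMk continuous_const)).intervalIntegrable _ _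
      simp only [h1]
      rw [intervalIntegral.integral_const]
      simp only [Complex.real_smul]
      push_cast
      ring
    · rw [uIoc_of_le hR0.le, uIoc_of_le (by linarith : -π ≤ π)]
      have h1 : IntegrableOn (fun p : ℝ × ℝ => G₁ p.1 p.2)
        ((Icc 0 R) ×ˢ (Icc (-π) π)) volume :=
        hG₁c.continuousOn.integrableOn_compact (isCompact_Icc.prod isCompact_Icc)
      exact h1.mono_set (prod_mono Ioc_subset_Icc_self Ioc_subset_Icc_self)
  have e4 : ∫ ρ in (0 : ℝ)..R, ∫ t in (-π)..π, G₂ ρ t = 0 := by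
    have h1 : ∀ ρ ∈ Ioc 0 R, ∫ t in (-π)..π, G₂ ρ t = 0 := by
      intro ρ hρ
      have hρ' : (ρ : ℂ) ≠ 0 := by exact_mod_cast hρ.1.ne'
      have hd : ∀ t : ℝ, HasDerivAt (fun t : ℝ => -(ρ : ℂ)⁻¹ * b (z - ρ * uv t)) (G₂ ρ t) t := by
        intro t
        have h2 : HasDerivAt (fun t : ℝ => z - (ρ : ℂ) * uv t) (-((ρ : ℂ) * (Complex.I * uv t))) t :=
          ((hasDerivAt_uv t).const_mul (ρ : ℂ)).const_sub z
        have h3 := ((hb.differentiable (by norm_num) (z - ρ * uv t)).hasFDerivAt.comp_hasDerivAt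
            t h2).const_mul (-(ρ : ℂ)⁻¹)
        refine HasDerivAt.congr_deriv (f' := _) h3 ?_
        have h4 : -((ρ : ℂ) * (Complex.I * uv t)) = (-ρ) • (Complex.I * uv t) := by
          rw [Complex.real_smul]; push_cast; ring
        rw [h4, map_smul, Complex.real_smul, hG₂]
        push_cast
        rw [← mul_assoc, neg_mul_neg, inv_mul_cancel₀ hρ', one_mul]
      rw [intervalIntegral.integral_eq_sub_of_hasDerivAt (fun t _ => hd t)]
      · have : uv π = uv (-π) := by simp [uv]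
        rw [this, sub_self]
      · exact (hG₂c.comp (continuous_const.prodMk continuous_id)).intervalIntegrable _ _
    rw [intervalIntegral.integral_of_le hR0.le, setIntegral_congr_fun measurableSet_Ioc h1]
    simp
  have hG₂c' : Continuous (fun p : ℝ × ℝ => Complex.I * G₂ p.1 p.2) := continuous_const.mul hG₂c
  have e5 : ∫ p in (Ioo 0 R) ×ˢ (Ioo (-π) π), (G₁ p.1 p.2 + Complex.I * G₂ p.1 p.2) =
      (∫ p in (Ioo 0 R) ×ˢ (Ioo (-π) π), G₁ p.1 p.2) +
        ∫ p in (Ioo 0 R) ×ˢ (Ioo (-π) π), Complex.I * G₂ p.1 p.2 :=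
    integral_add (f := fun p : ℝ × ℝ => G₁ p.1 p.2) (g := fun p : ℝ × ℝ => Complex.I * G₂ p.1 p.2)
      (hint G₁ hG₁c) (hint (fun ρ t => Complex.I * G₂ ρ t) hG₂c')
  rw [e1, integral_const_mul, e5, integral_const_mul,
    e2 G₁ hG₁c, e2 G₂ hG₂c, e3, e4, mul_zero, add_zero]
  have : (π : ℂ) ≠ 0 := by exact_mod_cast hpi.ne'
  field_simp

/-- Solvability of the Cauchy-Riemann equation for compactly supported right hand sides -/
theorem exists_dbar_compact {b : ℂ → ℂ} (hb : ContDiff ℝ ∞ b) (hc : HasCompactSupport b) :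
    ∃ ψ : ℂ → ℂ, ContDiff ℝ ∞ ψ ∧
      ∀ z, fderiv ℝ ψ z 1 + Complex.I * fderiv ℝ ψ z Complex.I = b z := by
  set L := ContinuousLinearMap.mul ℝ ℂ with hL
  refine ⟨ker ⋆[L, volume] b, hc.contDiff_convolution_right L locallyIntegrable_ker hb, ?_⟩
  intro z
  have h1 := hc.hasFDerivAt_convolution_right L locallyIntegrable_ker (hb.of_le (by simp)) z
  have hb1 : ContDiff ℝ 1 b := hb.of_le (by simp)
  have hcd : HasCompactSupport (fderiv ℝ b) := hc.fderiv ℝ
  have hcont : Continuous (fderiv ℝ b) := hb1.continuous_fderiv (by norm_num)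
  have hcd1 : HasCompactSupport (fun w => fderiv ℝ b w 1) :=
    hcd.comp_left (g := fun D : ℂ →L[ℝ] ℂ => D 1) rfl
  have hcdI : HasCompactSupport (fun w => fderiv ℝ b w Complex.I) :=
    hcd.comp_left (g := fun D : ℂ →L[ℝ] ℂ => D Complex.I) rfl
  have i1 : Integrable (fun t => ker t * fderiv ℝ b (z - t) 1) :=
    hcd1.convolutionExists_right L locallyIntegrable_ker (by fun_prop) z
  have i2 : Integrable (fun t => ker t * fderiv ℝ b (z - t) Complex.I) :=
    hcdI.convolutionExists_right L locallyIntegrable_ker (by fun_prop) z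
  have e6 : ∫ t, ker t * (fderiv ℝ b (z - t) 1 + Complex.I * fderiv ℝ b (z - t) Complex.I) =
      (∫ t, ker t * fderiv ℝ b (z - t) 1) +
        Complex.I * ∫ t, ker t * fderiv ℝ b (z - t) Complex.I := by
    rw [← integral_const_mul, ← integral_add i1 (i2.const_mul _)]
    congr 1
    ext t
    ring
  rw [h1.fderiv, convolution_precompR_apply L locallyIntegrable_ker hcd hcont,
    convolution_precompR_apply L locallyIntegrable_ker hcd hcont]
  rw [← cauchy_pompeiu hb1 hc z, e6]
  rfl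

/-- Solvability of the Cauchy-Riemann equation on a disc -/
theorem exists_dbar {a : ℂ → ℂ} (ha : ContDiff ℝ ∞ a) (z₀ : ℂ) {r : ℝ} (hr : 0 < r) :
    ∃ ψ : ℂ → ℂ, ContDiff ℝ ∞ ψ ∧
      ∀ z ∈ Metric.closedBall z₀ r, fderiv ℝ ψ z 1 + Complex.I * fderiv ℝ ψ z Complex.I = a z := by
  let f : ContDiffBump z₀ := ⟨r, r + 1, hr, lt_add_one r⟩
  set b : ℂ → ℂ := fun z => (f z : ℂ) * a z with hbdef
  have hb : ContDiff ℝ ∞ b := by
    have h1 : ContDiff ℝ ∞ (fun z => (f z : ℂ)) :=
      Complex.ofRealCLM.contDiff.comp f.contDiff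
    exact h1.mul ha
  have hc : HasCompactSupport b := by
    have h1 : HasCompactSupport (fun z => (f z : ℂ)) :=
      f.hasCompactSupport.comp_left (g := fun x : ℝ => (x : ℂ)) Complex.ofReal_zero
    exact h1.mul_right
  obtain ⟨ψ, h1, h2⟩ := exists_dbar_compact hb hc
  refine ⟨ψ, h1, fun z hz => ?_⟩
  have : f z = 1 := f.one_of_mem_closedBall hz
  rw [h2, hbdef]
  simp [this]

end Pool.Agent.Work.MP_089002_mp
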