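import Pool.Agent.Work.MP_089002_mp.Dbar

open MeasureTheory Filter Topology Set
open scoped ContDiff NNReal

namespace Pool.Agent.Work.MP_089002_mp

theorem complexDiff_of_dbar {f : ℂ → ℂ} {z : ℂ} (hf : DifferentiableAt ℝ f z)
    (h : fderiv ℝ f z 1 + Complex.I * fderiv ℝ f z Complex.I = 0) : DifferentiableAt ℂ f z := by
  rw [differentiableAt_complex_iff_differentiableAt_real]
  refine ⟨hf, ?_⟩
  rw [smul_eq_mul]
  have hI := Complex.I_mul_I
  linear_combination (-Complex.I) * h + fderiv ℝ f z Complex.I * hI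

theorem dbar_of_complexDiff {f : ℂ → ℂ} {z : ℂ} (hf : DifferentiableAt ℂ f z) :
    fderiv ℝ f z 1 + Complex.I * fderiv ℝ f z Complex.I = 0 := by
  rw [differentiableAt_complex_iff_differentiableAt_real] at hf
  rw [hf.2, smul_eq_mul]
  have hI := Complex.I_mul_I
  linear_combination fderiv ℝ f z 1 * hI

theorem entire_approx {f : ℂ → ℂ} (n : ℕ)
    (hf : DifferentiableOn ℂ f (Metric.closedBall 0 (n + 1))) {ε : ℝ} (hε : 0 < ε) :
    ∃ p : ℂ → ℂ, Differentiable ℂ p ∧ ∀ z ∈ Metric.closedBall (0 : ℂ) n, ‖f z - p z‖ ≤ ε := by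
  have hR : (0 : ℝ≥0) < (n : ℝ≥0) + 1 := by positivity
  have h1 := DifferentiableOn.hasFPowerSeriesOnBall (R := (n : ℝ≥0) + 1) (c := 0) (f := f)
    (by simpa using hf) hR
  have hlt : (((n : ℝ≥0) + 1 / 2 : ℝ≥0) : ENNReal) < (((n : ℝ≥0) + 1 : ℝ≥0) : ENNReal) := by
    rw [ENNReal.coe_lt_coe]
    gcongr
    exact NNReal.half_lt_self one_ne_zero
  have h2 := h1.tendstoUniformlyOn' hlt
  rw [Metric.tendstoUniformlyOn_iff] at h2
  obtain ⟨N, hN⟩ := (h2 ε hε).exists
  refine ⟨fun z => (cauchyPowerSeries f 0 ((n : ℝ≥0) + 1 : ℝ≥0)).partialSum N (z - 0), ?_, ?_⟩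
  · unfold FormalMultilinearSeries.partialSum
    apply Differentiable.fun_sum
    intro k _
    have : Differentiable ℂ fun z : ℂ =>
      (cauchyPowerSeries f 0 ((n : ℝ≥0) + 1 : ℝ≥0) k) fun _ : Fin k => z - 0 := by
      have h3 : ∀ z : ℂ, ((cauchyPowerSeries f 0 ((n : ℝ≥0) + 1 : ℝ≥0) k) fun _ : Fin k => z - 0)
          = (z - 0) ^ k • ((cauchyPowerSeries f 0 ((n : ℝ≥0) + 1 : ℝ≥0) k) fun _ => 1) := by
        intro z
        have := (cauchyPowerSeries f 0 ((n : ℝ≥0) + 1 : ℝ≥0) k).map_smul_univ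
          (fun _ => z - 0) (fun _ => 1)
        simp at this ⊢
      simp_rw [h3]
      fun_prop
    exact this
  · intro z hz
    have h3 := hN z (by
      rw [Metric.mem_closedBall, dist_zero_right] at hz
      rw [Metric.mem_ball, dist_zero_right]
      push_cast
      linarith)
    rw [dist_eq_norm] at h3
    exact h3.le

/-- the inhomogeneous Cauchy-Riemann equation can be solved on the whole plane -/
theorem exists_dbar_global {a : ℂ → ℂ} (ha : ContDiff ℝ ∞ a) :
    ∃ ψ : ℂ → ℂ, ContDiff ℝ ∞ ψ ∧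
      ∀ z, fderiv ℝ ψ z 1 + Complex.I * fderiv ℝ ψ z Complex.I = a z := by
  have hloc : ∀ n : ℕ, ∃ ψ : ℂ → ℂ, ContDiff ℝ ∞ ψ ∧ ∀ z ∈ Metric.closedBall (0 : ℂ) (n + 1),
      fderiv ℝ ψ z 1 + Complex.I * fderiv ℝ ψ z Complex.I = a z := fun n =>
    exists_dbar ha 0 (by positivity)
  choose ψ hψ hψ' using hloc
  have hψd : ∀ n, Differentiable ℝ (ψ n) := fun n => (hψ n).differentiable (by simp)
  have hδ : ∀ n, DifferentiableOn ℂ (fun z => ψ (n + 1) z - ψ n z)
      (Metric.closedBall 0 (n + 1)) := by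
    intro n z hz
    apply DifferentiableAt.differentiableWithinAt
    apply complexDiff_of_dbar (f := fun z => ψ (n + 1) z - ψ n z)
      ((hψd (n + 1) z).sub (hψd n z))
    have e : fderiv ℝ (fun z => ψ (n + 1) z - ψ n z) z = fderiv ℝ (ψ (n + 1)) z -
        fderiv ℝ (ψ n) z := ((hψd (n + 1) z).hasFDerivAt.sub (hψd n z).hasFDerivAt).fderiv
    rw [e]
    have h1 := hψ' n z hz
    have h2 := hψ' (n + 1) z (Metric.closedBall_subset_closedBall (by push_cast; linarith) hz)
    simp only [_root_.sub_apply]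
    linear_combination h2 - h1
  have happ : ∀ n : ℕ, ∃ p : ℂ → ℂ, Differentiable ℂ p ∧
      ∀ z ∈ Metric.closedBall (0 : ℂ) n, ‖(ψ (n + 1) z - ψ n z) - p z‖ ≤ (1 / 2 : ℝ) ^ n :=
    fun n => entire_approx n (hδ n) (by positivity)
  choose p hp hp' using happ
  set T : ℕ → ℂ → ℂ := fun n z => (ψ (n + 1) z - ψ n z) - p n z with hT
  have hTsum : ∀ z, Summable fun n => T n z := by
    intro z
    obtain ⟨m, hm⟩ := exists_nat_ge ‖z‖
    rw [← summable_nat_add_iff m]
    apply Summable.of_norm_bounded (g := fun n => (1 / 2 : ℝ) ^ (n + m))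
    · exact (summable_nat_add_iff m).mpr summable_geometric_two
    · intro n
      apply hp'
      rw [Metric.mem_closedBall, dist_zero_right]
      push_cast
      linarith [(Nat.cast_nonneg n : (0 : ℝ) ≤ n)]
  set Ψ : ℂ → ℂ := fun z => ψ 0 z + ∑' n, T n z with hΨ
  -- local form
  have hform : ∀ (m : ℕ), ∃ H : ℂ → ℂ, DifferentiableOn ℂ H (Metric.ball 0 m) ∧
      ∀ z, Ψ z = ψ m z + H z := by
    intro m
    refine ⟨fun z => (∑' n, T (n + m) z) - ∑ n ∈ Finset.range m, p n z, ?_, ?_⟩
    · apply DifferentiableOn.sub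
      · apply Complex.differentiableOn_tsum_of_summable_norm
          (u := fun n => (1 / 2 : ℝ) ^ (n + m))
        · exact (summable_nat_add_iff m).mpr summable_geometric_two
        · intro n
          apply DifferentiableOn.sub
          · apply (hδ (n + m)).mono
            intro z hz
            rw [Metric.mem_ball] at hz
            rw [Metric.mem_closedBall]
            push_cast
            linarith [(Nat.cast_nonneg n : (0 : ℝ) ≤ n)]
          · exact (hp (n + m)).differentiableOn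
        · exact Metric.isOpen_ball
        · intro n z hz
          apply hp'
          rw [Metric.mem_ball] at hz
          rw [Metric.mem_closedBall]
          push_cast
          linarith [(Nat.cast_nonneg n : (0 : ℝ) ≤ n)]
      · apply DifferentiableOn.fun_sum
        intro n _
        exact (hp n).differentiableOn
    · intro z
      have h1 := (hTsum z).sum_add_tsum_nat_add m
      have h2 : ∑ n ∈ Finset.range m, T n z =
          (ψ m z - ψ 0 z) - ∑ n ∈ Finset.range m, p n z := by
        simp only [hT]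
        rw [Finset.sum_sub_distrib, Finset.sum_range_sub (fun n => ψ n z)]
      simp only [hΨ]
      rw [← h1, h2]
      ring
  have hat : ∀ z : ℂ, ContDiffAt ℝ ∞ Ψ z ∧
      fderiv ℝ Ψ z 1 + Complex.I * fderiv ℝ Ψ z Complex.I = a z := by
    intro z
    obtain ⟨m, hm⟩ := exists_nat_gt ‖z‖
    obtain ⟨H, hH, hH'⟩ := hform m
    have hzm : z ∈ Metric.ball (0 : ℂ) m := by
      rw [Metric.mem_ball, dist_zero_right]
      exact hm
    have hHat : AnalyticAt ℂ H z :=
      hH.analyticAt (Metric.isOpen_ball.mem_nhds hzm)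
    have hHr : ContDiffAt ℝ ∞ H z := hHat.contDiffAt.restrict_scalars ℝ
    have e : Ψ = fun z => ψ m z + H z := funext hH'
    refine ⟨?_, ?_⟩
    · rw [e]
      exact (hψ m).contDiffAt.add hHr
    · have hHd : DifferentiableAt ℝ H z := hHr.differentiableAt (by simp)
      have e2 : fderiv ℝ Ψ z = fderiv ℝ (ψ m) z + fderiv ℝ H z := by
        rw [e]
        exact ((hψd m z).hasFDerivAt.add hHd.hasFDerivAt).fderiv
      rw [e2]
      have h1 := hψ' m z (by
        rw [Metric.mem_closedBall, dist_zero_right]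
        linarith)
      have h2 := dbar_of_complexDiff hHat.differentiableAt
      simp only [_root_.add_apply]
      linear_combination h1 + h2
  exact ⟨Ψ, contDiff_iff_contDiffAt.mpr fun z => (hat z).1, fun z => (hat z).2⟩

end Pool.Agent.Work.MP_089002_mp
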