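import Mathlib

set_option autoImplicit false

open Complex Filter Topology Set Metric MeasureTheory Matrix
open scoped ContDiff

namespace Pool.Agent.Work.MP_089002_mp

/-- The plane `ℝ²` is modelled by `ℂ` (`x₁ = re`, `x₂ = im`); `d1 f = ∂₁ f`. -/
noncomputable def d1 {E : Type*} [NormedAddCommGroup E] [NormedSpace ℝ E]
    (f : ℂ → E) (x : ℂ) : E := fderiv ℝ f x 1

/-- `d2 f = ∂₂ f`. -/
noncomputable def d2 {E : Type*} [NormedAddCommGroup E] [NormedSpace ℝ E]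
    (f : ℂ → E) (x : ℂ) : E := fderiv ℝ f x Complex.I

/-- the north pole `n = (0,0,1)` -/
def north : Fin 3 → ℝ := ![0, 0, 1]

/-- the south pole `s = (0,0,-1)` -/
def south : Fin 3 → ℝ := ![0, 0, -1]

/-- A configuration: a map `φ` of the plane to `ℝ³` and a gauge field `(A₁, A₂)`. -/
structure Config where
  φ : ℂ → (Fin 3 → ℝ)
  A₁ : ℂ → ℝ
  A₂ : ℂ → ℝ

/-- `D₁ φ = ∂₁ φ + A₁ (n × φ)` -/
noncomputable def Config.D₁ (c : Config) (x : ℂ) : Fin 3 → ℝ :=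
  d1 c.φ x + c.A₁ x • (north ⨯₃ c.φ x)

/-- `D₂ φ = ∂₂ φ + A₂ (n × φ)` -/
noncomputable def Config.D₂ (c : Config) (x : ℂ) : Fin 3 → ℝ :=
  d2 c.φ x + c.A₂ x • (north ⨯₃ c.φ x)

/-- `F₁₂ = ∂₁ A₂ - ∂₂ A₁` -/
noncomputable def Config.F₁₂ (c : Config) (x : ℂ) : ℝ := d1 c.A₂ x - d2 c.A₁ x

/-- twice the energy density -/
noncomputable def Config.density (c : Config) (x : ℂ) : ℝ :=
  c.D₁ x ⬝ᵥ c.D₁ x + c.D₂ x ⬝ᵥ c.D₂ x + (1 - north ⬝ᵥ c.φ x) ^ 2 + c.F₁₂ x ^ 2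

/-- the complex number `φ₁ + i φ₂` built from the first two components of `φ` -/
noncomputable def planar (v : Fin 3 → ℝ) : ℂ := (v 0 : ℂ) + (v 1 : ℂ) * Complex.I

/-- `φ` has local degree `m` over the south pole at the point `p`: on all small circles around `p`
the planar part `φ₁ + i φ₂` does not vanish and has winding number `-m` (the coordinates
`(φ₁, φ₂)` reverse the orientation of the sphere near the south pole). -/
def LocalDegree (φ : ℂ → (Fin 3 → ℝ)) (p : ℂ) (m : ℤ) : Prop :=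
  ∀ᶠ r : ℝ in 𝓝[>] 0, ∃ α : ℝ → ℝ, Continuous α ∧
    (∀ θ : ℝ, planar (φ (p + r * exp (θ * I))) ≠ 0 ∧
      planar (φ (p + r * exp (θ * I))) =
        ‖planar (φ (p + r * exp (θ * I)))‖ * exp (α θ * I)) ∧
    α (2 * Real.pi) - α 0 = -(2 * Real.pi * m)

/-- The map `φ`, extended to the sphere by `n` at infinity, has Brouwer degree `N`: the preimage of
the south pole is finite and the local degrees at its points add up to `N`. -/
def HasDegree (φ : ℂ → (Fin 3 → ℝ)) (N : ℤ) : Prop :=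
  ∃ (S : Finset ℂ) (m : ℂ → ℤ), (∀ x, φ x = south ↔ x ∈ S) ∧
    (∀ p ∈ S, LocalDegree φ p (m p)) ∧ ∑ p ∈ S, m p = N

/-- smooth finite-energy solutions of the self-dual equations of degree `N` -/
structure Config.IsSolution (N : ℕ) (c : Config) : Prop where
  smooth_φ : ContDiff ℝ ∞ c.φ
  smooth_A₁ : ContDiff ℝ ∞ c.A₁
  smooth_A₂ : ContDiff ℝ ∞ c.A₂
  unit : ∀ x, c.φ x ⬝ᵥ c.φ x = 1
  finite_energy : Integrable c.density volume
  vacuum : Tendsto (fun x => north ⬝ᵥ c.φ x) (cocompact ℂ) (𝓝 1)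
  degree : HasDegree c.φ N
  sd1 : ∀ x, c.D₁ x = -(c.φ x ⨯₃ c.D₂ x)
  sd2 : ∀ x, c.F₁₂ x = 1 - north ⬝ᵥ c.φ x

/-- rotation about the `n`-axis -/
noncomputable def rot (θ : ℝ) (v : Fin 3 → ℝ) : Fin 3 → ℝ :=
  ![Real.cos θ * v 0 - Real.sin θ * v 1, Real.sin θ * v 0 + Real.cos θ * v 1, v 2]

/-- gauge equivalence: `φ' = R_θ φ`, `A' = A - ∇ θ` with a smooth real function `θ` -/
def GaugeEquiv (c c' : Config) : Prop :=
  ∃ θ : ℂ → ℝ, ContDiff ℝ ∞ θ ∧ (∀ x, c'.φ x = rot (θ x) (c.φ x)) ∧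
    (∀ x, c'.A₁ x = c.A₁ x - d1 θ x) ∧ (∀ x, c'.A₂ x = c.A₂ x - d2 θ x)

end Pool.Agent.Work.MP_089002_mp
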