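import Pool.Agent.Work.MP_089002_mp.CountConfig

set_option autoImplicit false

open MeasureTheory Filter Topology Set Bornology
open scoped ContDiff Real ComplexConjugate

namespace Pool.Agent.Work.MP_089002_mp

theorem eq_of_exp_eq_one {g : ℝ → ℝ} (hg : Continuous g)
    (h : ∀ θ, Complex.exp (g θ * Complex.I) = 1) (a b : ℝ) : g a = g b := by
  have hint : ∀ θ, ∃ n : ℤ, g θ = n * (2 * π) := by
    intro θ
    obtain ⟨n, hn⟩ := Complex.exp_eq_one_iff.mp (h θ)
    refine ⟨n, ?_⟩
    have h1 : (g θ : ℂ) * Complex.I = ((n * (2 * π) : ℝ) : ℂ) * Complex.I := by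
      rw [hn]
      push_cast
      ring
    have h2 := mul_right_cancel₀ Complex.I_ne_zero h1
    exact_mod_cast h2
  by_contra hne
  obtain ⟨na, hna⟩ := hint a
  obtain ⟨nb, hnb⟩ := hint b
  have hpi := Real.pi_pos
  have key : ∀ k : ℤ, ((k : ℝ) + 1 / 2) * (2 * π) ∈ uIcc (g a) (g b) → False := by
    intro k hk
    obtain ⟨θ, -, hθ⟩ := intermediate_value_uIcc hg.continuousOn hk
    obtain ⟨n, hn⟩ := hint θ
    rw [hn] at hθ
    have h3 : (n : ℝ) = k + 1 / 2 := by
      have : (2 * π) ≠ 0 := by positivity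
      exact mul_right_cancel₀ this hθ
    have h4 : ((2 * n : ℤ) : ℝ) = ((2 * k + 1 : ℤ) : ℝ) := by
      push_cast
      linarith
    have h5 : 2 * n = 2 * k + 1 := by exact_mod_cast h4
    omega
  rcases lt_trichotomy na nb with hlt | heq | hgt
  · apply key na
    have h1 : (na : ℝ) + 1 ≤ nb := by exact_mod_cast hlt
    rw [hna, hnb, mem_uIcc]
    left
    constructor
    · nlinarith
    · nlinarith
  · apply hne
    rw [hna, hnb, heq]
  · apply key nb
    have h1 : (nb : ℝ) + 1 ≤ na := by exact_mod_cast hgt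
    rw [hna, hnb, mem_uIcc]
    right
    constructor
    · nlinarith
    · nlinarith

theorem unit_eq {z : ℂ} {r : ℝ} (hr : 0 < r) {w : ℂ} (hz : z = r * w) (hw : w ≠ 0) :
    z / (‖z‖ : ℂ) = w / (‖w‖ : ℂ) := by
  have hrc : (r : ℂ) ≠ 0 := by exact_mod_cast hr.ne'
  have hwn : (‖w‖ : ℂ) ≠ 0 := by
    have := norm_ne_zero_iff.mpr hw
    exact_mod_cast this
  rw [hz, norm_mul, Complex.norm_real, Real.norm_of_nonneg hr.le]
  push_cast
  field_simp

/-- the local degree is the order of the zero of the antiholomorphic factor -/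
theorem localDegree_eq {φ : ℂ → (Fin 3 → ℝ)} {p : ℂ} {m : ℤ} {k : ℕ} {h : ℂ → ℂ} {r : ℂ → ℝ}
    (hh : ∀ᶠ z in 𝓝 p, ContinuousAt h z) (hhp : h p ≠ 0)
    (hrel : ∀ᶠ z in 𝓝[≠] p, 0 < r z ∧ planar (φ z) = r z * conj ((z - p) ^ k * h z))
    (hdeg : LocalDegree φ p m) : m = k := by
  -- a good radius
  have hcp : ContinuousAt h p := hh.self_of_nhds
  have hnear : ∀ᶠ z in 𝓝 p, h z / h p ∈ Complex.slitPlane := by
    have h1 : ContinuousAt (fun z => h z / h p) p := hcp.div_const _
    apply h1.eventually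
    have h2 : (fun z => h z / h p) p = 1 := div_self hhp
    rw [h2]
    exact Complex.isOpen_slitPlane.mem_nhds Complex.one_mem_slitPlane
  obtain ⟨ε, hε, hball⟩ := Metric.eventually_nhds_iff.mp (hh.and (hnear.and
    (eventually_nhdsWithin_iff.mp hrel)))
  obtain ⟨R, hR, hRε, α, hα, hα1, hα2⟩ : ∃ R : ℝ, 0 < R ∧ R < ε ∧ ∃ α : ℝ → ℝ, Continuous α ∧
    (∀ θ : ℝ, planar (φ (p + R * Complex.exp (θ * Complex.I))) ≠ 0 ∧
      planar (φ (p + R * Complex.exp (θ * Complex.I))) =
        ‖planar (φ (p + R * Complex.exp (θ * Complex.I)))‖ * Complex.exp (α θ * Complex.I)) ∧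
    α (2 * Real.pi) - α 0 = -(2 * Real.pi * m) := by
    have h1 : ∀ᶠ R : ℝ in 𝓝[>] 0, R < ε := by
      apply eventually_nhdsWithin_of_eventually_nhds
      exact eventually_lt_nhds hε
    have h2 : ∀ᶠ R : ℝ in 𝓝[>] 0, 0 < R := eventually_mem_nhdsWithin
    obtain ⟨R, hR1, hR2, hR3⟩ := (h1.and (h2.and hdeg)).exists
    exact ⟨R, hR2, hR1, hR3⟩
  set pt' : ℝ → ℂ := fun θ => p + R * Complex.exp (θ * Complex.I) with hpt'
  have hptc : Continuous pt' := by fun_prop
  have hdist : ∀ θ, dist (pt' θ) p = R := by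
    intro θ
    rw [dist_eq_norm, hpt']
    simp only [add_sub_cancel_left, norm_mul, Complex.norm_real, Real.norm_of_nonneg hR.le,
      Complex.norm_exp_ofReal_mul_I, mul_one]
  have hin : ∀ θ, dist (pt' θ) p < ε := fun θ => by rw [hdist]; exact hRε
  have hne : ∀ θ, pt' θ ≠ p := by
    intro θ he
    have := hdist θ
    rw [he, dist_self] at this
    linarith
  have hhc : Continuous fun θ => h (pt' θ) := by
    rw [continuous_iff_continuousAt]
    intro θ
    exact ContinuousAt.comp (f := pt') (hball (hin θ)).1 hptc.continuousAt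
  have hslit : ∀ θ, h (pt' θ) / h p ∈ Complex.slitPlane := fun θ => (hball (hin θ)).2.1
  have hhne : ∀ θ, h (pt' θ) ≠ 0 := by
    intro θ he
    have := hslit θ
    rw [he, zero_div] at this
    exact Complex.zero_notMem_slitPlane this
  set β : ℝ → ℝ := fun θ => Complex.arg (h (pt' θ) / h p) with hβ
  have hβc : Continuous β := by
    rw [continuous_iff_continuousAt]
    intro θ
    exact ContinuousAt.comp (f := fun θ => h (pt' θ) / h p) (Complex.continuousAt_arg (hslit θ))
      (hhc.div_const _).continuousAt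
  -- the phase equation
  set u0 : ℂ := h p / (‖h p‖ : ℂ) with hu0
  have hhpn : (‖h p‖ : ℂ) ≠ 0 := by
    have := norm_ne_zero_iff.mpr hhp
    exact_mod_cast this
  have hphase : ∀ θ, Complex.exp ((α θ + k * θ + β θ : ℝ) * Complex.I) * u0 = 1 := by
    intro θ
    obtain ⟨a1, a2⟩ := hα1 θ
    obtain ⟨r1, r2⟩ := (hball (hin θ)).2.2 (hne θ)
    have hzp : pt' θ - p = R * Complex.exp (θ * Complex.I) := by
      rw [hpt']
      simp
    set w : ℂ := (pt' θ - p) ^ k * h (pt' θ) with hw
    have hwne : w ≠ 0 := by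
      apply mul_ne_zero _ (hhne θ)
      apply pow_ne_zero
      exact sub_ne_zero.mpr (hne θ)
    have hcw : conj w ≠ 0 := by simpa using hwne
    have e1 := unit_eq r1 r2 hcw
    have hpl : (‖planar (φ (pt' θ))‖ : ℂ) ≠ 0 := by
      have := norm_ne_zero_iff.mpr a1
      exact_mod_cast this
    have e2 : planar (φ (pt' θ)) / (‖planar (φ (pt' θ))‖ : ℂ) = Complex.exp (α θ * Complex.I) := by
      rw [div_eq_iff hpl, mul_comm]
      exact a2
    rw [e2, Complex.norm_conj] at e1
    -- the unit vector of w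
    have e3 : w / (‖w‖ : ℂ) = Complex.exp ((k * θ + β θ : ℝ) * Complex.I) * u0 := by
      have hq : h (pt' θ) = (‖h (pt' θ) / h p‖ : ℂ) * Complex.exp (β θ * Complex.I) * h p := by
        have := Complex.norm_mul_exp_arg_mul_I (h (pt' θ) / h p)
        rw [hβ]
        simp only
        rw [this]
        field_simp
      have hwe : w = ((R ^ k * ‖h (pt' θ) / h p‖ * ‖h p‖ : ℝ) : ℂ) *
          (Complex.exp ((k * θ + β θ : ℝ) * Complex.I) * u0) := by
        rw [hw, hzp, hu0]
        conv_lhs => rw [hq]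
        rw [mul_pow, ← Complex.exp_nat_mul]
        push_cast
        rw [add_mul, Complex.exp_add]
        rw [show (k : ℂ) * (θ * Complex.I) = k * θ * Complex.I by ring]
        field_simp
      have hpos : 0 < R ^ k * ‖h (pt' θ) / h p‖ * ‖h p‖ := by
        have h1 : 0 < ‖h p‖ := norm_pos_iff.mpr hhp
        have h2 : 0 < ‖h (pt' θ) / h p‖ := norm_pos_iff.mpr (div_ne_zero (hhne θ) hhp)
        positivity
      have hn : ‖Complex.exp ((k * θ + β θ : ℝ) * Complex.I) * u0‖ = 1 := by
        rw [norm_mul, Complex.norm_exp_ofReal_mul_I, hu0, norm_div, Complex.norm_real, norm_norm,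
          div_self (norm_ne_zero_iff.mpr hhp), mul_one]
      have hne' : Complex.exp ((k * θ + β θ : ℝ) * Complex.I) * u0 ≠ 0 := by
        rw [← norm_ne_zero_iff, hn]
        norm_num
      rw [unit_eq hpos hwe hne', hn]
      simp
    have e4 : conj w / (‖w‖ : ℂ) = conj (w / (‖w‖ : ℂ)) := by
      rw [map_div₀, Complex.conj_ofReal]
    rw [e4, e3] at e1
    set y := Complex.exp ((k * θ + β θ : ℝ) * Complex.I) * u0 with hy
    have hyn : ‖y‖ = 1 := by
      rw [hy, norm_mul, Complex.norm_exp_ofReal_mul_I, hu0, norm_div, Complex.norm_real, norm_norm,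
        div_self (norm_ne_zero_iff.mpr hhp), mul_one]
    have e5 : conj y * y = 1 := by
      rw [mul_comm, Complex.mul_conj, Complex.normSq_eq_norm_sq, hyn]
      simp
    have e6 : Complex.exp ((α θ + k * θ + β θ : ℝ) * Complex.I) * u0 =
        Complex.exp (α θ * Complex.I) * y := by
      rw [hy, ← mul_assoc, ← Complex.exp_add]
      congr 2
      push_cast
      ring
    rw [e6, e1, e5]
  have hconst := eq_of_exp_eq_one
    (g := fun θ => (α θ + k * θ + β θ) - (α 0 + k * 0 + β 0))
    (by fun_prop) (by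
      intro θ
      have h1 := hphase θ
      have h2 := hphase 0
      have hu0ne : u0 ≠ 0 := div_ne_zero hhp hhpn
      have h3 : Complex.exp ((α θ + k * θ + β θ : ℝ) * Complex.I) =
          Complex.exp ((α 0 + k * 0 + β 0 : ℝ) * Complex.I) :=
        mul_right_cancel₀ hu0ne (h1.trans h2.symm)
      push_cast at h3 ⊢
      rw [sub_mul, Complex.exp_sub, h3, div_self (Complex.exp_ne_zero _)]) (2 * π) 0
  have hβ2 : β (2 * π) = β 0 := by
    have : pt' (2 * π) = pt' 0 := by
      rw [hpt']
      simp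
    rw [hβ]
    simp only [this]
  simp only [hβ2] at hconst
  have h5 : (2 * π) * (m : ℝ) = (2 * π) * k := by linarith
  have h6 : (m : ℝ) = k := mul_left_cancel₀ (by positivity) h5
  exact_mod_cast h6

/-- the degree of the denominator polynomial is the Brouwer degree -/
theorem degree_config {c : Config} {N : ℕ} (hunit : ∀ x, dotProduct (c.φ x) (c.φ x) = 1)
    (hφ : Continuous c.φ) (hdeg : HasDegree c.φ N) {P : Polynomial ℂ}
    (hP : P.Monic) {E : ℂ → ℂ} (hE : Continuous E)
    (hrel : ∀ z, planar (c.φ z) * P.eval z = ((1 + c.φ z 2 : ℝ) : ℂ) * E z)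
    (hEP : ∀ z, P.eval z = 0 → E z ≠ 0) : P.natDegree = N := by
  classical
  obtain ⟨S, m, hS, hm, hsum⟩ := hdeg
  have hφ2 : Continuous fun z => c.φ z 2 := (continuous_apply 2).comp hφ
  have hP0 : P ≠ 0 := hP.ne_zero
  have hrel2 : ∀ z, (1 - c.φ z 2) * ‖P.eval z‖ ^ 2 = (1 + c.φ z 2) * ‖E z‖ ^ 2 := by
    have hdense : Dense ((S : Set ℂ)ᶜ) := S.finite_toSet.countable.dense_compl ℝ
    have hcont1 : Continuous fun z => (1 - c.φ z 2) * ‖P.eval z‖ ^ 2 := by
      have := P.continuous
      fun_prop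
    have hcont2 : Continuous fun z => (1 + c.φ z 2) * ‖E z‖ ^ 2 := by fun_prop
    have := Continuous.ext_on hdense hcont1 hcont2 (by
      intro z hz
      have hzS : c.φ z ≠ south := fun h => hz ((hS z).mp h)
      have h1 : 1 + c.φ z 2 ≠ 0 := fun h => hzS ((eq_south_iff (hunit z)).mpr h)
      have h2 := congrArg (fun x => ‖x‖ ^ 2) (hrel z)
      simp only [norm_mul, Complex.norm_real, mul_pow, Real.norm_eq_abs, sq_abs] at h2
      rw [planar_normSq (hunit z)] at h2
      apply mul_left_cancel₀ h1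
      linear_combination h2)
    intro z
    exact congrFun this z
  -- the roots are the preimages of the south pole
  have hroot : ∀ z, P.eval z = 0 ↔ z ∈ S := by
    intro z
    rw [← hS z, eq_south_iff (hunit z)]
    constructor
    · intro h
      have h1 := hrel2 z
      rw [h, norm_zero] at h1
      have h2 : 0 < ‖E z‖ := norm_pos_iff.mpr (hEP z h)
      have h3 : (1 + c.φ z 2) * ‖E z‖ ^ 2 = 0 := by
        rw [← h1]; ring
      rcases mul_eq_zero.mp h3 with h4 | h4
      · exact h4
      · exfalso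
        have : 0 < ‖E z‖ ^ 2 := by positivity
        linarith
    · intro h
      have h1 := hrel2 z
      rw [h, zero_mul] at h1
      have h3 : 1 - c.φ z 2 = 2 := by linarith
      rw [h3] at h1
      have h4 : ‖P.eval z‖ ^ 2 = 0 := by linarith
      exact norm_eq_zero.mp (pow_eq_zero_iff (two_ne_zero) |>.mp h4)
  -- local degrees
  have hloc : ∀ p ∈ S, m p = P.rootMultiplicity p := by
    intro p hp
    have hPp : P.eval p = 0 := (hroot p).mpr hp
    obtain ⟨P1, hP1, hP1'⟩ : ∃ P1 : Polynomial ℂ,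
        P = (Polynomial.X - Polynomial.C p) ^ (P.rootMultiplicity p) * P1 ∧ P1.eval p ≠ 0 := by
      obtain ⟨P1, h1, h2⟩ := P.exists_eq_pow_rootMultiplicity_mul_and_not_dvd hP0 p
      refine ⟨P1, h1, fun h => h2 (Polynomial.dvd_iff_isRoot.mpr h)⟩
    have hEp : E p ≠ 0 := hEP p hPp
    have hEnear : ∀ᶠ z in 𝓝 p, E z ≠ 0 := hE.continuousAt.eventually_ne hEp
    refine localDegree_eq (h := fun z => P1.eval z / E z) (r := fun z => 1 - c.φ z 2) ?_ ?_ ?_
      (hm p hp)
    · filter_upwards [hEnear] with z hz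
      exact P1.continuous.continuousAt.div hE.continuousAt hz
    · exact div_ne_zero hP1' hEp
    · have hφp : c.φ p 2 < 0 := by
        have := (eq_south_iff (hunit p)).mp ((hS p).mpr hp)
        linarith
      have h1 : ∀ᶠ z in 𝓝 p, c.φ z 2 < 0 := hφ2.continuousAt.eventually_lt
        continuousAt_const hφp
      have h2 : ∀ᶠ z in 𝓝[≠] p, z ∉ S := by
        have h3 : ((S.erase p : Finset ℂ) : Set ℂ)ᶜ ∈ 𝓝 p := by
          apply (S.erase p).finite_toSet.isClosed.isOpen_compl.mem_nhds
          simp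
        rw [eventually_nhdsWithin_iff]
        filter_upwards [h3] with z hz hzp hzS
        apply hz
        simp only [Finset.coe_erase, Set.mem_sdiff, Finset.mem_coe, mem_singleton_iff]
        exact ⟨hzS, hzp⟩
      filter_upwards [h2, nhdsWithin_le_nhds h1, nhdsWithin_le_nhds hEnear] with z z1 z2 z3
      refine ⟨by linarith, ?_⟩
      have hPz : P.eval z ≠ 0 := fun h => z1 ((hroot z).mp h)
      have hPf : (z - p) ^ (P.rootMultiplicity p) * (P1.eval z / E z) = P.eval z / E z := by
        conv_rhs => rw [hP1]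
        rw [Polynomial.eval_mul, Polynomial.eval_pow, Polynomial.eval_sub, Polynomial.eval_X,
          Polynomial.eval_C]
        ring
      rw [hPf, map_div₀]
      have hcE : conj (E z) ≠ 0 := by simpa using z3
      rw [mul_div_assoc', eq_div_iff hcE]
      apply mul_right_cancel₀ hPz
      have e1 := hrel z
      have e2 : P.eval z * conj (P.eval z) = ((‖P.eval z‖ ^ 2 : ℝ) : ℂ) := by
        rw [Complex.mul_conj, Complex.normSq_eq_norm_sq]
      have e3 : E z * conj (E z) = ((‖E z‖ ^ 2 : ℝ) : ℂ) := by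
        rw [Complex.mul_conj, Complex.normSq_eq_norm_sq]
      have e4 : (((1 - c.φ z 2) * ‖P.eval z‖ ^ 2 : ℝ) : ℂ) =
          (((1 + c.φ z 2) * ‖E z‖ ^ 2 : ℝ) : ℂ) := by rw [hrel2 z]
      push_cast at e1 e2 e3 e4 ⊢
      linear_combination conj (E z) * e1 + (1 + (c.φ z 2 : ℂ)) * e3 -
        (1 - (c.φ z 2 : ℂ)) * e2 - e4
  -- the sum of the multiplicities
  have h1 : P.natDegree = Multiset.card P.roots := by
    exact (Polynomial.splits_iff_card_roots.mp (IsAlgClosed.splits P)).symm
  have h2 : P.roots.toFinset = S := by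
    ext z
    rw [Multiset.mem_toFinset, Polynomial.mem_roots hP0]
    exact hroot z
  have h3 : (Multiset.card P.roots : ℤ) = ∑ p ∈ S, m p := by
    rw [← Multiset.toFinset_sum_count_eq, h2]
    push_cast
    apply Finset.sum_congr rfl
    intro p hp
    rw [hloc p hp, Polynomial.count_roots]
  rw [hsum] at h3
  rw [h1]
  exact_mod_cast h3

end Pool.Agent.Work.MP_089002_mp
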