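import Mathlib

open MeasureTheory Filter Topology Set Polynomial
open scoped ContDiff Real

namespace Pool.Agent.Work.MP_089002_mp

/-- an entire function without zeros is an exponential -/
theorem entire_log {g : ℂ → ℂ} (hg : Differentiable ℂ g) (h0 : ∀ z, g z ≠ 0) :
    ∃ l : ℂ → ℂ, Differentiable ℂ l ∧ ∀ z, g z = Complex.exp (l z) := by
  have hq : Differentiable ℂ (fun z => deriv g z / g z) := by
    have h1 : Differentiable ℂ (deriv g) := by
      have : ContDiff ℂ 2 g := hg.contDiff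
      exact (this.iterate_deriv' 1 1).differentiable (by norm_num)
    exact h1.div hg h0
  obtain ⟨l, hl⟩ := hq.isExactOn_univ
  have hl' : Differentiable ℂ l := fun z => (hl z (mem_univ z)).differentiableAt
  have h2 : ∀ z, HasDerivAt (fun z => g z * Complex.exp (-l z)) 0 z := by
    intro z
    have h3 := (hg z).hasDerivAt.mul ((hl z (mem_univ z)).neg.cexp)
    refine HasDerivAt.congr_deriv (f' := _) h3 ?_
    have := h0 z
    field_simp
    simp
  have h4 : ∀ z, g z * Complex.exp (-l z) = g 0 * Complex.exp (-l 0) := by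
    intro z
    exact is_const_of_deriv_eq_zero (𝕜 := ℂ) (f := fun z => g z * Complex.exp (-l z))
      (fun z => (h2 z).differentiableAt) (fun z => (h2 z).deriv) z 0
  have h5 : g 0 * Complex.exp (-l 0) ≠ 0 := mul_ne_zero (h0 0) (Complex.exp_ne_zero _)
  refine ⟨fun z => l z + Complex.log (g 0 * Complex.exp (-l 0)), hl'.add_const _, fun z => ?_⟩
  rw [Complex.exp_add, Complex.exp_log h5, ← h4 z, Complex.exp_neg]
  have := Complex.exp_ne_zero (l z)
  field_simp

/-- divide out one zero -/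
theorem entire_div {H : ℂ → ℂ} (hH : Differentiable ℂ H) {z₀ : ℂ} (h0 : H z₀ = 0) :
    ∃ G : ℂ → ℂ, Differentiable ℂ G ∧ ∀ z, H z = (z - z₀) * G z := by
  refine ⟨dslope H z₀, ?_, fun z => ?_⟩
  · rw [← differentiableOn_univ]
    exact (Complex.differentiableOn_dslope univ_mem).2 hH.differentiableOn
  · have := sub_smul_dslope H z₀ z
    rw [h0, sub_zero, smul_eq_mul] at this
    exact this.symm

section

variable {h1 h2 : ℂ → ℂ} {S Z : Set ℂ}

theorem finite_S (hS : IsClosed S) (hZ : IsClosed Z) (hb : Bornology.IsBounded S)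
    (hSZ : ∀ z ∈ S, z ∉ Z) (d2 : ∀ z, z ∉ Z → DifferentiableAt ℂ h2 z)
    (h12 : ∀ z, z ∉ S → z ∉ Z → h1 z * h2 z = 1) (z2 : ∀ z ∈ S, h2 z = 0) : S.Finite := by
  have hZo : IsOpen Zᶜ := hZ.isOpen_compl
  have han : ∀ z, z ∉ Z → AnalyticAt ℂ h2 z := by
    intro z hz
    have : DifferentiableOn ℂ h2 Zᶜ := fun w hw => (d2 w hw).differentiableWithinAt
    exact this.analyticAt (hZo.mem_nhds hz)
  have hiff : ∀ z, z ∉ Z → (h2 z = 0 ↔ z ∈ S) := by
    intro z hz
    refine ⟨fun h => ?_, z2 z⟩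
    by_contra hzS
    have := h12 z hzS hz
    rw [h, mul_zero] at this
    exact zero_ne_one this
  have hdich : ∀ z ∈ S, (z ∈ interior S) ∨ (∀ᶠ w in 𝓝 z, w ≠ z → w ∉ S) := by
    intro z hz
    have hz' := hSZ z hz
    have hev : ∀ᶠ w in 𝓝 z, w ∉ Z := hZo.mem_nhds hz'
    rcases (han z hz').eventually_eq_zero_or_eventually_ne_zero with h | h
    · left
      rw [mem_interior_iff_mem_nhds]
      filter_upwards [h, hev] with w hw1 hw2
      exact (hiff w hw2).1 hw1
    · right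
      rw [eventually_nhdsWithin_iff] at h
      filter_upwards [h, hev] with w hw1 hw2 hw3 hw4
      exact hw1 hw3 ((hiff w hw2).2 hw4)
  have hclo : IsClosed (interior S) := by
    apply isClosed_of_closure_subset
    intro z hz
    have hzS : z ∈ S := by
      have := closure_mono interior_subset hz
      rwa [hS.closure_eq] at this
    rcases hdich z hzS with h | h
    · exact h
    · have h3 := mem_closure_iff_frequently.1 hz
      obtain ⟨w, hw1, hw2⟩ := (h3.and_eventually h).exists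
      by_contra hne
      have : w ≠ z := fun e => hne (e ▸ hw1)
      exact hw2 this (interior_subset hw1)
  have hint : interior S = ∅ := by
    rcases isClopen_iff.1 ⟨hclo, isOpen_interior⟩ with h | h
    · exact h
    · exfalso
      have : S = univ := by
        apply eq_univ_of_univ_subset
        rw [← h]; exact interior_subset
      rw [this] at hb
      exact NormedSpace.unbounded_univ ℝ ℂ hb
  have hcomp : IsCompact S := Metric.isCompact_of_isClosed_isBounded hS hb
  have h4 : ∀ z ∈ S, {w | w ≠ z → w ∉ S} ∈ 𝓝 z := by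
    intro z hz
    rcases hdich z hz with h | h
    · rw [hint] at h; exact absurd h (notMem_empty _)
    · exact h
  obtain ⟨t, ht1, ht2⟩ := hcomp.elim_nhds_subcover (fun z => {w | w ≠ z → w ∉ S}) h4
  refine Set.Finite.subset t.finite_toSet fun w hw => ?_
  obtain ⟨z, hz, hwz⟩ := mem_iUnion₂.1 (ht2 hw)
  by_cases e : w = z
  · rw [e]; exact hz
  · exact absurd hw (hwz e)

theorem exists_num (hS : S.Finite) (hZ : IsClosed Z)
    (hSZ : ∀ z ∈ S, z ∉ Z) (d1 : ∀ z, z ∉ S → DifferentiableAt ℂ h1 z)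
    (d2 : ∀ z, z ∉ Z → DifferentiableAt ℂ h2 z)
    (h12 : ∀ z, z ∉ S → z ∉ Z → h1 z * h2 z = 1) :
    ∃ (P : ℂ[X]) (H : ℂ → ℂ), P.Monic ∧ Differentiable ℂ H ∧ ∀ z, z ∉ S → P.eval z * h1 z = H z := by
  classical
  have hZo : IsOpen Zᶜ := hZ.isOpen_compl
  have hmer : ∀ p ∈ S, ∃ n : ℕ, AnalyticAt ℂ (fun z => (z - p) ^ n • h1 z) p := by
    intro p hp
    have hp' := hSZ p hp
    have han : AnalyticAt ℂ h2 p := by
      have : DifferentiableOn ℂ h2 Zᶜ := fun w hw => (d2 w hw).differentiableWithinAt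
      exact this.analyticAt (hZo.mem_nhds hp')
    have hm : MeromorphicAt h2⁻¹ p := han.meromorphicAt.inv
    have hm2 : MeromorphicAt h1 p := by
      refine hm.congr ?_
      have hev : ∀ᶠ w in 𝓝[≠] p, w ∉ Z := nhdsWithin_le_nhds (hZo.mem_nhds hp')
      have hev2 : ∀ᶠ w in 𝓝[≠] p, w ∉ S := by
        have hcl : IsClosed (S \ {p}) := (hS.subset sdiff_subset).isClosed
        have hmem : (S \ {p})ᶜ ∈ 𝓝 p := hcl.isOpen_compl.mem_nhds (by simp)
        have := nhdsWithin_le_nhds (s := {p}ᶜ) hmem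
        filter_upwards [this, self_mem_nhdsWithin] with w hw1 hw2 hw3
        exact hw1 ⟨hw3, hw2⟩
      filter_upwards [hev, hev2] with w hw1 hw2
      have := h12 w hw2 hw1
      rw [Pi.inv_apply]
      exact (eq_inv_of_mul_eq_one_left this).symm
    exact hm2
  choose! n hn using hmer
  set F := hS.toFinset with hF
  refine ⟨∏ p ∈ F, (X - C p) ^ n p, fun z => (∏ p ∈ F, (X - C p) ^ n p).eval z * h1 z,
    monic_prod_of_monic _ _ (fun p _ => (monic_X_sub_C p).pow _), ?_, fun z _ => rfl⟩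
  intro z
  by_cases hz : z ∈ S
  · have hzF : z ∈ F := by simpa [hF] using hz
    have e : (fun w => (∏ p ∈ F, (X - C p) ^ n p).eval w * h1 w) =
        fun w => (∏ p ∈ F.erase z, (X - C p) ^ n p).eval w * ((w - z) ^ n z • h1 w) := by
      ext w
      rw [← Finset.mul_prod_erase F _ hzF, eval_mul]
      simp only [eval_pow, eval_sub, eval_X, eval_C, smul_eq_mul]
      ring
    rw [e]
    exact (Polynomial.differentiable _ z).mul (hn z hz).differentiableAt
  · exact (Polynomial.differentiable _ z).mul (d1 z hz)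

theorem exists_num_min (hS : S.Finite) (hZ : IsClosed Z)
    (hSZ : ∀ z ∈ S, z ∉ Z) (d1 : ∀ z, z ∉ S → DifferentiableAt ℂ h1 z)
    (d2 : ∀ z, z ∉ Z → DifferentiableAt ℂ h2 z)
    (h12 : ∀ z, z ∉ S → z ∉ Z → h1 z * h2 z = 1) :
    ∃ (P : ℂ[X]) (H : ℂ → ℂ), P.Monic ∧ Differentiable ℂ H ∧
      (∀ z, z ∉ S → P.eval z * h1 z = H z) ∧ (∀ z, P.eval z = 0 → H z ≠ 0) := by
  classical
  have hex : ∃ d : ℕ, ∃ (P : ℂ[X]) (H : ℂ → ℂ), P.natDegree = d ∧ P.Monic ∧ Differentiable ℂ H ∧
      ∀ z, z ∉ S → P.eval z * h1 z = H z := by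
    obtain ⟨P, H, h⟩ := exists_num hS hZ hSZ d1 d2 h12
    exact ⟨_, P, H, rfl, h⟩
  obtain ⟨P, H, hd, hP, hH, hr⟩ := Nat.find_spec hex
  refine ⟨P, H, hP, hH, hr, fun z₀ hz₀ hH0 => ?_⟩
  obtain ⟨P₁, hP₁⟩ := dvd_iff_isRoot.2 hz₀
  obtain ⟨H₁, hH₁, hH₁e⟩ := entire_div hH hH0
  have hP₁m : P₁.Monic := by
    refine (monic_X_sub_C z₀).of_mul_monic_left ?_
    rw [← hP₁]; exact hP
  have hdeg : P₁.natDegree + 1 = P.natDegree := by
    rw [hP₁, (monic_X_sub_C z₀).natDegree_mul hP₁m, natDegree_X_sub_C]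
    ring
  refine Nat.find_min hex (m := P₁.natDegree) (by omega) ⟨P₁, H₁, rfl, hP₁m, hH₁, fun z hz => ?_⟩
  have key : ∀ w, w ∉ S → w ≠ z₀ → P₁.eval w * h1 w = H₁ w := by
    intro w hw hwz
    have h3 := hr w hw
    rw [hP₁, eval_mul, hH₁e w] at h3
    simp only [eval_sub, eval_X, eval_C] at h3
    have : w - z₀ ≠ 0 := sub_ne_zero.2 hwz
    apply mul_left_cancel₀ this
    rw [← h3]; ring
  by_cases e : z = z₀
  · subst e
    have hSo : IsOpen Sᶜ := hS.isClosed.isOpen_compl
    have t1 : Tendsto (fun w => P₁.eval w * h1 w) (𝓝[≠] z) (𝓝 (P₁.eval z * h1 z)) :=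
      ((Polynomial.continuous P₁).continuousAt.mul (d1 z hz).continuousAt).tendsto.mono_left
        nhdsWithin_le_nhds
    have t2 : Tendsto H₁ (𝓝[≠] z) (𝓝 (H₁ z)) :=
      (hH₁ z).continuousAt.tendsto.mono_left nhdsWithin_le_nhds
    refine tendsto_nhds_unique_of_eventuallyEq t1 t2 ?_
    filter_upwards [nhdsWithin_le_nhds (hSo.mem_nhds hz), self_mem_nhdsWithin] with w hw1 hw2
    exact key w hw1 hw2
  · exact key z hz e

end

end Pool.Agent.Work.MP_089002_mp
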