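import Pool.Agent.Work.MP_089002_mp.Contin

set_option autoImplicit false

open MeasureTheory Filter Topology Set Bornology Metric
open scoped ContDiff Real

namespace Pool.Agent.Work.MP_089002_mp

/-- a nonzero polynomial splits off its root at a point -/
theorem split_root {A : Polynomial ℂ} (hA : A ≠ 0) (z1 : ℂ) : ∃ A1 : Polynomial ℂ,
    A = (Polynomial.X - Polynomial.C z1) ^ (A.rootMultiplicity z1) * A1 ∧ A1.eval z1 ≠ 0 := by
  obtain ⟨A1, h1, h2⟩ := A.exists_eq_pow_rootMultiplicity_mul_and_not_dvd hA z1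
  exact ⟨A1, h1, fun h => h2 (Polynomial.dvd_iff_isRoot.mpr h)⟩

theorem mult_of_approx {A B : Polynomial ℂ} (hA : A ≠ 0) (hB : B ≠ 0) (z1 : ℂ)
    (H : ∀ K : Set ℂ, IsCompact K → (∀ z ∈ K, A.eval z ≠ 0 ∧ B.eval z ≠ 0) →
      ∃ v : ℂ → ℝ, ContDiff ℝ 2 v ∧ (∀ z ∈ closedBall z1 1, |lap v z| ≤ 1) ∧
        ∀ z ∈ K, |v z - Real.log (‖A.eval z‖ / ‖B.eval z‖)| ≤ 1) :
    A.rootMultiplicity z1 = B.rootMultiplicity z1 := by
  obtain ⟨A1, hA1, hA1'⟩ := split_root hA z1
  obtain ⟨B1, hB1, hB1'⟩ := split_root hB z1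
  set a := A.rootMultiplicity z1 with ha
  set b := B.rootMultiplicity z1 with hb
  -- the regular part is bounded near `z1`
  have hcont : ContinuousAt (fun z => Real.log (‖A1.eval z‖ / ‖B1.eval z‖)) z1 := by
    apply ContinuousAt.log
    · exact (A1.continuous.norm.continuousAt).div (B1.continuous.norm.continuousAt)
        (norm_ne_zero_iff.mpr hB1')
    · exact div_ne_zero (norm_ne_zero_iff.mpr hA1') (norm_ne_zero_iff.mpr hB1')
  set C := |Real.log (‖A1.eval z1‖ / ‖B1.eval z1‖)| + 1 with hC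
  have hev1 : ∀ᶠ z in 𝓝 z1, |Real.log (‖A1.eval z‖ / ‖B1.eval z‖)| ≤ C := by
    have h1 := hcont.abs.eventually_lt (continuousAt_const (y := C)) (by
      rw [hC]
      linarith)
    filter_upwards [h1] with z hz using hz.le
  have hev2 : ∀ᶠ z in 𝓝 z1, A1.eval z ≠ 0 := A1.continuous.continuousAt.eventually_ne hA1'
  have hev3 : ∀ᶠ z in 𝓝 z1, B1.eval z ≠ 0 := B1.continuous.continuousAt.eventually_ne hB1'
  obtain ⟨ε, hε, hball⟩ := Metric.eventually_nhds_iff.mp (hev1.and (hev2.and hev3))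
  obtain ⟨s, hs0, hsε⟩ : ∃ s : ℝ, s ≤ 0 ∧ Real.exp s < ε := by
    refine ⟨min 0 (Real.log (ε / 2)), min_le_left _ _, ?_⟩
    calc Real.exp (min 0 (Real.log (ε / 2))) ≤ Real.exp (Real.log (ε / 2)) :=
          Real.exp_le_exp.mpr (min_le_right _ _)
      _ = ε / 2 := Real.exp_log (by positivity)
      _ < ε := by linarith
  have hC0 : 0 ≤ C := by positivity
  set T := 4 * (C + 1) + 1 with hT
  have hT0 : 0 < T := by positivity
  have hexpT : Real.exp (s - T) ≤ Real.exp s := Real.exp_le_exp.mpr (by linarith)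
  set K := sphere z1 (Real.exp s) ∪ sphere z1 (Real.exp (s - T)) with hK
  have hKc : IsCompact K := (isCompact_sphere _ _).union (isCompact_sphere _ _)
  have hKd : ∀ z ∈ K, dist z z1 < ε ∧ z ≠ z1 := by
    intro z hz
    rcases hz with hz | hz
    · rw [mem_sphere] at hz
      refine ⟨by rw [hz]; exact hsε, ?_⟩
      rintro rfl
      rw [dist_self] at hz
      exact (Real.exp_pos s).ne hz
    · rw [mem_sphere] at hz
      refine ⟨by rw [hz]; linarith, ?_⟩
      rintro rfl
      rw [dist_self] at hz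
      exact (Real.exp_pos (s - T)).ne hz
  have hAe : ∀ z, A.eval z = (z - z1) ^ a * A1.eval z := by
    intro z
    conv_lhs => rw [hA1]
    simp
  have hBe : ∀ z, B.eval z = (z - z1) ^ b * B1.eval z := by
    intro z
    conv_lhs => rw [hB1]
    simp
  obtain ⟨v, hv, hvl, hvK⟩ := H K hKc (by
    intro z hz
    obtain ⟨h1, h2⟩ := hKd z hz
    obtain ⟨-, h3, h4⟩ := hball h1
    rw [hAe, hBe]
    exact ⟨mul_ne_zero (pow_ne_zero _ (sub_ne_zero.mpr h2)) h3,
      mul_ne_zero (pow_ne_zero _ (sub_ne_zero.mpr h2)) h4⟩)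
  have key : ∀ (r : ℝ), ∀ z ∈ K, ‖z - z1‖ = Real.exp r →
      |v z - (((a : ℤ) - (b : ℤ) : ℤ) : ℝ) * r| ≤ C + 1 := by
    intro r z hz hzr
    obtain ⟨h1, h2⟩ := hKd z hz
    obtain ⟨h3, h4, h5⟩ := hball h1
    have h6 := hvK z hz
    have hlog : Real.log (‖A.eval z‖ / ‖B.eval z‖) = (((a : ℤ) - (b : ℤ) : ℤ) : ℝ) * r +
        Real.log (‖A1.eval z‖ / ‖B1.eval z‖) := by
      have hA1n : ‖A1.eval z‖ ≠ 0 := norm_ne_zero_iff.mpr h4
      have hB1n : ‖B1.eval z‖ ≠ 0 := norm_ne_zero_iff.mpr h5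
      have hzn : ‖z - z1‖ ≠ 0 := norm_ne_zero_iff.mpr (sub_ne_zero.mpr h2)
      rw [hAe, hBe, norm_mul, norm_mul, norm_pow, norm_pow,
        Real.log_div (mul_ne_zero (pow_ne_zero _ hzn) hA1n)
          (mul_ne_zero (pow_ne_zero _ hzn) hB1n),
        Real.log_mul (pow_ne_zero _ hzn) hA1n, Real.log_mul (pow_ne_zero _ hzn) hB1n,
        Real.log_pow, Real.log_pow, Real.log_div hA1n hB1n, hzr, Real.log_exp]
      push_cast
      ring
    rw [hlog] at h6
    calc |v z - (((a : ℤ) - (b : ℤ) : ℤ) : ℝ) * r|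
        = |(v z - ((((a : ℤ) - (b : ℤ) : ℤ) : ℝ) * r + Real.log (‖A1.eval z‖ / ‖B1.eval z‖))) +
          Real.log (‖A1.eval z‖ / ‖B1.eval z‖)| := by
          congr 1; ring
      _ ≤ 1 + C := by
          refine (abs_add_le _ _).trans ?_
          gcongr
      _ = C + 1 := by ring
  have := mult_core hv hvl (k := (a : ℤ) - (b : ℤ)) (C := C) (s := s) (T := T) hs0
    (by rw [hT]; linarith) hT0
    (by
      intro z hz
      exact key s z (Or.inl (by rw [mem_sphere, dist_eq_norm]; exact hz)) hz)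
    (by
      intro z hz
      exact key (s - T) z (Or.inr (by rw [mem_sphere, dist_eq_norm]; exact hz)) hz)
  have h7 : (a : ℤ) = b := by linarith
  exact_mod_cast h7

theorem eq_C_mul_of_mult {A B : Polynomial ℂ} (hA : A ≠ 0) (hB : B ≠ 0)
    (h : ∀ z, A.rootMultiplicity z = B.rootMultiplicity z) :
    ∃ c : ℂ, c ≠ 0 ∧ A = Polynomial.C c * B := by
  have hroots : A.roots = B.roots := by
    classical
    ext z
    rw [Polynomial.count_roots, Polynomial.count_roots, h z]
  have eA : A = Polynomial.C A.leadingCoeff * (A.roots.map fun a => Polynomial.X -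
      Polynomial.C a).prod :=
    (IsAlgClosed.splits A).eq_prod_roots
  have eB : B = Polynomial.C B.leadingCoeff * (B.roots.map fun a => Polynomial.X -
      Polynomial.C a).prod :=
    (IsAlgClosed.splits B).eq_prod_roots
  have hlA : A.leadingCoeff ≠ 0 := Polynomial.leadingCoeff_ne_zero.mpr hA
  have hlB : B.leadingCoeff ≠ 0 := Polynomial.leadingCoeff_ne_zero.mpr hB
  refine ⟨A.leadingCoeff / B.leadingCoeff, div_ne_zero hlA hlB, ?_⟩
  have h1 := congrArg (fun p => Polynomial.C (A.leadingCoeff / B.leadingCoeff) * p) eB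
  rw [h1, ← mul_assoc, ← Polynomial.C_mul, div_mul_cancel₀ _ hlB, ← hroots]
  exact eA

/-- evaluation of a coefficient vector -/
noncomputable def ev {k : ℕ} (x : Fin k → ℂ) (z : ℂ) : ℂ := ∑ i, x i * z ^ (i : ℕ)

theorem continuous_ev {k : ℕ} : Continuous fun p : (Fin k → ℂ) × ℂ => ev p.1 p.2 := by
  unfold ev
  fun_prop

noncomputable def toP {k : ℕ} (x : Fin k → ℂ) : Polynomial ℂ :=
  ∑ i, Polynomial.C (x i) * Polynomial.X ^ (i : ℕ)

theorem eval_toP {k : ℕ} (x : Fin k → ℂ) (z : ℂ) : (toP x).eval z = ev x z := by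
  unfold toP ev
  rw [Polynomial.eval_finsetSum]
  simp

theorem coeff_toP {k : ℕ} (x : Fin k → ℂ) (j : Fin k) : (toP x).coeff j = x j := by
  unfold toP
  rw [Polynomial.finsetSum_coeff]
  simp only [Polynomial.coeff_C_mul, Polynomial.coeff_X_pow]
  rw [Finset.sum_eq_single j]
  · simp
  · intro b _ hb
    have : (j : ℕ) ≠ (b : ℕ) := fun h => hb (Fin.ext h.symm)
    simp [this]
  · simp

theorem natDegree_toP {k : ℕ} (x : Fin (k + 1) → ℂ) : (toP x).natDegree ≤ k := by
  unfold toP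
  apply Polynomial.natDegree_sum_le_of_forall_le
  intro i _
  refine (Polynomial.natDegree_C_mul_X_pow_le _ _).trans ?_
  omega

theorem toP_ne_zero {k : ℕ} {x : Fin k → ℂ} (hx : x ≠ 0) : toP x ≠ 0 := by
  intro h
  apply hx
  funext j
  have := coeff_toP x j
  rw [h] at this
  simpa using this.symm

/-- the coefficient vector of a polynomial -/
def cv (k : ℕ) (P : Polynomial ℂ) : Fin k → ℂ := fun i => P.coeff i

theorem ev_cv {k : ℕ} {P : Polynomial ℂ} (h : P.natDegree < k) (z : ℂ) :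
    ev (cv k P) z = P.eval z := by
  unfold ev cv
  rw [Polynomial.eval_eq_sum_range' h, ← Fin.sum_univ_eq_sum_range (fun i => P.coeff i * z ^ i)]

theorem ev_smul {k : ℕ} (c : ℂ) (x : Fin k → ℂ) (z : ℂ) : ev (c • x) z = c * ev x z := by
  unfold ev
  rw [Finset.mul_sum]
  apply Finset.sum_congr rfl
  intro i _
  simp [mul_assoc]

theorem lap_add_const {g : ℂ → ℝ} (c : ℝ) (z : ℂ) : lap (fun z => g z + c) z = lap g z := by
  unfold lap
  have : ∀ z, fderiv ℝ (fun z => g z + c) z = fderiv ℝ g z := fun z => fderiv_add_const c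
  simp_rw [this]

theorem poly_core_aux {N M : ℕ} {P0 Q0 : Polynomial ℂ} (hP0 : P0.Monic) (hQ0 : Q0.Monic)
    (hPd : P0.natDegree = N) (hQd : Q0.natDegree = M)
    (hco : ∀ z, P0.eval z = 0 → Q0.eval z ≠ 0) {P Q : ℕ → Polynomial ℂ}
    (hP : ∀ n, (P n).Monic) (hQ : ∀ n, (Q n).Monic)
    (hPn : ∀ n, (P n).natDegree = N) (hQn : ∀ n, (Q n).natDegree ≤ M)
    {g : ℕ → ℂ → ℝ} (hg : ∀ n, ContDiff ℝ 2 (g n))
    (hlap : ∀ R : ℝ, ∀ ε > 0, ∀ᶠ n in atTop, ∀ z : ℂ, ‖z‖ ≤ R → |lap (g n) z| ≤ ε)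
    (hlim : ∀ K : Set ℂ, IsCompact K → (∀ z ∈ K, P0.eval z ≠ 0 ∧ Q0.eval z ≠ 0) → ∀ ε > 0,
      ∀ᶠ n in atTop, ∀ z ∈ K, |Real.exp (g n z) * ‖(Q n).eval z * P0.eval z‖ -
        ‖(P n).eval z * Q0.eval z‖| ≤ ε * ‖(P n).eval z * Q0.eval z‖)
    {x : Fin (N + 1) → ℂ} {y : Fin (M + 1) → ℂ} (hx : x ≠ 0) (hy : y ≠ 0)
    {a b : ℕ → ℝ} (ha : ∀ n, 0 < a n) (hb : ∀ n, 0 < b n)
    (hax : Tendsto (fun n => ((a n : ℂ)⁻¹) • cv (N + 1) (P n)) atTop (𝓝 x))
    (hby : Tendsto (fun n => ((b n : ℂ)⁻¹) • cv (M + 1) (Q n)) atTop (𝓝 y)) :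
    (∀ i, Tendsto (fun n => (P n).coeff i) atTop (𝓝 (P0.coeff i))) ∧
    (∀ i, Tendsto (fun n => (Q n).coeff i) atTop (𝓝 (Q0.coeff i))) := by
  have hP00 := hP0.ne_zero
  have hQ00 := hQ0.ne_zero
  have hxP := toP_ne_zero hx
  have hyP := toP_ne_zero hy
  have hA : toP x * Q0 ≠ 0 := mul_ne_zero hxP hQ00
  have hB : toP y * P0 ≠ 0 := mul_ne_zero hyP hP00
  have hmult : ∀ z1, (toP x * Q0).rootMultiplicity z1 = (toP y * P0).rootMultiplicity z1 := by
    intro z1
    apply mult_of_approx hA hB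
    intro K hK hKne
    have hne : ∀ z ∈ K, ev x z ≠ 0 ∧ Q0.eval z ≠ 0 ∧ ev y z ≠ 0 ∧ P0.eval z ≠ 0 := by
      intro z hz
      have := hKne z hz
      rw [Polynomial.eval_mul, Polynomial.eval_mul, eval_toP, eval_toP] at this
      exact ⟨left_ne_zero_of_mul this.1, right_ne_zero_of_mul this.1,
        left_ne_zero_of_mul this.2, right_ne_zero_of_mul this.2⟩
    -- continuity in the coefficient vectors, uniformly on K
    have hunif : ∀ᶠ p : (Fin (N + 1) → ℂ) × (Fin (M + 1) → ℂ) in 𝓝 (x, y), ∀ z ∈ K,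
        (ev p.1 z ≠ 0 ∧ ev p.2 z ≠ 0) ∧
        |Real.log (‖ev p.1 z * Q0.eval z‖ / ‖ev p.2 z * P0.eval z‖) -
          Real.log (‖ev x z * Q0.eval z‖ / ‖ev y z * P0.eval z‖)| < 1 / 2 := by
      apply hK.eventually_forall_of_forall_eventually
      intro z hz
      obtain ⟨n1, n2, n3, n4⟩ := hne z hz
      have c1 : Continuous fun q : ((Fin (N + 1) → ℂ) × (Fin (M + 1) → ℂ)) × ℂ =>
          ev q.1.1 q.2 := continuous_ev.comp (by fun_prop :
            Continuous fun q : ((Fin (N + 1) → ℂ) × (Fin (M + 1) → ℂ)) × ℂ => (q.1.1, q.2))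
      have c2 : Continuous fun q : ((Fin (N + 1) → ℂ) × (Fin (M + 1) → ℂ)) × ℂ =>
          ev q.1.2 q.2 := continuous_ev.comp (by fun_prop :
            Continuous fun q : ((Fin (N + 1) → ℂ) × (Fin (M + 1) → ℂ)) × ℂ => (q.1.2, q.2))
      have c3 : Continuous fun q : ((Fin (N + 1) → ℂ) × (Fin (M + 1) → ℂ)) × ℂ =>
          Q0.eval q.2 := Q0.continuous.comp continuous_snd
      have c4 : Continuous fun q : ((Fin (N + 1) → ℂ) × (Fin (M + 1) → ℂ)) × ℂ =>
          P0.eval q.2 := P0.continuous.comp continuous_snd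
      have c5 : Continuous fun q : ((Fin (N + 1) → ℂ) × (Fin (M + 1) → ℂ)) × ℂ =>
          ev x q.2 := continuous_ev.comp (by fun_prop :
            Continuous fun q : ((Fin (N + 1) → ℂ) × (Fin (M + 1) → ℂ)) × ℂ => (x, q.2))
      have c6 : Continuous fun q : ((Fin (N + 1) → ℂ) × (Fin (M + 1) → ℂ)) × ℂ =>
          ev y q.2 := continuous_ev.comp (by fun_prop :
            Continuous fun q : ((Fin (N + 1) → ℂ) × (Fin (M + 1) → ℂ)) × ℂ => (y, q.2))
      have d1 : ∀ᶠ q in 𝓝 (((x, y), z) : ((Fin (N + 1) → ℂ) × (Fin (M + 1) → ℂ)) × ℂ),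
          ev q.1.1 q.2 ≠ 0 := c1.continuousAt.eventually_ne n1
      have d2 : ∀ᶠ q in 𝓝 (((x, y), z) : ((Fin (N + 1) → ℂ) × (Fin (M + 1) → ℂ)) × ℂ),
          ev q.1.2 q.2 ≠ 0 := c2.continuousAt.eventually_ne n3
      have e1 : ContinuousAt (fun q : ((Fin (N + 1) → ℂ) × (Fin (M + 1) → ℂ)) × ℂ =>
          Real.log (‖ev q.1.1 q.2 * Q0.eval q.2‖ / ‖ev q.1.2 q.2 * P0.eval q.2‖) -
          Real.log (‖ev x q.2 * Q0.eval q.2‖ / ‖ev y q.2 * P0.eval q.2‖)) ((x, y), z) := by
        apply ContinuousAt.sub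
        · apply ContinuousAt.log
          · apply ContinuousAt.div
            · exact (c1.mul c3).norm.continuousAt
            · exact (c2.mul c4).norm.continuousAt
            · exact norm_ne_zero_iff.mpr (mul_ne_zero n3 n4)
          · exact div_ne_zero (norm_ne_zero_iff.mpr (mul_ne_zero n1 n2))
              (norm_ne_zero_iff.mpr (mul_ne_zero n3 n4))
        · apply ContinuousAt.log
          · apply ContinuousAt.div
            · exact (c5.mul c3).norm.continuousAt
            · exact (c6.mul c4).norm.continuousAt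
            · exact norm_ne_zero_iff.mpr (mul_ne_zero n3 n4)
          · exact div_ne_zero (norm_ne_zero_iff.mpr (mul_ne_zero n1 n2))
              (norm_ne_zero_iff.mpr (mul_ne_zero n3 n4))
      have e2 := e1.abs.eventually_lt (continuousAt_const (y := (1 / 2 : ℝ))) (by
        simp)
      filter_upwards [d1, d2, e2] with q h1 h2 h3
      exact ⟨⟨h1, h2⟩, h3⟩
    have hseq := (hax.prodMk_nhds hby).eventually hunif
    obtain ⟨n, hn1, hn2, hn3⟩ := (hseq.and ((hlap (‖z1‖ + 1) 1 one_pos).and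
      (hlim K hK (fun z hz => ⟨(hne z hz).2.2.2, (hne z hz).2.1⟩) (1 / 4) (by norm_num)))).exists
    refine ⟨fun z => g n z + Real.log (b n / a n), (hg n).add contDiff_const, ?_, ?_⟩
    · intro z hz
      rw [lap_add_const]
      apply hn2
      rw [mem_closedBall, dist_eq_norm] at hz
      have := norm_sub_norm_le z z1
      linarith
    · intro z hz
      obtain ⟨⟨m1, m2⟩, m3⟩ := hn1 z hz
      obtain ⟨n1, n2, n3, n4⟩ := hne z hz
      have h4 := hn3 z hz
      simp only [ev_smul] at m1 m2 m3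
      rw [ev_cv (by rw [hPn]; omega)] at m1 m3
      rw [ev_cv (lt_of_le_of_lt (hQn n) (by omega))] at m2 m3
      have hPz : (P n).eval z ≠ 0 := right_ne_zero_of_mul m1
      have hQz : (Q n).eval z ≠ 0 := right_ne_zero_of_mul m2
      set p := ‖(P n).eval z * Q0.eval z‖ with hp
      set q := ‖(Q n).eval z * P0.eval z‖ with hq
      have hppos : 0 < p := norm_pos_iff.mpr (mul_ne_zero hPz n2)
      have hqpos : 0 < q := norm_pos_iff.mpr (mul_ne_zero hQz n4)
      have hra : ‖(a n : ℂ)⁻¹ * (P n).eval z * Q0.eval z‖ = (a n)⁻¹ * p := by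
        rw [mul_assoc, norm_mul, norm_inv, Complex.norm_real, Real.norm_of_nonneg (ha n).le]
      have hrb : ‖(b n : ℂ)⁻¹ * (Q n).eval z * P0.eval z‖ = (b n)⁻¹ * q := by
        rw [mul_assoc, norm_mul, norm_inv, Complex.norm_real, Real.norm_of_nonneg (hb n).le]
      rw [hra, hrb] at m3
      have hlogr : Real.log ((a n)⁻¹ * p / ((b n)⁻¹ * q)) =
          Real.log (p / q) + Real.log (b n / a n) := by
        have h1 := (ha n).ne'
        have h2 := (hb n).ne'
        rw [← Real.log_mul (div_ne_zero hppos.ne' hqpos.ne') (div_ne_zero h2 h1)]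
        congr 1
        field_simp
      rw [hlogr] at m3
      -- g n z is close to log (p/q)
      have h5 : |g n z - Real.log (p / q)| ≤ 1 / 2 := by
        have h6 := abs_le.mp h4
        have h7 : Real.exp (g n z) ≤ 5 / 4 * (p / q) := by
          rw [mul_div_assoc', le_div_iff₀ hqpos]
          linarith
        have h8 : 3 / 4 * (p / q) ≤ Real.exp (g n z) := by
          rw [mul_div_assoc', div_le_iff₀ hqpos]
          linarith
        have hpq : 0 < p / q := div_pos hppos hqpos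
        have h9 : g n z ≤ Real.log (5 / 4) + Real.log (p / q) := by
          rw [← Real.log_mul (by norm_num) hpq.ne', Real.le_log_iff_exp_le (by positivity)]
          exact h7
        have h10 : Real.log (3 / 4) + Real.log (p / q) ≤ g n z := by
          rw [← Real.log_mul (by norm_num) hpq.ne', Real.log_le_iff_le_exp (by positivity)]
          exact h8
        have h11 : Real.log (5 / 4) ≤ 1 / 2 := by
          have := Real.log_le_sub_one_of_pos (show (0 : ℝ) < 5 / 4 by norm_num)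
          linarith
        have h12 : -(1 / 2) ≤ Real.log (3 / 4) := by
          have := Real.one_sub_inv_le_log_of_pos (show (0 : ℝ) < 3 / 4 by norm_num)
          norm_num at this ⊢
          linarith
        rw [abs_le]
        constructor <;> linarith
      rw [Polynomial.eval_mul, Polynomial.eval_mul, eval_toP, eval_toP]
      calc |g n z + Real.log (b n / a n) -
            Real.log (‖ev x z * Q0.eval z‖ / ‖ev y z * P0.eval z‖)|
          = |(g n z - Real.log (p / q)) + (Real.log (p / q) + Real.log (b n / a n) -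
            Real.log (‖ev x z * Q0.eval z‖ / ‖ev y z * P0.eval z‖))| := by
            congr 1; ring
        _ ≤ 1 / 2 + 1 / 2 := by
            refine (abs_add_le _ _).trans ?_
            gcongr
        _ = 1 := by norm_num
  obtain ⟨c, hc, hAB⟩ := eq_C_mul_of_mult hA hB hmult
  have hcop : IsCoprime P0 Q0 := by
    rw [Polynomial.isCoprime_iff_aeval_ne_zero_of_isAlgClosed ℂ ℂ]
    intro z
    by_cases h : P0.eval z = 0
    · right
      simpa using hco z h
    · left
      simpa using h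
  -- the limits are multiples of P0, Q0
  obtain ⟨μ, hμ, hxμ⟩ : ∃ μ : ℂ, μ ≠ 0 ∧ toP x = Polynomial.C μ * P0 := by
    have h1 : P0 ∣ toP x * Q0 := ⟨Polynomial.C c * toP y, by rw [hAB]; ring⟩
    obtain ⟨R, hR⟩ := hcop.dvd_of_dvd_mul_right h1
    have hR0 : R ≠ 0 := by
      rintro rfl
      rw [mul_zero] at hR
      exact hxP hR
    have h2 : (toP x).natDegree = N + R.natDegree := by
      rw [hR, Polynomial.natDegree_mul hP00 hR0, hPd]
    have h3 : R.natDegree = 0 := by
      have := natDegree_toP x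
      omega
    rw [Polynomial.natDegree_eq_zero] at h3
    obtain ⟨μ, rfl⟩ := h3
    refine ⟨μ, ?_, by rw [hR, mul_comm]⟩
    rintro rfl
    simp at hR0
  obtain ⟨ν, hν, hyν⟩ : ∃ ν : ℂ, ν ≠ 0 ∧ toP y = Polynomial.C ν * Q0 := by
    refine ⟨μ / c, div_ne_zero hμ hc, ?_⟩
    have h1 : P0 * (Polynomial.C μ * Q0) = P0 * (Polynomial.C c * toP y) := by
      rw [hxμ] at hAB
      linear_combination hAB
    have h2 := mul_left_cancel₀ hP00 h1
    have h3 : toP y = Polynomial.C c⁻¹ * (Polynomial.C c * toP y) := by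
      rw [← mul_assoc, ← Polynomial.C_mul, inv_mul_cancel₀ hc, Polynomial.C_1, one_mul]
    rw [h3, ← h2, ← mul_assoc, ← Polynomial.C_mul]
    congr 2
    field_simp
  have hxc : ∀ i : Fin (N + 1), x i = μ * P0.coeff i := by
    intro i
    rw [← coeff_toP x i, hxμ, Polynomial.coeff_C_mul]
  have hyc : ∀ i : Fin (M + 1), y i = ν * Q0.coeff i := by
    intro i
    rw [← coeff_toP y i, hyν, Polynomial.coeff_C_mul]
  have hcx : ∀ i : Fin (N + 1), Tendsto (fun n => (a n : ℂ)⁻¹ * (P n).coeff i) atTop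
      (𝓝 (μ * P0.coeff i)) := by
    intro i
    have := (tendsto_pi_nhds.mp hax) i
    rw [hxc i] at this
    exact this
  have hcy : ∀ i : Fin (M + 1), Tendsto (fun n => (b n : ℂ)⁻¹ * (Q n).coeff i) atTop
      (𝓝 (ν * Q0.coeff i)) := by
    intro i
    have := (tendsto_pi_nhds.mp hby) i
    rw [hyc i] at this
    exact this
  have hlim1 : Tendsto (fun n => (a n : ℂ)⁻¹) atTop (𝓝 μ) := by
    have h1 := hcx (Fin.last N)
    have e0 : P0.coeff (Fin.last N : ℕ) = 1 := by
      have := hP0.coeff_natDegree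
      rwa [hPd] at this
    rw [e0, mul_one] at h1
    refine h1.congr fun n => ?_
    have e1 : (P n).coeff (Fin.last N : ℕ) = 1 := by
      have := (hP n).coeff_natDegree
      rwa [hPn n] at this
    rw [e1, mul_one]
  have hQM : ∀ n, (Q n).coeff M = 0 ∨ (Q n).coeff M = 1 := by
    intro n
    rcases (hQn n).eq_or_lt with h | h
    · right
      have := (hQ n).coeff_natDegree
      rwa [h] at this
    · left
      exact Polynomial.coeff_eq_zero_of_natDegree_lt h
  have hlim2 : Tendsto (fun n => (b n : ℂ)⁻¹) atTop (𝓝 ν) := by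
    have h1 := hcy (Fin.last M)
    have e0 : Q0.coeff (Fin.last M : ℕ) = 1 := by
      have := hQ0.coeff_natDegree
      rwa [hQd] at this
    rw [e0, mul_one] at h1
    have h2 := h1.eventually_ne hν
    refine h1.congr' ?_
    filter_upwards [h2] with n hn
    rcases hQM n with h | h
    · exfalso
      apply hn
      rw [show ((Fin.last M : Fin (M + 1)) : ℕ) = M from rfl, h, mul_zero]
    · rw [show ((Fin.last M : Fin (M + 1)) : ℕ) = M from rfl, h, mul_one]
  constructor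
  · intro i
    by_cases hi : i < N + 1
    · have h1 := (hlim1.inv₀ hμ).mul (hcx ⟨i, hi⟩)
      rw [← mul_assoc, inv_mul_cancel₀ hμ, one_mul] at h1
      refine h1.congr fun n => ?_
      have : (a n : ℂ) ≠ 0 := by exact_mod_cast (ha n).ne'
      rw [inv_inv, ← mul_assoc, mul_inv_cancel₀ this, one_mul]
    · have e1 : ∀ n, (P n).coeff i = 0 := fun n =>
        Polynomial.coeff_eq_zero_of_natDegree_lt (by rw [hPn]; omega)
      have e2 : P0.coeff i = 0 := Polynomial.coeff_eq_zero_of_natDegree_lt (by rw [hPd]; omega)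
      simp only [e1, e2]
      exact tendsto_const_nhds
  · intro i
    by_cases hi : i < M + 1
    · have h1 := (hlim2.inv₀ hν).mul (hcy ⟨i, hi⟩)
      rw [← mul_assoc, inv_mul_cancel₀ hν, one_mul] at h1
      refine h1.congr fun n => ?_
      have : (b n : ℂ) ≠ 0 := by exact_mod_cast (hb n).ne'
      rw [inv_inv, ← mul_assoc, mul_inv_cancel₀ this, one_mul]
    · have e1 : ∀ n, (Q n).coeff i = 0 := fun n =>
        Polynomial.coeff_eq_zero_of_natDegree_lt (lt_of_le_of_lt (hQn n) (by omega))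
      have e2 : Q0.coeff i = 0 := Polynomial.coeff_eq_zero_of_natDegree_lt (by rw [hQd]; omega)
      simp only [e1, e2]
      exact tendsto_const_nhds

theorem poly_core {N M : ℕ} {P0 Q0 : Polynomial ℂ} (hP0 : P0.Monic) (hQ0 : Q0.Monic)
    (hPd : P0.natDegree = N) (hQd : Q0.natDegree = M)
    (hco : ∀ z, P0.eval z = 0 → Q0.eval z ≠ 0) {P Q : ℕ → Polynomial ℂ}
    (hP : ∀ n, (P n).Monic) (hQ : ∀ n, (Q n).Monic)
    (hPn : ∀ n, (P n).natDegree = N) (hQn : ∀ n, (Q n).natDegree ≤ M)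
    {g : ℕ → ℂ → ℝ} (hg : ∀ n, ContDiff ℝ 2 (g n))
    (hlap : ∀ R : ℝ, ∀ ε > 0, ∀ᶠ n in atTop, ∀ z : ℂ, ‖z‖ ≤ R → |lap (g n) z| ≤ ε)
    (hlim : ∀ K : Set ℂ, IsCompact K → (∀ z ∈ K, P0.eval z ≠ 0 ∧ Q0.eval z ≠ 0) → ∀ ε > 0,
      ∀ᶠ n in atTop, ∀ z ∈ K, |Real.exp (g n z) * ‖(Q n).eval z * P0.eval z‖ -
        ‖(P n).eval z * Q0.eval z‖| ≤ ε * ‖(P n).eval z * Q0.eval z‖) :
    (∀ i, Tendsto (fun n => (P n).coeff i) atTop (𝓝 (P0.coeff i))) ∧
    (∀ i, Tendsto (fun n => (Q n).coeff i) atTop (𝓝 (Q0.coeff i))) ∧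
    ∀ᶠ n in atTop, (Q n).natDegree = M := by
  -- norms of the coefficient vectors
  set a : ℕ → ℝ := fun n => ‖cv (N + 1) (P n)‖ with ha
  set b : ℕ → ℝ := fun n => ‖cv (M + 1) (Q n)‖ with hb
  have ha0 : ∀ n, 0 < a n := by
    intro n
    have h1 : ‖(P n).coeff N‖ ≤ a n := norm_le_pi_norm (cv (N + 1) (P n)) (Fin.last N)
    have h2 : (P n).coeff N = 1 := by
      have := (hP n).coeff_natDegree
      rwa [hPn n] at this
    rw [h2, norm_one] at h1
    linarith
  have hb0 : ∀ n, 0 < b n := by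
    intro n
    have h1 : ‖(Q n).coeff (Q n).natDegree‖ ≤ b n :=
      norm_le_pi_norm (cv (M + 1) (Q n)) ⟨(Q n).natDegree, Nat.lt_succ_of_le (hQn n)⟩
    rw [(hQ n).coeff_natDegree, norm_one] at h1
    linarith
  set X : ℕ → (Fin (N + 1) → ℂ) × (Fin (M + 1) → ℂ) := fun n =>
    (((a n : ℂ)⁻¹) • cv (N + 1) (P n), ((b n : ℂ)⁻¹) • cv (M + 1) (Q n)) with hX
  have hXmem : ∀ n, X n ∈ (sphere (0 : Fin (N + 1) → ℂ) 1) ×ˢ
      (sphere (0 : Fin (M + 1) → ℂ) 1) := by
    intro n
    constructor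
    · rw [mem_sphere, dist_zero_right]
      simp only [hX]
      rw [norm_smul, norm_inv, Complex.norm_real, Real.norm_of_nonneg (ha0 n).le]
      exact inv_mul_cancel₀ (ha0 n).ne'
    · rw [mem_sphere, dist_zero_right]
      simp only [hX]
      rw [norm_smul, norm_inv, Complex.norm_real, Real.norm_of_nonneg (hb0 n).le]
      exact inv_mul_cancel₀ (hb0 n).ne'
  have hcomp : IsCompact ((sphere (0 : Fin (N + 1) → ℂ) 1) ×ˢ
      (sphere (0 : Fin (M + 1) → ℂ) 1)) := (isCompact_sphere _ _).prod (isCompact_sphere _ _)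
  -- subsequence principle
  have hsub : ∀ ns : ℕ → ℕ, Tendsto ns atTop atTop → ∃ ms : ℕ → ℕ,
      (∀ i, Tendsto (fun n => (P (ns (ms n))).coeff i) atTop (𝓝 (P0.coeff i))) ∧
      (∀ i, Tendsto (fun n => (Q (ns (ms n))).coeff i) atTop (𝓝 (Q0.coeff i))) := by
    intro ns hns
    obtain ⟨⟨x, y⟩, hxy, ms, hms, hlimX⟩ := hcomp.tendsto_subseq (x := fun n => X (ns n))
      (fun n => hXmem (ns n))
    refine ⟨ms, ?_⟩
    have hnm : Tendsto (fun n => ns (ms n)) atTop atTop := hns.comp hms.tendsto_atTop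
    have hx0 : x ≠ 0 := by
      rintro rfl
      have := hxy.1
      simp at this
    have hy0 : y ≠ 0 := by
      rintro rfl
      have := hxy.2
      simp at this
    have h1 := (Prod.tendsto_iff _ _).mp hlimX
    exact poly_core_aux hP0 hQ0 hPd hQd hco (P := fun n => P (ns (ms n)))
      (Q := fun n => Q (ns (ms n))) (fun n => hP _) (fun n => hQ _) (fun n => hPn _)
      (fun n => hQn _) (g := fun n => g (ns (ms n))) (fun n => hg _)
      (fun R ε hε => hnm.eventually (hlap R ε hε))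
      (fun K hK hK' ε hε => hnm.eventually (hlim K hK hK' ε hε)) hx0 hy0
      (a := fun n => a (ns (ms n))) (b := fun n => b (ns (ms n))) (fun n => ha0 _)
      (fun n => hb0 _) h1.1 h1.2
  have hQlim : ∀ i, Tendsto (fun n => (Q n).coeff i) atTop (𝓝 (Q0.coeff i)) := by
    intro i
    apply tendsto_of_subseq_tendsto
    intro ns hns
    obtain ⟨ms, -, h2⟩ := hsub ns hns
    exact ⟨ms, h2 i⟩
  refine ⟨?_, hQlim, ?_⟩
  · intro i
    apply tendsto_of_subseq_tendsto
    intro ns hns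
    obtain ⟨ms, h1, -⟩ := hsub ns hns
    exact ⟨ms, h1 i⟩
  · have h1 := hQlim M
    have h2 : Q0.coeff M = 1 := by
      have := hQ0.coeff_natDegree
      rwa [hQd] at this
    rw [h2] at h1
    filter_upwards [h1.eventually_ne one_ne_zero] with n hn
    rcases (hQn n).eq_or_lt with h | h
    · exact h
    · exact absurd (Polynomial.coeff_eq_zero_of_natDegree_lt h) hn

end Pool.Agent.Work.MP_089002_mp
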