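import Pool.Agent.Work.MP_089002_mp.Unique
import Pool.Agent.Work.MP_089002_mp.PolyCore
import Pool.Agent.Work.MP_089002_mp.Topo

open MeasureTheory Filter Topology Set Matrix Polynomial
open scoped ContDiff Real ComplexConjugate

namespace Pool.Agent.Work.MP_089002_mp

variable {N : ℕ} {c : Config} {P Q : ℂ[X]} {L : ℂ → ℂ}

/-- square root form of the relation -/
theorem Data.rel' (h : c.IsSolution N) (d : Data c P Q L) (z : ℂ) :
    Real.exp (L z).re * ‖Q.eval z‖ * √(1 + c.φ z 2) = ‖P.eval z‖ * √(1 - c.φ z 2) := by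
  have h1 := d.rel h z
  rw [normSq_QL, Complex.normSq_eq_norm_sq, Complex.normSq_eq_norm_sq] at h1
  have h2 := h.unit' z
  have h3 : 0 ≤ 1 + c.φ z 2 := by nlinarith [sq_nonneg (c.φ z 0), sq_nonneg (c.φ z 1)]
  have h4 : 0 ≤ 1 - c.φ z 2 := by nlinarith [sq_nonneg (c.φ z 0), sq_nonneg (c.φ z 1)]
  have e : Real.exp (2 * (L z).re) = Real.exp (L z).re ^ 2 := by
    rw [← Real.exp_nat_mul]; norm_num
  have h5 : (Real.exp (L z).re * ‖Q.eval z‖ * √(1 + c.φ z 2)) ^ 2 =
      (‖P.eval z‖ * √(1 - c.φ z 2)) ^ 2 := by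
    rw [mul_pow, mul_pow, mul_pow, Real.sq_sqrt h3, Real.sq_sqrt h4, ← h1, e]
    ring
  have h6 : 0 ≤ Real.exp (L z).re * ‖Q.eval z‖ * √(1 + c.φ z 2) := by positivity
  have h7 : 0 ≤ ‖P.eval z‖ * √(1 - c.φ z 2) := by positivity
  exact (sq_eq_sq₀ h6 h7).1 h5

theorem Data.ne_iff (h : c.IsSolution N) (d : Data c P Q L) (z : ℂ) :
    (P.eval z ≠ 0 ∧ Q.eval z ≠ 0) ↔ (-1 < c.φ z 2 ∧ c.φ z 2 < 1) := by
  have h1 := d.rel h z
  have h2 := h.unit' z
  have h3 : 0 ≤ 1 + c.φ z 2 := by nlinarith [sq_nonneg (c.φ z 0), sq_nonneg (c.φ z 1)]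
  have h4 : 0 ≤ 1 - c.φ z 2 := by nlinarith [sq_nonneg (c.φ z 0), sq_nonneg (c.φ z 1)]
  have h5 := d.pos z
  constructor
  · rintro ⟨hp, hq⟩
    have h6 := Complex.normSq_pos.2 hp
    have h7 : 0 < Complex.normSq (Q.eval z * Complex.exp (L z)) :=
      Complex.normSq_pos.2 (mul_ne_zero hq (Complex.exp_ne_zero _))
    constructor
    · by_contra hcon
      have : c.φ z 2 = -1 := by linarith
      rw [this] at h1
      have : Complex.normSq (P.eval z) = 0 := by linarith
      linarith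
    · by_contra hcon
      have : c.φ z 2 = 1 := by linarith
      rw [this] at h1
      have : Complex.normSq (Q.eval z * Complex.exp (L z)) = 0 := by linarith
      linarith
  · rintro ⟨h6, h7⟩
    constructor
    · intro h0
      rw [h0, map_zero, zero_mul] at h1
      rw [h0, map_zero, zero_add] at h5
      have : 0 < 1 + c.φ z 2 := by linarith
      have := mul_pos h5 this
      linarith
    · intro h0
      rw [h0, zero_mul, map_zero, zero_mul] at h1
      rw [h0, zero_mul, map_zero, add_zero] at h5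
      have : 0 < 1 - c.φ z 2 := by linarith
      have := mul_pos h5 this
      linarith

theorem monic_ext {n : ℕ} {P P' : ℂ[X]} (h : P.Monic) (h' : P'.Monic) (hn : P.natDegree = n)
    (hn' : P'.natDegree = n) (hc : ∀ i : Fin n, P.coeff i = P'.coeff i) : P = P' := by
  ext i
  rcases lt_trichotomy i n with h1 | h1 | h1
  · exact hc ⟨i, h1⟩
  · rw [h1]
    have e1 : P.coeff n = 1 := by rw [← hn]; exact h
    have e2 : P'.coeff n = 1 := by rw [← hn']; exact h'
    rw [e1, e2]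
  · rw [coeff_eq_zero_of_natDegree_lt (by omega), coeff_eq_zero_of_natDegree_lt (by omega)]

section fam

variable {k : ℕ}

/-- The family is continuous at a point with maximal number of zeros. -/
theorem family_cont {c : (Fin k → ℝ) → Config} (hsol : ∀ t, (c t).IsSolution N)
    {P Q : (Fin k → ℝ) → ℂ[X]} {L : (Fin k → ℝ) → ℂ → ℂ} {M : ℕ}
    (hP : ∀ t, (P t).natDegree = N) (hQ : ∀ t, (Q t).natDegree ≤ M)
    (hD : ∀ t, Data (c t) (P t) (Q t) (L t)) {t₁ : Fin k → ℝ} (hM : (Q t₁).natDegree = M)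
    (hcont : ∀ z, ContinuousAt (fun p : (Fin k → ℝ) × ℂ => (c p.1).φ p.2 2) (t₁, z)) :
    (∀ i, ContinuousAt (fun t => (P t).coeff i) t₁) ∧
    (∀ i, ContinuousAt (fun t => (Q t).coeff i) t₁) ∧
    ∀ᶠ t in 𝓝 t₁, (Q t).natDegree = M := by
  have key : ∀ u : ℕ → (Fin k → ℝ), Tendsto u atTop (𝓝 t₁) →
      (∀ i, Tendsto (fun n => (P (u n)).coeff i) atTop (𝓝 ((P t₁).coeff i))) ∧
      (∀ i, Tendsto (fun n => (Q (u n)).coeff i) atTop (𝓝 ((Q t₁).coeff i))) ∧
      ∀ᶠ n in atTop, (Q (u n)).natDegree = M := by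
    intro u hu
    refine poly_core (hD t₁).monP (hD t₁).monQ (hP t₁) hM (hD t₁).copr (fun n => (hD _).monP)
      (fun n => (hD _).monQ) (fun n => hP _) (fun n => hQ _)
      (g := fun n z => (L (u n) z).re - (L t₁ z).re) (fun n => ?_) ?_ ?_
    · exact (re_smooth (contDiff_infty.1 (hD _).smooth 2)).sub
        (re_smooth (contDiff_infty.1 (hD _).smooth 2))
    · intro R ε hε
      have h1 : ∀ᶠ t in 𝓝 t₁, ∀ z ∈ Metric.closedBall (0 : ℂ) R,
          |(c t).φ z 2 - (c t₁).φ z 2| ≤ ε := by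
        apply (isCompact_closedBall (0 : ℂ) R).eventually_forall_of_forall_eventually
        intro z _
        have h2 : ContinuousAt (fun p : (Fin k → ℝ) × ℂ =>
            |(c p.1).φ p.2 2 - (c t₁).φ p.2 2|) (t₁, z) := by
          refine ((hcont z).sub ?_).abs
          exact ((hsol t₁).cont 2).continuousAt.comp continuousAt_snd
        have h3 : (fun p : (Fin k → ℝ) × ℂ => |(c p.1).φ p.2 2 - (c t₁).φ p.2 2|) (t₁, z) < ε := by
          simpa using hε
        exact (h2.eventually_lt_const h3).mono fun p hp => hp.le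
      filter_upwards [hu.eventually h1] with n hn z hz
      have h4 := hn z (by simpa using hz)
      rw [lap_sub (re_smooth (contDiff_infty.1 (hD _).smooth 2))
        (re_smooth (contDiff_infty.1 (hD _).smooth 2)), (hD _).lapU (hsol _),
        (hD _).lapU (hsol _)]
      rw [abs_le] at h4 ⊢
      constructor <;> linarith [h4.1, h4.2]
    · intro K hK hKz ε hε
      set F : (Fin k → ℝ) × ℂ → ℝ := fun p =>
        √(1 - (c p.1).φ p.2 2) * √(1 + (c t₁).φ p.2 2) /
          (√(1 + (c p.1).φ p.2 2) * √(1 - (c t₁).φ p.2 2)) with hF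
      have h1 : ∀ᶠ t in 𝓝 t₁, ∀ z ∈ K, |F (t, z) - 1| ≤ ε ∧ -1 < (c t).φ z 2 := by
        apply hK.eventually_forall_of_forall_eventually
        intro z hz
        obtain ⟨h2, h3⟩ := ((hD t₁).ne_iff (hsol t₁) z).1 (hKz z hz)
        have c1 : ContinuousAt (fun p : (Fin k → ℝ) × ℂ => (c t₁).φ p.2 2) (t₁, z) :=
          ContinuousAt.comp (g := fun z => (c t₁).φ z 2) ((hsol t₁).cont 2).continuousAt
            continuousAt_snd
        have e1 : 0 < √(1 + (c t₁).φ z 2) := Real.sqrt_pos.2 (by linarith)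
        have e2 : 0 < √(1 - (c t₁).φ z 2) := Real.sqrt_pos.2 (by linarith)
        have hFc : ContinuousAt F (t₁, z) := by
          refine ContinuousAt.div ?_ ?_ ?_
          · exact ((continuousAt_const.sub (hcont z)).sqrt).mul
              ((continuousAt_const.add c1).sqrt)
          · exact ((continuousAt_const.add (hcont z)).sqrt).mul
              ((continuousAt_const.sub c1).sqrt)
          · exact mul_ne_zero e1.ne' e2.ne'
        have hF1 : F (t₁, z) = 1 := by
          simp only [hF]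
          rw [mul_comm]
          exact div_self (mul_ne_zero e1.ne' e2.ne')
        have h5 : ∀ᶠ p in 𝓝 (t₁, z), |F p - 1| < ε := by
          have hFc2 : ContinuousAt (fun p => |F p - 1|) (t₁, z) :=
            (hFc.sub continuousAt_const).abs
          refine hFc2.eventually_lt_const ?_
          change |F (t₁, z) - 1| < ε
          rw [hF1]; simpa using hε
        have h6 : ∀ᶠ p in 𝓝 (t₁, z), -1 < (c p.1).φ p.2 2 :=
          (hcont z).eventually (lt_mem_nhds h2)
        filter_upwards [h5, h6] with p hp1 hp2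
        exact ⟨hp1.le, hp2⟩
      filter_upwards [hu.eventually h1] with n hn z hz
      obtain ⟨h7, h8⟩ := hn z hz
      obtain ⟨h2, h3⟩ := ((hD t₁).ne_iff (hsol t₁) z).1 (hKz z hz)
      have r1 := (hD (u n)).rel' (hsol (u n)) z
      have r2 := (hD t₁).rel' (hsol t₁) z
      have s1 : 0 < √(1 + (c t₁).φ z 2) := Real.sqrt_pos.2 (by linarith)
      have s2 : 0 < √(1 - (c t₁).φ z 2) := Real.sqrt_pos.2 (by linarith)
      have s3 : 0 < √(1 + (c (u n)).φ z 2) := Real.sqrt_pos.2 (by linarith)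
      have e0 : Real.exp (L t₁ z).re ≠ 0 := (Real.exp_pos _).ne'
      have main : Real.exp ((L (u n) z).re - (L t₁ z).re) *
          ‖(Q (u n)).eval z * (P t₁).eval z‖ =
          F (u n, z) * ‖(P (u n)).eval z * (Q t₁).eval z‖ := by
        rw [Real.exp_sub, norm_mul, norm_mul, hF]
        simp only
        rw [div_mul_eq_mul_div, div_mul_eq_mul_div, div_eq_div_iff e0 (by positivity)]
        calc Real.exp (L (u n) z).re * (‖(Q (u n)).eval z‖ * ‖(P t₁).eval z‖) *
              (√(1 + (c (u n)).φ z 2) * √(1 - (c t₁).φ z 2)) =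
            (Real.exp (L (u n) z).re * ‖(Q (u n)).eval z‖ * √(1 + (c (u n)).φ z 2)) *
              (‖(P t₁).eval z‖ * √(1 - (c t₁).φ z 2)) := by ring
          _ = (‖(P (u n)).eval z‖ * √(1 - (c (u n)).φ z 2)) *
              (Real.exp (L t₁ z).re * ‖(Q t₁).eval z‖ * √(1 + (c t₁).φ z 2)) := by rw [r1, r2]
          _ = _ := by ring
      rw [main]
      have e3 : F (u n, z) * ‖(P (u n)).eval z * (Q t₁).eval z‖ -
          ‖(P (u n)).eval z * (Q t₁).eval z‖ =
          (F (u n, z) - 1) * ‖(P (u n)).eval z * (Q t₁).eval z‖ := by ring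
      rw [e3, abs_mul, abs_of_nonneg (norm_nonneg ((P (u n)).eval z * (Q t₁).eval z))]
      exact mul_le_mul_of_nonneg_right h7 (norm_nonneg _)
  refine ⟨fun i => ?_, fun i => ?_, ?_⟩
  · exact tendsto_of_seq_tendsto fun u hu => (key u hu).1 i
  · exact tendsto_of_seq_tendsto fun u hu => (key u hu).2.1 i
  · rw [eventually_iff_seq_eventually]
    exact fun u hu => (key u hu).2.2

/-- Upper bound for the number of parameters -/
theorem no_big_family (hN : 2 ≤ N) (hk : 4 * N - 3 < k) {T : Set (Fin k → ℝ)} (hT : IsOpen T)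
    (hne : T.Nonempty) (c : (Fin k → ℝ) → Config) (hsol : ∀ t ∈ T, (c t).IsSolution N)
    (hcont : ContinuousOn (fun p : (Fin k → ℝ) × ℂ => (c p.1).φ p.2 2) (T ×ˢ univ)) :
    ∃ s ∈ T, ∃ t ∈ T, s ≠ t ∧ GaugeEquiv (c s) (c t) := by
  classical
  by_contra hno
  push Not at hno
  obtain ⟨tt, htt⟩ := hne
  set ρ : (Fin k → ℝ) → (Fin k → ℝ) := fun t => if t ∈ T then t else tt with hρ
  have hρT : ∀ t, ρ t ∈ T := by
    intro t
    by_cases h : t ∈ T
    · simp only [hρ, if_pos h]; exact h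
    · simp only [hρ, if_neg h]; exact htt
  have hρe : ∀ t ∈ T, ρ t = t := fun t h => by simp only [hρ, if_pos h]
  have hdata : ∀ t, ∃ (P Q : ℂ[X]) (L : ℂ → ℂ), t ∈ T → P.natDegree = N ∧ Q.natDegree + 2 ≤ N ∧
      Data (c t) P Q L := by
    intro t
    by_cases h : t ∈ T
    · obtain ⟨P, Q, L, h1⟩ := (hsol t h).exists_data hN
      exact ⟨P, Q, L, fun _ => h1⟩
    · exact ⟨0, 0, 0, fun h' => absurd h' h⟩
  choose P Q L hPQL using hdata
  -- maximal number of zeros
  obtain ⟨t₀, ht₀, hmax⟩ : ∃ t₀ ∈ T, ∀ t ∈ T, (Q t).natDegree ≤ (Q t₀).natDegree := by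
    set S : Set ℕ := {n | ∃ t ∈ T, (Q t).natDegree = n} with hS
    have h1 : S.Nonempty := ⟨_, tt, htt, rfl⟩
    have h2 : BddAbove S := by
      refine ⟨N, ?_⟩
      rintro n ⟨t, ht, rfl⟩
      have := (hPQL t ht).2.1
      omega
    obtain ⟨t₀, ht₀, h3⟩ := Nat.sSup_mem h1 h2
    refine ⟨t₀, ht₀, fun t ht => ?_⟩
    rw [h3]
    exact le_csSup h2 ⟨t, ht, rfl⟩
  set M := (Q t₀).natDegree with hM
  have hMN : M + 2 ≤ N := (hPQL t₀ ht₀).2.1
  have hcat : ∀ t ∈ T, ∀ z, ContinuousAt (fun p : (Fin k → ℝ) × ℂ => (c p.1).φ p.2 2) (t, z) := by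
    intro t ht z
    exact hcont.continuousAt ((hT.prod isOpen_univ).mem_nhds ⟨ht, mem_univ z⟩)
  have hfam : ∀ t ∈ T, (Q t).natDegree = M →
      (∀ i, ContinuousAt (fun t => (P (ρ t)).coeff i) t) ∧
      (∀ i, ContinuousAt (fun t => (Q (ρ t)).coeff i) t) ∧
      ∀ᶠ t in 𝓝 t, (Q (ρ t)).natDegree = M := by
    intro t ht hQt
    refine family_cont (N := N) (c := fun t => c (ρ t)) (fun t => hsol _ (hρT t))
      (P := fun t => P (ρ t)) (Q := fun t => Q (ρ t)) (L := fun t => L (ρ t))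
      (fun t => (hPQL _ (hρT t)).1) (fun t => hmax _ (hρT t)) (fun t => (hPQL _ (hρT t)).2.2)
      (by rw [hρe t ht]; exact hQt) (fun z => ?_)
    refine (hcat t ht z).congr ?_
    have : ∀ᶠ p : (Fin k → ℝ) × ℂ in 𝓝 (t, z), p.1 ∈ T :=
      continuousAt_fst.eventually (hT.mem_nhds ht)
    filter_upwards [this] with p hp
    rw [hρe _ hp]
  -- base point
  obtain ⟨x₀, hx₀⟩ : ∃ x₀, (P t₀ * Q t₀).eval x₀ ≠ 0 := by
    by_contra hcon
    push Not at hcon
    have h1 : P t₀ * Q t₀ = 0 := by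
      apply Polynomial.funext
      intro x
      rw [hcon x, eval_zero]
    exact ((hPQL t₀ ht₀).2.2.monP.mul (hPQL t₀ ht₀).2.2.monQ).ne_zero h1
  rw [eval_mul] at hx₀
  set U : Set (Fin k → ℝ) := {t | t ∈ T ∧ (Q t).natDegree = M ∧ -1 < (c t).φ x₀ 2 ∧
    (c t).φ x₀ 2 < 1} with hU
  have hcx : ∀ t ∈ T, ContinuousAt (fun t => (c t).φ x₀ 2) t := fun t ht =>
    ContinuousAt.comp (f := fun t => (t, x₀))
      (g := fun p : (Fin k → ℝ) × ℂ => (c p.1).φ p.2 2) (hcat t ht x₀) (by fun_prop)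
  have hUo : IsOpen U := by
    rw [isOpen_iff_mem_nhds]
    rintro t ⟨ht, hQt, h1, h2⟩
    have e1 := hT.mem_nhds ht
    have e2 := (hfam t ht hQt).2.2
    have e3 := (hcx t ht).eventually (lt_mem_nhds h1)
    have e4 := (hcx t ht).eventually (gt_mem_nhds h2)
    filter_upwards [e1, e2, e3, e4] with s hs1 hs2 hs3 hs4
    rw [hρe s hs1] at hs2
    exact ⟨hs1, hs2, hs3, hs4⟩
  have hUne : U.Nonempty := by
    refine ⟨t₀, ht₀, rfl, ?_⟩
    exact ((hPQL t₀ ht₀).2.2.ne_iff (hsol t₀ ht₀) x₀).1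
      ⟨left_ne_zero_of_mul hx₀, right_ne_zero_of_mul hx₀⟩
  set F : (Fin k → ℝ) → (Fin N → ℂ) × (Fin M → ℂ) × ℝ := fun t =>
    (fun i => (P (ρ t)).coeff i, fun i => (Q (ρ t)).coeff i, (c t).φ x₀ 2) with hF
  have hFc : ContinuousOn F U := by
    intro t ht
    apply ContinuousAt.continuousWithinAt
    obtain ⟨f1, f2, f3⟩ := hfam t ht.1 ht.2.1
    refine ContinuousAt.prodMk (continuousAt_pi.2 fun i => f1 i) (ContinuousAt.prodMk
      (continuousAt_pi.2 fun i => f2 i) (hcx t ht.1))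
  have hFi : InjOn F U := by
    intro s hs t ht hst
    by_contra hne
    refine hno s hs.1 t ht.1 hne ?_
    simp only [hF, Prod.mk.injEq] at hst
    rw [hρe s hs.1, hρe t ht.1] at hst
    obtain ⟨g1, g2, g3⟩ := hst
    have dS := (hPQL s hs.1)
    have dT := (hPQL t ht.1)
    have hPe : P s = P t := monic_ext dS.2.2.monP dT.2.2.monP dS.1 dT.1 (fun i => congrFun g1 i)
    have hQe : Q s = Q t := monic_ext dS.2.2.monQ dT.2.2.monQ hs.2.1 ht.2.1
      (fun i => congrFun g2 i)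
    have dT' := dT.2.2
    rw [← hPe, ← hQe] at dT'
    obtain ⟨h5, h6⟩ := (dS.2.2.ne_iff (hsol s hs.1) x₀).2 ⟨hs.2.2.1, hs.2.2.2⟩
    exact gauge_of_data (hsol s hs.1) (hsol t ht.1) dS.2.2 dT' h5 h6 g3
  refine no_inj_fin (F := (Fin N → ℂ) × (Fin M → ℂ) × ℝ) ?_ hUo hUne hFc hFi
  have e1 : Module.finrank ℝ ((Fin N → ℂ) × (Fin M → ℂ) × ℝ) = 2 * N + (2 * M + 1) := by
    rw [Module.finrank_prod, Module.finrank_prod, Module.finrank_pi_fintype,
      Module.finrank_pi_fintype]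
    simp [Complex.finrank_real_complex]
    ring
  rw [e1]
  omega

end fam

end Pool.Agent.Work.MP_089002_mp
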