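import Pool.Agent.Work.MP_089002_mp.Defs

open MeasureTheory Filter Topology Set Matrix
open scoped ContDiff Real ComplexConjugate

namespace Pool.Agent.Work.MP_089002_mp

/-- `db f = ∂₁ f + i ∂₂ f` -/
noncomputable def db (f : ℂ → ℂ) (z : ℂ) : ℂ := fderiv ℝ f z 1 + Complex.I * fderiv ℝ f z Complex.I

theorem db_of {f : ℂ → ℂ} {D : ℂ →L[ℝ] ℂ} {z : ℂ} (h : HasFDerivAt f D z) :
    db f z = D 1 + Complex.I * D Complex.I := by
  rw [db, h.fderiv]

theorem db_congr {f g : ℂ → ℂ} {z : ℂ} (h : f =ᶠ[𝓝 z] g) : db f z = db g z := by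
  rw [db, db, h.fderiv_eq]

theorem db_mul {f g : ℂ → ℂ} {z : ℂ} (hf : DifferentiableAt ℝ f z) (hg : DifferentiableAt ℝ g z) :
    db (fun z => f z * g z) z = db f z * g z + f z * db g z := by
  have h : HasFDerivAt (fun z => f z * g z) _ z := hf.hasFDerivAt.mul hg.hasFDerivAt
  rw [db_of h, db, db]
  simp
  ring

theorem db_add {f g : ℂ → ℂ} {z : ℂ} (hf : DifferentiableAt ℝ f z) (hg : DifferentiableAt ℝ g z) :
    db (fun z => f z + g z) z = db f z + db g z := by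
  have h : HasFDerivAt (fun z => f z + g z) _ z := hf.hasFDerivAt.add hg.hasFDerivAt
  rw [db_of h, db, db]
  simp
  ring

theorem db_sub {f g : ℂ → ℂ} {z : ℂ} (hf : DifferentiableAt ℝ f z) (hg : DifferentiableAt ℝ g z) :
    db (fun z => f z - g z) z = db f z - db g z := by
  have h : HasFDerivAt (fun z => f z - g z) _ z := hf.hasFDerivAt.sub hg.hasFDerivAt
  rw [db_of h, db, db]
  simp
  ring

theorem db_neg {f : ℂ → ℂ} {z : ℂ} (hf : DifferentiableAt ℝ f z) :
    db (fun z => - f z) z = - db f z := by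
  have h : HasFDerivAt (fun z => - f z) _ z := hf.hasFDerivAt.neg
  rw [db_of h, db]
  simp
  ring

theorem db_exp {f : ℂ → ℂ} {z : ℂ} (hf : DifferentiableAt ℝ f z) :
    db (fun z => Complex.exp (f z)) z = Complex.exp (f z) * db f z := by
  rw [db_of (hf.hasFDerivAt.cexp), db]
  simp
  ring

theorem db_const (c z : ℂ) : db (fun _ => c) z = 0 := by
  simp [db]

theorem db_ofReal {f : ℂ → ℝ} {z : ℂ} (hf : DifferentiableAt ℝ f z) :
    db (fun z => (f z : ℂ)) z = fderiv ℝ f z 1 + Complex.I * (fderiv ℝ f z Complex.I) := by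
  have h : HasFDerivAt (fun z => (f z : ℂ)) _ z :=
    Complex.ofRealCLM.hasFDerivAt.comp z hf.hasFDerivAt
  rw [db_of h]
  rfl

theorem db_eq_zero {f : ℂ → ℂ} {z : ℂ} (hf : DifferentiableAt ℂ f z) : db f z = 0 := by
  have h := (differentiableAt_complex_iff_differentiableAt_real.1 hf).2
  rw [db, h]
  simp only [smul_eq_mul]
  rw [← mul_assoc, Complex.I_mul_I]
  ring

theorem differentiableAt_of_db {f : ℂ → ℂ} {z : ℂ} (hf : DifferentiableAt ℝ f z) (h : db f z = 0) :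
    DifferentiableAt ℂ f z := by
  rw [differentiableAt_complex_iff_differentiableAt_real]
  refine ⟨hf, ?_⟩
  rw [db] at h
  rw [smul_eq_mul]
  linear_combination (-Complex.I) * h + (fderiv ℝ f z Complex.I) * Complex.I_mul_I

theorem vec_apply {φ : ℂ → (Fin 3 → ℝ)} {z : ℂ} (h : DifferentiableAt ℝ φ z) (i : Fin 3) (v : ℂ) :
    fderiv ℝ φ z v i = fderiv ℝ (fun x => φ x i) z v := by
  have := fderiv_pi (𝕜 := ℝ) (φ := fun i x => φ x i) (x := z)
    (fun i => (differentiableAt_pi.1 h i))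
  have h2 : (fun x i => φ x i) = φ := rfl
  rw [h2] at this
  rw [this]
  rfl

/-- the algebra behind the first order equation for `w = (φ₁ + i φ₂)/(1 + φ₃)` -/
theorem alg_w {p0 p1 p2 a0 a1 a2 b0 b1 b2 A B : ℝ} (hu : p0 ^ 2 + p1 ^ 2 + p2 ^ 2 = 1)
    (hb : p0 * b0 + p1 * b1 + p2 * b2 = 0)
    (h0 : a0 - A * p1 = -(p1 * b2 - p2 * (b1 + B * p0)))
    (h1 : a1 + A * p0 = -(p2 * (b0 - B * p1) - p0 * b2))
    (h2 : a2 = -(p0 * (b1 + B * p0) - p1 * (b0 - B * p1))) :
    (((a0 : ℂ) + a1 * Complex.I) + Complex.I * (b0 + b1 * Complex.I)) * (1 + p2)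
      - (p0 + p1 * Complex.I) * (a2 + Complex.I * b2) =
    (B - Complex.I * A) * ((p0 + p1 * Complex.I) * (1 + p2)) := by
  obtain rfl : a0 = A * p1 -(p1 * b2 - p2 * (b1 + B * p0)) := by linarith
  obtain rfl : a1 = - (A * p0) -(p2 * (b0 - B * p1) - p0 * b2) := by linarith
  subst h2
  apply Complex.ext
  · simp
    linear_combination (b1 + B * p0) * hu - p1 * hb
  · simp
    linear_combination (-(b0 - B * p1)) * hu + p0 * hb

theorem alg_v {p0 p1 p2 a0 a1 a2 b0 b1 b2 A B : ℝ} (hu : p0 ^ 2 + p1 ^ 2 + p2 ^ 2 = 1)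
    (hb : p0 * b0 + p1 * b1 + p2 * b2 = 0)
    (h0 : a0 - A * p1 = -(p1 * b2 - p2 * (b1 + B * p0)))
    (h1 : a1 + A * p0 = -(p2 * (b0 - B * p1) - p0 * b2))
    (h2 : a2 = -(p0 * (b1 + B * p0) - p1 * (b0 - B * p1))) :
    (((a0 : ℂ) - a1 * Complex.I) + Complex.I * (b0 - b1 * Complex.I)) * (1 - p2)
      + (p0 - p1 * Complex.I) * (a2 + Complex.I * b2) =
    - (B - Complex.I * A) * ((p0 - p1 * Complex.I) * (1 - p2)) := by
  obtain rfl : a0 = A * p1 -(p1 * b2 - p2 * (b1 + B * p0)) := by linarith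
  obtain rfl : a1 = - (A * p0) -(p2 * (b0 - B * p1) - p0 * b2) := by linarith
  subst h2
  apply Complex.ext
  · simp
    linear_combination (-(b1 + B * p0)) * hu + p1 * hb
  · simp
    linear_combination (-(b0 - B * p1)) * hu + p0 * hb

variable {N : ℕ} {c : Config}

theorem Config.IsSolution.diff (h : c.IsSolution N) (i : Fin 3) (z : ℂ) :
    DifferentiableAt ℝ (fun x => c.φ x i) z :=
  differentiableAt_pi.1 (h.smooth_φ.differentiable (by simp) z) i

theorem Config.IsSolution.unit' (h : c.IsSolution N) (z : ℂ) :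
    c.φ z 0 ^ 2 + c.φ z 1 ^ 2 + c.φ z 2 ^ 2 = 1 := by
  have := h.unit z
  simp only [dotProduct, Fin.sum_univ_three] at this
  linarith

theorem Config.IsSolution.orth (h : c.IsSolution N) (z v : ℂ) :
    c.φ z 0 * fderiv ℝ c.φ z v 0 + c.φ z 1 * fderiv ℝ c.φ z v 1 +
      c.φ z 2 * fderiv ℝ c.φ z v 2 = 0 := by
  have h1 : (fun z => c.φ z 0 ^ 2 + c.φ z 1 ^ 2 + c.φ z 2 ^ 2) = fun _ => 1 := by
    ext z; exact h.unit' z
  have h0 := h.smooth_φ.differentiable (by simp) z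
  have h2 : HasFDerivAt (fun z => c.φ z 0 ^ 2 + c.φ z 1 ^ 2 + c.φ z 2 ^ 2) _ z :=
    (((h.diff 0 z).hasFDerivAt.pow 2).add ((h.diff 1 z).hasFDerivAt.pow 2)).add
      ((h.diff 2 z).hasFDerivAt.pow 2)
  rw [h1] at h2
  have h3 := h2.unique (hasFDerivAt_const (1 : ℝ) z)
  have h4 := congrArg (fun D => D v) h3
  rw [vec_apply h0, vec_apply h0, vec_apply h0]
  simp at h4
  linarith

/-- the connection form: `a = A₂ - i A₁` -/
noncomputable def Config.a (c : Config) (z : ℂ) : ℂ := c.A₂ z - Complex.I * c.A₁ z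

/-- `w = (φ₁ + i φ₂) / (1 + φ₃)` -/
noncomputable def Config.w (c : Config) (z : ℂ) : ℂ := planar (c.φ z) / (1 + c.φ z 2)

/-- `v = (φ₁ - i φ₂) / (1 - φ₃)` -/
noncomputable def Config.v (c : Config) (z : ℂ) : ℂ := conj (planar (c.φ z)) / (1 - c.φ z 2)

theorem Config.IsSolution.sd_comp (h : c.IsSolution N) (z : ℂ) :
    (fderiv ℝ c.φ z 1 0 - c.A₁ z * c.φ z 1 = -(c.φ z 1 * fderiv ℝ c.φ z Complex.I 2 -
      c.φ z 2 * (fderiv ℝ c.φ z Complex.I 1 + c.A₂ z * c.φ z 0))) ∧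
    (fderiv ℝ c.φ z 1 1 + c.A₁ z * c.φ z 0 =
      -(c.φ z 2 * (fderiv ℝ c.φ z Complex.I 0 - c.A₂ z * c.φ z 1) -
        c.φ z 0 * fderiv ℝ c.φ z Complex.I 2)) ∧
    (fderiv ℝ c.φ z 1 2 = -(c.φ z 0 * (fderiv ℝ c.φ z Complex.I 1 + c.A₂ z * c.φ z 0) -
      c.φ z 1 * (fderiv ℝ c.φ z Complex.I 0 - c.A₂ z * c.φ z 1))) := by
  have h1 := h.sd1 z
  have e0 := congrFun h1 0
  have e1 := congrFun h1 1
  have e2 := congrFun h1 2
  simp [Config.D₁, Config.D₂, d1, d2, north, cross_apply, Matrix.vecHead, Matrix.vecTail]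
    at e0 e1 e2
  refine ⟨?_, ?_, ?_⟩
  · linarith
  · linarith
  · linarith

theorem diff_ofReal {f : ℂ → ℝ} {z : ℂ} (hf : DifferentiableAt ℝ f z) :
    DifferentiableAt ℝ (fun x => (f x : ℂ)) z :=
  (Complex.ofRealCLM.hasFDerivAt.comp z hf.hasFDerivAt).differentiableAt

theorem Config.IsSolution.db_w (h : c.IsSolution N) {z : ℂ} (hz : c.φ z 2 ≠ -1) :
    DifferentiableAt ℝ c.w z ∧ db c.w z = c.a z * c.w z := by
  have hd := fun i => h.diff i z
  have h0 := h.smooth_φ.differentiable (by simp) z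
  have hne : (1 + (c.φ z 2 : ℂ)) ≠ 0 := by
    intro h1
    have : (1 + c.φ z 2 : ℝ) = 0 := by exact_mod_cast h1
    exact hz (by linarith)
  have q0 := diff_ofReal (hd 0)
  have q1 := diff_ofReal (hd 1)
  have q2 := diff_ofReal (hd 2)
  have q1' : DifferentiableAt ℝ (fun x => (c.φ x 1 : ℂ) * Complex.I) z := q1.mul_const _
  have hpl : DifferentiableAt ℝ (fun x => planar (c.φ x)) z := q0.add q1'
  have h3 : DifferentiableAt ℝ (fun x => 1 + (c.φ x 2 : ℂ)) z := q2.const_add _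
  have hw : DifferentiableAt ℝ c.w z := by
    have := hpl.mul (h3.inv hne)
    simp only [← div_eq_mul_inv] at this
    exact this
  refine ⟨hw, ?_⟩
  have e1 : db (fun x => c.w x * (1 + (c.φ x 2 : ℂ))) z = db (fun x => planar (c.φ x)) z := by
    apply db_congr
    have h4 : ∀ᶠ x in 𝓝 z, c.φ x 2 ≠ -1 :=
      (continuous_apply 2).continuousAt.comp h0.continuousAt |>.eventually_ne hz
    filter_upwards [h4] with x hx
    have : (1 + (c.φ x 2 : ℂ)) ≠ 0 := by
      intro h1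
      have : (1 + c.φ x 2 : ℝ) = 0 := by exact_mod_cast h1
      exact hx (by linarith)
    rw [Config.w, div_mul_cancel₀ _ this]
  rw [db_mul hw h3, db_add (differentiableAt_const _) q2, db_const, db_ofReal (hd 2)] at e1
  have e2 : db (fun x => planar (c.φ x)) z = db (fun x => (c.φ x 0 : ℂ)) z +
      db (fun x => (c.φ x 1 : ℂ)) z * Complex.I := by
    unfold planar
    rw [db_add q0 q1', db_mul q1 (differentiableAt_const _), db_const]
    ring
  rw [db_ofReal (hd 0), db_ofReal (hd 1)] at e2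
  obtain ⟨s0, s1, s2⟩ := h.sd_comp z
  have s3 := alg_w (h.unit' z) (h.orth z Complex.I) s0 s1 s2
  simp only [vec_apply h0] at s3
  have hwz : c.w z * (1 + (c.φ z 2 : ℂ)) = (c.φ z 0 : ℂ) + (c.φ z 1 : ℂ) * Complex.I := by
    rw [Config.w, div_mul_cancel₀ _ hne, planar]
  rw [Config.a]
  apply mul_right_cancel₀ hne
  apply mul_right_cancel₀ hne
  rw [e2] at e1
  rw [← hwz] at s3
  linear_combination (1 + (c.φ z 2 : ℂ)) * e1 + s3

theorem Config.IsSolution.db_v (h : c.IsSolution N) {z : ℂ} (hz : c.φ z 2 ≠ 1) :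
    DifferentiableAt ℝ c.v z ∧ db c.v z = - c.a z * c.v z := by
  have hd := fun i => h.diff i z
  have h0 := h.smooth_φ.differentiable (by simp) z
  have hne : (1 - (c.φ z 2 : ℂ)) ≠ 0 := by
    intro h1
    have : (1 - c.φ z 2 : ℝ) = 0 := by exact_mod_cast h1
    exact hz (by linarith)
  have q0 := diff_ofReal (hd 0)
  have q1 := diff_ofReal (hd 1)
  have q2 := diff_ofReal (hd 2)
  have q1' : DifferentiableAt ℝ (fun x => (c.φ x 1 : ℂ) * Complex.I) z := q1.mul_const _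
  have hc : ∀ x, conj (planar (c.φ x)) = (c.φ x 0 : ℂ) - (c.φ x 1 : ℂ) * Complex.I := by
    intro x
    rw [planar]
    simp [sub_eq_add_neg]
  have hpl : DifferentiableAt ℝ (fun x => conj (planar (c.φ x))) z := by
    simp only [hc]
    exact q0.sub q1'
  have h3 : DifferentiableAt ℝ (fun x => 1 - (c.φ x 2 : ℂ)) z := q2.const_sub _
  have hw : DifferentiableAt ℝ c.v z := by
    have := hpl.mul (h3.inv hne)
    simp only [← div_eq_mul_inv] at this
    exact this
  refine ⟨hw, ?_⟩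
  have e1 : db (fun x => c.v x * (1 - (c.φ x 2 : ℂ))) z =
      db (fun x => conj (planar (c.φ x))) z := by
    apply db_congr
    have h4 : ∀ᶠ x in 𝓝 z, c.φ x 2 ≠ 1 :=
      (continuous_apply 2).continuousAt.comp h0.continuousAt |>.eventually_ne hz
    filter_upwards [h4] with x hx
    have : (1 - (c.φ x 2 : ℂ)) ≠ 0 := by
      intro h1
      have : (1 - c.φ x 2 : ℝ) = 0 := by exact_mod_cast h1
      exact hx (by linarith)
    rw [Config.v, div_mul_cancel₀ _ this]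
  rw [db_mul hw h3, db_sub (differentiableAt_const _) q2, db_const, db_ofReal (hd 2)] at e1
  have e2 : db (fun x => conj (planar (c.φ x))) z = db (fun x => (c.φ x 0 : ℂ)) z -
      db (fun x => (c.φ x 1 : ℂ)) z * Complex.I := by
    simp only [hc]
    rw [db_sub q0 q1', db_mul q1 (differentiableAt_const _), db_const]
    ring
  rw [db_ofReal (hd 0), db_ofReal (hd 1)] at e2
  obtain ⟨s0, s1, s2⟩ := h.sd_comp z
  have s3 := alg_v (h.unit' z) (h.orth z Complex.I) s0 s1 s2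
  simp only [vec_apply h0] at s3
  have hwz : c.v z * (1 - (c.φ z 2 : ℂ)) = (c.φ z 0 : ℂ) - (c.φ z 1 : ℂ) * Complex.I := by
    rw [Config.v, div_mul_cancel₀ _ hne, hc]
  rw [Config.a]
  apply mul_right_cancel₀ hne
  apply mul_right_cancel₀ hne
  rw [e2] at e1
  rw [← hwz] at s3
  linear_combination (1 - (c.φ z 2 : ℂ)) * e1 + s3

end Pool.Agent.Work.MP_089002_mp
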