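import Pool.Agent.Work.MP_089002_mp.Scalar
import Pool.Agent.Work.MP_089002_mp.Entire
import Pool.Agent.Work.MP_089002_mp.DbarGlobal

open MeasureTheory Filter Topology Set Matrix Polynomial
open scoped ContDiff Real ComplexConjugate

namespace Pool.Agent.Work.MP_089002_mp

variable {N : ℕ} {c : Config}

theorem Config.IsSolution.cont (h : c.IsSolution N) (i : Fin 3) : Continuous (fun x => c.φ x i) :=
  continuous_iff_continuousAt.2 fun z => (h.diff i z).continuousAt

theorem Config.IsSolution.planar_norm (h : c.IsSolution N) (z : ℂ) :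
    planar (c.φ z) * conj (planar (c.φ z)) = (1 + c.φ z 2) * (1 - c.φ z 2) := by
  have := h.unit' z
  have h2 : ((c.φ z 0 ^ 2 + c.φ z 1 ^ 2 + c.φ z 2 ^ 2 : ℝ) : ℂ) = 1 := by rw [this]; simp
  push_cast at h2
  rw [planar]
  simp only [map_add, map_mul, Complex.conj_ofReal, Complex.conj_I]
  linear_combination h2 - (c.φ z 1 : ℂ) ^ 2 * Complex.I_sq

theorem Config.IsSolution.planar_zero (h : c.IsSolution N) {z : ℂ}
    (hz : c.φ z 2 = -1 ∨ c.φ z 2 = 1) : planar (c.φ z) = 0 := by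
  have h1 := h.planar_norm z
  have h2 : planar (c.φ z) * conj (planar (c.φ z)) = 0 := by
    rw [h1]
    rcases hz with hz | hz <;> simp [hz]
  rcases mul_eq_zero.1 h2 with h3 | h3
  · exact h3
  · exact (map_eq_zero _).1 h3

theorem ne1 {x : ℝ} (h : x ≠ -1) : (1 + (x : ℂ)) ≠ 0 := by
  intro h1
  have : (1 + x : ℝ) = 0 := by exact_mod_cast h1
  exact h (by linarith)

theorem ne2 {x : ℝ} (h : x ≠ 1) : (1 - (x : ℂ)) ≠ 0 := by
  intro h1
  have : (1 - x : ℝ) = 0 := by exact_mod_cast h1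
  exact h (by linarith)

theorem Config.IsSolution.w_mul_v (h : c.IsSolution N) {z : ℂ} (h1 : c.φ z 2 ≠ -1)
    (h2 : c.φ z 2 ≠ 1) : c.w z * c.v z = 1 := by
  rw [Config.w, Config.v, div_mul_div_comm, h.planar_norm z]
  exact div_self (mul_ne_zero (ne1 h1) (ne2 h2))

theorem Config.IsSolution.vacuum' (h : c.IsSolution N) :
    Tendsto (fun x => c.φ x 2) (cocompact ℂ) (𝓝 1) := by
  have h1 := h.vacuum
  have h2 : (fun x => north ⬝ᵥ c.φ x) = fun x => c.φ x 2 := by
    ext x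
    simp [north, dotProduct, Fin.sum_univ_three]
  rwa [h2] at h1

theorem contDiff_a (h : c.IsSolution N) : ContDiff ℝ ∞ c.a := by
  have h1 : ContDiff ℝ ∞ (fun z => (c.A₂ z : ℂ)) := Complex.ofRealCLM.contDiff.comp h.smooth_A₂
  have h2 : ContDiff ℝ ∞ (fun z => (c.A₁ z : ℂ)) := Complex.ofRealCLM.contDiff.comp h.smooth_A₁
  exact h1.sub (contDiff_const.mul h2)

theorem factor (h : c.IsSolution N) : ∃ (P : ℂ[X]) (H ψ : ℂ → ℂ), P.Monic ∧ Differentiable ℂ H ∧
    ContDiff ℝ ∞ ψ ∧ (∀ z, db ψ z = c.a z) ∧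
    (∀ z, planar (c.φ z) * P.eval z = (1 + c.φ z 2) * (H z * Complex.exp (ψ z))) ∧
    (∀ z, conj (planar (c.φ z)) * (H z * Complex.exp (ψ z)) = (1 - c.φ z 2) * P.eval z) ∧
    (∀ z, P.eval z = 0 ↔ c.φ z 2 = -1) ∧ (∀ z, P.eval z = 0 → H z ≠ 0) := by
  obtain ⟨ψ, hψ, hψ'⟩ := exists_dbar_global (contDiff_a h)
  have hψd : ∀ z, DifferentiableAt ℝ ψ z := fun z => hψ.differentiable (by simp) z
  set S : Set ℂ := {z | c.φ z 2 = -1} with hS
  set Z : Set ℂ := {z | c.φ z 2 = 1} with hZ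
  have hSc : IsClosed S := isClosed_eq (h.cont 2) continuous_const
  have hZc : IsClosed Z := isClosed_eq (h.cont 2) continuous_const
  have hSb : Bornology.IsBounded S := by
    have h1 : ∀ᶠ z in cocompact ℂ, c.φ z 2 ≠ -1 :=
      h.vacuum'.eventually_ne (by norm_num)
    rw [← Metric.cobounded_eq_cocompact] at h1
    have h2 : Sᶜ ∈ Bornology.cobounded ℂ := h1
    exact Bornology.isBounded_def.2 h2
  have hSZ : ∀ z ∈ S, z ∉ Z := by
    intro z hz hz'
    have h1 : c.φ z 2 = -1 := hz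
    have h2 : c.φ z 2 = 1 := hz'
    rw [h1] at h2
    norm_num at h2
  set h1 : ℂ → ℂ := fun z => c.w z * Complex.exp (-ψ z) with hh1
  set h2 : ℂ → ℂ := fun z => c.v z * Complex.exp (ψ z) with hh2
  have dh1 : ∀ z, z ∉ S → DifferentiableAt ℂ h1 z := by
    intro z hz
    obtain ⟨h3, h4⟩ := h.db_w (z := z) hz
    have h5 : DifferentiableAt ℝ (fun z => Complex.exp (-ψ z)) z := (hψd z).neg.cexp
    have h6 : DifferentiableAt ℝ (fun z => c.w z * Complex.exp (-ψ z)) z := h3.mul h5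
    apply differentiableAt_of_db h6
    rw [db_mul h3 h5, db_exp (f := fun z => -ψ z) (hψd z).neg, db_neg (hψd z), h4]
    have : db ψ z = c.a z := hψ' z
    rw [this]; ring
  have dh2 : ∀ z, z ∉ Z → DifferentiableAt ℂ h2 z := by
    intro z hz
    obtain ⟨h3, h4⟩ := h.db_v (z := z) hz
    have h5 : DifferentiableAt ℝ (fun z => Complex.exp (ψ z)) z := (hψd z).cexp
    have h6 : DifferentiableAt ℝ (fun z => c.v z * Complex.exp (ψ z)) z := h3.mul h5
    apply differentiableAt_of_db h6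
    rw [db_mul h3 h5, db_exp (hψd z), h4]
    have : db ψ z = c.a z := hψ' z
    rw [this]; ring
  have h12 : ∀ z, z ∉ S → z ∉ Z → h1 z * h2 z = 1 := by
    intro z hz hz'
    have h3 := h.w_mul_v (z := z) hz hz'
    have h4 : Complex.exp (-ψ z) * Complex.exp (ψ z) = 1 := by
      rw [← Complex.exp_add]; simp
    calc h1 z * h2 z = (c.w z * c.v z) * (Complex.exp (-ψ z) * Complex.exp (ψ z)) := by
          rw [hh1, hh2]; ring
      _ = 1 := by rw [h3, h4, one_mul]
  have z2 : ∀ z ∈ S, h2 z = 0 := by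
    intro z hz
    rw [hh2]
    simp only
    rw [Config.v, h.planar_zero (Or.inl hz)]
    simp
  have hSf := finite_S hSc hZc hSb hSZ dh2 h12 z2
  obtain ⟨P, H, hP, hH, hr, hmin⟩ := exists_num_min hSf hZc hSZ dh1 dh2 h12
  -- P = H h2 off Z
  have hr2 : ∀ z, z ∉ Z → P.eval z = H z * h2 z := by
    intro z hz
    by_cases hzS : z ∈ S
    · have t1 : Tendsto (fun w => P.eval w) (𝓝[≠] z) (𝓝 (P.eval z)) :=
        (Polynomial.continuous P).continuousAt.tendsto.mono_left nhdsWithin_le_nhds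
      have t2 : Tendsto (fun w => H w * h2 w) (𝓝[≠] z) (𝓝 (H z * h2 z)) :=
        ((hH z).continuousAt.mul (dh2 z hz).continuousAt).tendsto.mono_left nhdsWithin_le_nhds
      refine tendsto_nhds_unique_of_eventuallyEq t1 t2 ?_
      have hev : ∀ᶠ w in 𝓝[≠] z, w ∉ Z := nhdsWithin_le_nhds (hZc.isOpen_compl.mem_nhds hz)
      have hev2 : ∀ᶠ w in 𝓝[≠] z, w ∉ S := by
        have hcl : IsClosed (S \ {z}) := (hSf.subset sdiff_subset).isClosed
        have hmem : (S \ {z})ᶜ ∈ 𝓝 z := hcl.isOpen_compl.mem_nhds (by simp)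
        have := nhdsWithin_le_nhds (s := {z}ᶜ) hmem
        filter_upwards [this, self_mem_nhdsWithin] with w hw1 hw2 hw3
        exact hw1 ⟨hw3, hw2⟩
      filter_upwards [hev, hev2] with w hw1 hw2
      rw [← hr w hw2, mul_assoc, h12 w hw2 hw1, mul_one]
    · rw [← hr z hzS, mul_assoc, h12 z hzS hz, mul_one]
  refine ⟨P, H, ψ, hP, hH, hψ, hψ', fun z => ?_, fun z => ?_, fun z => ⟨fun hz => ?_, fun hz => ?_⟩,
    hmin⟩
  · by_cases hz : z ∈ S
    · have : c.φ z 2 = -1 := hz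
      rw [h.planar_zero (Or.inl hz), this]
      simp
    · rw [← hr z hz]
      have h4 : Complex.exp (-ψ z) * Complex.exp (ψ z) = 1 := by
        rw [← Complex.exp_add]; simp
      have h5 : c.w z * (1 + c.φ z 2) = planar (c.φ z) := by
        rw [Config.w, div_mul_cancel₀ _ (ne1 hz)]
      rw [hh1, ← h5]
      linear_combination (-(1 + (c.φ z 2 : ℂ)) * eval z P * c.w z) * h4
  · by_cases hz : z ∈ Z
    · have : c.φ z 2 = 1 := hz
      rw [h.planar_zero (Or.inr hz), this]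
      simp
    · rw [hr2 z hz]
      have h5 : c.v z * (1 - c.φ z 2) = conj (planar (c.φ z)) := by
        rw [Config.v, div_mul_cancel₀ _ (ne2 hz)]
      rw [hh2, ← h5]
      ring
  · by_contra hzS
    exact hmin z hz (by rw [← hr z hzS, hz, zero_mul])
  · rw [hr2 z (hSZ z hz), z2 z hz, mul_zero]

/-- divide out zeros of an entire function -/
theorem exists_den {H : ℂ → ℂ} (hH : Differentiable ℂ H) (n : ℕ)
    (hno : ∀ (Q : ℂ[X]) (G : ℂ → ℂ), Q.Monic → Q.natDegree = n → Differentiable ℂ G →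
      (∀ z, H z = Q.eval z * G z) → False) :
    ∃ (Q : ℂ[X]) (l : ℂ → ℂ), Q.Monic ∧ Q.natDegree < n ∧ Differentiable ℂ l ∧
      ∀ z, H z = Q.eval z * Complex.exp (l z) := by
  have key : ∀ m : ℕ, (∃ (Q : ℂ[X]) (G : ℂ → ℂ), Q.Monic ∧ Q.natDegree = m ∧
      Differentiable ℂ G ∧ ∀ z, H z = Q.eval z * G z) ∨
      (∃ (Q : ℂ[X]) (l : ℂ → ℂ), Q.Monic ∧ Q.natDegree < m ∧ Differentiable ℂ l ∧
      ∀ z, H z = Q.eval z * Complex.exp (l z)) := by
    intro m
    induction m with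
    | zero => exact Or.inl ⟨1, H, monic_one, natDegree_one, hH, fun z => by simp⟩
    | succ m ih =>
      rcases ih with ⟨Q, G, hQ, hQd, hG, hHG⟩ | ⟨Q, l, hQ, hQd, hl, hHl⟩
      · by_cases h0 : ∃ z, G z = 0
        · obtain ⟨z₀, hz₀⟩ := h0
          obtain ⟨G₁, hG₁, hG₁e⟩ := entire_div hG hz₀
          left
          refine ⟨Q * (X - C z₀), G₁, hQ.mul (monic_X_sub_C _), ?_, hG₁, fun z => ?_⟩
          · rw [hQ.natDegree_mul (monic_X_sub_C _), natDegree_X_sub_C, hQd]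
          · rw [hHG, hG₁e, eval_mul, eval_sub, eval_X, eval_C]; ring
        · push Not at h0
          obtain ⟨l, hl, hle⟩ := entire_log hG h0
          right
          exact ⟨Q, l, hQ, by omega, hl, fun z => by rw [hHG, hle]⟩
      · right
        exact ⟨Q, l, hQ, by omega, hl, hHl⟩
  rcases key n with ⟨Q, G, hQ, hQd, hG, hHG⟩ | h
  · exact (hno Q G hQ hQd hG hHG).elim
  · exact h

end Pool.Agent.Work.MP_089002_mp
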