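import Pool.Agent.Work.MP_089002_mp.Structure
import Pool.Agent.Work.MP_089002_mp.Degree

open MeasureTheory Filter Topology Set Matrix Polynomial
open scoped ContDiff Real ComplexConjugate

namespace Pool.Agent.Work.MP_089002_mp

variable {N : ℕ} {c : Config}

theorem Config.IsSolution.south_iff (h : c.IsSolution N) (z : ℂ) :
    c.φ z = south ↔ c.φ z 2 = -1 := by
  constructor
  · intro h1; rw [h1]; simp [south]
  · intro h1
    have h2 := h.unit' z
    rw [h1] at h2
    have h3 : c.φ z 0 = 0 := by nlinarith [sq_nonneg (c.φ z 0), sq_nonneg (c.φ z 1)]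
    have h4 : c.φ z 1 = 0 := by nlinarith [sq_nonneg (c.φ z 0), sq_nonneg (c.φ z 1)]
    ext i
    fin_cases i
    · simpa [south] using h3
    · simpa [south] using h4
    · simpa [south] using h1

/-- the data `(P, Q, L)` of a solution -/
structure Data (c : Config) (P Q : ℂ[X]) (L : ℂ → ℂ) : Prop where
  monP : P.Monic
  monQ : Q.Monic
  smooth : ContDiff ℝ ∞ L
  dbL : ∀ z, db L z = c.a z
  rel1 : ∀ z, planar (c.φ z) * P.eval z = (1 + c.φ z 2) * (Q.eval z * Complex.exp (L z))
  rel2 : ∀ z, conj (planar (c.φ z)) * (Q.eval z * Complex.exp (L z)) = (1 - c.φ z 2) * P.eval z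
  copr : ∀ z, P.eval z = 0 → Q.eval z ≠ 0

theorem Config.IsSolution.exists_data (h : c.IsSolution N) (hN : 2 ≤ N) :
    ∃ (P Q : ℂ[X]) (L : ℂ → ℂ), P.natDegree = N ∧ Q.natDegree + 2 ≤ N ∧ Data c P Q L := by
  classical
  obtain ⟨P, H, ψ, hP, hH, hψ, hψ', r1, r2, hPS, hmin⟩ := factor h
  have hψd : ∀ z, DifferentiableAt ℝ ψ z := fun z => hψ.differentiable (by simp) z
  -- degree
  have hdeg : P.natDegree = N := by
    refine degree_config h.unit h.smooth_φ.continuous h.degree hP
      (E := fun z => H z * Complex.exp (ψ z)) ?_ (fun z => ?_) (fun z hz => ?_)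
    · exact hH.continuous.mul hψ.continuous.cexp
    · rw [r1]; push_cast; ring
    · exact mul_ne_zero (hmin z hz) (Complex.exp_ne_zero _)
  obtain ⟨p₀, hp₀⟩ : ∃ p, P.eval p = 0 := by
    have : P.degree ≠ 0 := by
      rw [degree_eq_natDegree hP.ne_zero, hdeg]
      have : N ≠ 0 := by omega
      exact_mod_cast this
    obtain ⟨p, hp⟩ := IsAlgClosed.exists_root P this
    exact ⟨p, hp⟩
  obtain ⟨Q, l, hQ, hQd, hl, hQl⟩ := exists_den hH (N - 1) (by
    intro Q G hQ hQd hG hHG
    have hGr : ContDiff ℝ ∞ G := (hG.contDiff (n := ∞)).restrict_scalars ℝ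
    have hGe : ContDiff ℝ ∞ (fun z => G z * Complex.exp (ψ z)) := hGr.mul hψ.cexp
    refine count_config h hGe (fun z => ?_) hP.ne_zero hQ.ne_zero (by rw [hQd, hdeg]; omega)
      (fun z => ?_) ⟨p₀, ?_⟩
    · have := db_mul (z := z) (hGr.differentiable (by simp) z) (hψd z).cexp
      rw [db_exp (hψd z), db_eq_zero (hG z), hψ' z] at this
      rw [db, Config.a] at this
      rw [this]
      ring
    · rw [r1, hHG]; push_cast; ring
    · have := hmin p₀ hp₀
      rw [hHG] at this
      exact mul_ne_zero (right_ne_zero_of_mul this) (Complex.exp_ne_zero _))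
  have hlr : ContDiff ℝ ∞ l := (hl.contDiff (n := ∞)).restrict_scalars ℝ
  refine ⟨P, Q, fun z => l z + ψ z, hdeg, by omega, hP, hQ, hlr.add hψ, fun z => ?_, fun z => ?_,
    fun z => ?_, fun z hz hz' => ?_⟩
  · rw [db_add (hlr.differentiable (by simp) z) (hψd z), db_eq_zero (hl z), hψ' z, zero_add]
  · rw [r1, hQl, Complex.exp_add]; ring
  · rw [← r2, hQl, Complex.exp_add]; ring
  · exact hmin z hz (by rw [hQl, hz', zero_mul])

end Pool.Agent.Work.MP_089002_mp
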