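import Pool.Agent.Work.MP_089002_mp.Structure2
import Pool.Agent.Work.MP_089002_mp.Compare

open MeasureTheory Filter Topology Set Matrix Polynomial
open scoped ContDiff Real ComplexConjugate

namespace Pool.Agent.Work.MP_089002_mp

theorem fderiv_fderiv_apply {F : ℂ → ℝ} (hF : ContDiff ℝ 2 F) (z v w : ℂ) :
    fderiv ℝ (fun z => fderiv ℝ F z v) z w = D2 F z w v := by
  have h1 : HasFDerivAt (fun z => fderiv ℝ F z v)
      ((ContinuousLinearMap.apply ℝ ℝ v).comp (D2 F z)) z :=
    (ContinuousLinearMap.apply ℝ ℝ v).hasFDerivAt.comp z (diff_fderiv hF z)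
  rw [h1.fderiv]
  simp

theorem lap_neg {v : ℂ → ℝ} (hv : ContDiff ℝ 2 v) (z : ℂ) : lap (fun z => -v z) z = -lap v z := by
  have e : ∀ a b, D2 (fun z => -v z) z a b = -D2 v z a b := by
    intro a b
    have : fderiv ℝ (fun z => -v z) = fun z => -fderiv ℝ v z := by
      funext z; exact fderiv_fun_neg
    rw [D2, this, fderiv_fun_neg]
    simp [D2]
  rw [lap_eq hv.neg, lap_eq hv, e, e]; ring

theorem D2_sub {u v : ℂ → ℝ} (hu : ContDiff ℝ 2 u) (hv : ContDiff ℝ 2 v) (z : ℂ) :
    D2 (fun z => u z - v z) z = D2 u z - D2 v z := by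
  have : fderiv ℝ (fun z => u z - v z) = fun z => fderiv ℝ u z - fderiv ℝ v z := by
    funext z
    exact fderiv_fun_sub (hu.differentiable (by norm_num) z) (hv.differentiable (by norm_num) z)
  rw [D2, this, fderiv_fun_sub (diff_fderiv hu z).differentiableAt
    (diff_fderiv hv z).differentiableAt]
  rfl

theorem lap_sub {u v : ℂ → ℝ} (hu : ContDiff ℝ 2 u) (hv : ContDiff ℝ 2 v) (z : ℂ) :
    lap (fun z => u z - v z) z = lap u z - lap v z := by
  rw [lap_eq (hu.sub hv), lap_eq hu, lap_eq hv, D2_sub hu hv]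
  simp
  ring

theorem re_smooth {L : ℂ → ℂ} {n : WithTop ℕ∞} (hL : ContDiff ℝ n L) :
    ContDiff ℝ n (fun z => (L z).re) :=
  Complex.reCLM.contDiff.comp hL

theorem im_smooth {L : ℂ → ℂ} {n : WithTop ℕ∞} (hL : ContDiff ℝ n L) :
    ContDiff ℝ n (fun z => (L z).im) :=
  Complex.imCLM.contDiff.comp hL

theorem fderiv_re {L : ℂ → ℂ} {z : ℂ} (hL : DifferentiableAt ℝ L z) (v : ℂ) :
    fderiv ℝ (fun z => (L z).re) z v = (fderiv ℝ L z v).re := by
  have : HasFDerivAt (fun z => (L z).re) (Complex.reCLM.comp (fderiv ℝ L z)) z :=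
    Complex.reCLM.hasFDerivAt.comp z hL.hasFDerivAt
  rw [this.fderiv]
  rfl

theorem fderiv_im {L : ℂ → ℂ} {z : ℂ} (hL : DifferentiableAt ℝ L z) (v : ℂ) :
    fderiv ℝ (fun z => (L z).im) z v = (fderiv ℝ L z v).im := by
  have : HasFDerivAt (fun z => (L z).im) (Complex.imCLM.comp (fderiv ℝ L z)) z :=
    Complex.imCLM.hasFDerivAt.comp z hL.hasFDerivAt
  rw [this.fderiv]
  rfl

theorem lap_re {L : ℂ → ℂ} (hL : ContDiff ℝ 2 L) {A B : ℂ → ℝ} (hA : ContDiff ℝ 1 A)
    (hB : ContDiff ℝ 1 B) (hdb : ∀ z, db L z = (B z : ℂ) - Complex.I * A z) (z : ℂ) :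
    lap (fun z => (L z).re) z = fderiv ℝ B z 1 - fderiv ℝ A z Complex.I := by
  have hLd : ∀ z, DifferentiableAt ℝ L z := fun z => hL.differentiable (by norm_num) z
  have hβ := im_smooth hL
  have e1 : (fun z => fderiv ℝ (fun z => (L z).re) z 1) =
      fun z => B z + fderiv ℝ (fun z => (L z).im) z Complex.I := by
    ext z
    rw [fderiv_re (hLd z), fderiv_im (hLd z)]
    have := congrArg Complex.re (hdb z)
    rw [db] at this
    simp at this
    linarith
  have e2 : (fun z => fderiv ℝ (fun z => (L z).re) z Complex.I) =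
      fun z => -A z - fderiv ℝ (fun z => (L z).im) z 1 := by
    ext z
    rw [fderiv_re (hLd z), fderiv_im (hLd z)]
    have := congrArg Complex.im (hdb z)
    rw [db] at this
    simp at this
    linarith
  have hAd : DifferentiableAt ℝ A z := hA.differentiable (by norm_num) z
  have hBd : DifferentiableAt ℝ B z := hB.differentiable (by norm_num) z
  have hd : ∀ v : ℂ, DifferentiableAt ℝ (fun z => fderiv ℝ (fun z => (L z).im) z v) z := by
    intro v
    exact ((ContinuousLinearMap.apply ℝ ℝ v).hasFDerivAt.comp z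
      (diff_fderiv hβ z)).differentiableAt
  rw [lap, e1, e2, fderiv_fun_add hBd (hd _), fderiv_fun_sub (f := fun z => -A z) hAd.neg (hd _), fderiv_fun_neg]
  simp only [_root_.add_apply, _root_.sub_apply, _root_.neg_apply]
  rw [fderiv_fderiv_apply hβ, fderiv_fderiv_apply hβ, D2_symm hβ]
  ring

variable {N : ℕ} {c : Config} {P Q : ℂ[X]} {L : ℂ → ℂ}

/-- `Y (1 + φ₃) = X (1 - φ₃)` with `X = |P|²`, `Y = |Q e^L|²` -/
theorem Data.rel (h : c.IsSolution N) (d : Data c P Q L) (z : ℂ) :
    Complex.normSq (Q.eval z * Complex.exp (L z)) * (1 + c.φ z 2) =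
      Complex.normSq (P.eval z) * (1 - c.φ z 2) := by
  have hn : Complex.normSq (planar (c.φ z)) = (1 + c.φ z 2) * (1 - c.φ z 2) := by
    have h1 := h.planar_norm z
    rw [Complex.mul_conj] at h1
    exact_mod_cast h1
  by_cases h1 : c.φ z 2 = 1
  · have h2 := d.rel1 z
    rw [h.planar_zero (Or.inr h1), h1, zero_mul] at h2
    have h3 : Q.eval z * Complex.exp (L z) = 0 := by
      rcases mul_eq_zero.1 h2.symm with h4 | h4
      · norm_num at h4
      · exact h4
    rw [h3, h1]; simp
  · have h2 := congrArg Complex.normSq (d.rel2 z)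
    rw [Complex.normSq_mul (conj _), Complex.normSq_mul (1 - (c.φ z 2 : ℂ)),
      Complex.normSq_conj, hn] at h2
    have h3 : Complex.normSq (1 - (c.φ z 2 : ℂ)) = (1 - c.φ z 2) ^ 2 := by
      rw [← Complex.ofReal_one, ← Complex.ofReal_sub, Complex.normSq_ofReal]; ring
    rw [h3] at h2
    have h4 : 1 - c.φ z 2 ≠ 0 := fun h5 => h1 (by linarith)
    apply mul_left_cancel₀ h4
    linear_combination h2

theorem Data.pos (d : Data c P Q L) (z : ℂ) :
    0 < Complex.normSq (P.eval z) + Complex.normSq (Q.eval z * Complex.exp (L z)) := by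
  by_cases h1 : P.eval z = 0
  · have h2 := d.copr z h1
    have h3 : 0 < Complex.normSq (Q.eval z * Complex.exp (L z)) :=
      Complex.normSq_pos.2 (mul_ne_zero h2 (Complex.exp_ne_zero _))
    have h4 := Complex.normSq_nonneg (P.eval z)
    linarith
  · have h3 : 0 < Complex.normSq (P.eval z) := Complex.normSq_pos.2 h1
    have h4 := Complex.normSq_nonneg (Q.eval z * Complex.exp (L z))
    linarith

theorem normSq_QL (Q : ℂ[X]) (L : ℂ → ℂ) (z : ℂ) :
    Complex.normSq (Q.eval z * Complex.exp (L z)) =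
      Complex.normSq (Q.eval z) * Real.exp (2 * (L z).re) := by
  rw [Complex.normSq_mul, Complex.normSq_eq_norm_sq (Complex.exp (L z)), Complex.norm_exp,
    ← Real.exp_nat_mul]
  norm_num

/-- formula for `φ₃` -/
theorem Data.phi3 (h : c.IsSolution N) (d : Data c P Q L) (z : ℂ) :
    c.φ z 2 = (Complex.normSq (P.eval z) - Complex.normSq (Q.eval z) * Real.exp (2 * (L z).re)) /
      (Complex.normSq (P.eval z) + Complex.normSq (Q.eval z) * Real.exp (2 * (L z).re)) := by
  have h1 := d.rel h z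
  have h2 := d.pos z
  rw [normSq_QL] at h1 h2
  rw [eq_div_iff h2.ne']
  linarith

theorem Data.lapU (h : c.IsSolution N) (d : Data c P Q L) (z : ℂ) :
    lap (fun z => (L z).re) z = 1 - c.φ z 2 := by
  have h1 := h.sd2 z
  have h2 : north ⬝ᵥ c.φ z = c.φ z 2 := by
    simp [north, dotProduct, Fin.sum_univ_three]
  rw [h2] at h1
  rw [← h1, Config.F₁₂, d1, d2]
  exact lap_re (contDiff_infty.1 d.smooth 2) (contDiff_infty.1 h.smooth_A₁ 1)
    (contDiff_infty.1 h.smooth_A₂ 1) (fun z => d.dbL z) z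

/-- comparison of `φ₃` for two exponents -/
theorem phi_lip {X Y u v : ℝ} (hX : 0 ≤ X) (hY : 0 ≤ Y) (hXY : 0 < X + Y) (huv : u ≤ v) :
    0 ≤ (X - Y * Real.exp (2 * u)) / (X + Y * Real.exp (2 * u)) -
      (X - Y * Real.exp (2 * v)) / (X + Y * Real.exp (2 * v)) ∧
    (X - Y * Real.exp (2 * u)) / (X + Y * Real.exp (2 * u)) -
      (X - Y * Real.exp (2 * v)) / (X + Y * Real.exp (2 * v)) ≤ v - u := by
  have hpos : ∀ u, 0 < X + Y * Real.exp (2 * u) := by
    intro u
    have := Real.exp_pos (2 * u)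
    rcases hX.lt_or_eq with h | h
    · positivity
    · rw [← h] at hXY ⊢
      have : 0 < Y := by linarith
      positivity
  set f : ℝ → ℝ := fun u => (X - Y * Real.exp (2 * u)) / (X + Y * Real.exp (2 * u)) with hf
  have hd : ∀ u, HasDerivAt f (-(4 * (X * (Y * Real.exp (2 * u)))) /
      (X + Y * Real.exp (2 * u)) ^ 2) u := by
    intro u
    have e1 : HasDerivAt (fun u : ℝ => Y * Real.exp (2 * u)) (Y * (Real.exp (2 * u) * (2 * 1))) u :=
      (((hasDerivAt_id u).const_mul 2).exp).const_mul Y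
    have e2 := (e1.const_sub X).div (e1.const_add X) (hpos u).ne'
    refine HasDerivAt.congr_deriv (f' := _) e2 ?_
    have := (hpos u).ne'
    field_simp
    ring
  have hb : ∀ u, 0 ≤ 4 * (X * (Y * Real.exp (2 * u))) / (X + Y * Real.exp (2 * u)) ^ 2 ∧
      4 * (X * (Y * Real.exp (2 * u))) / (X + Y * Real.exp (2 * u)) ^ 2 ≤ 1 := by
    intro u
    have := hpos u
    refine ⟨by positivity, ?_⟩
    rw [div_le_one (by positivity)]
    nlinarith [sq_nonneg (X - Y * Real.exp (2 * u))]
  have h1 : Antitone f := by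
    apply antitone_of_deriv_nonpos (fun u => (hd u).differentiableAt)
    intro u
    rw [(hd u).deriv, neg_div]
    linarith [(hb u).1]
  have h2 : Monotone (fun u => f u + u) := by
    have hd2 : ∀ u, HasDerivAt (fun u => f u + u) _ u := fun u => (hd u).add (hasDerivAt_id u)
    apply monotone_of_deriv_nonneg (fun u => (hd2 u).differentiableAt)
    intro u
    rw [(hd2 u).deriv, neg_div]
    linarith [(hb u).2]
  have h3 := h1 huv
  have h4 := h2 huv
  simp only [hf] at h3 h4
  constructor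
  · linarith
  · linarith

/-- polynomial growth on circles -/
theorem poly_bound (P : ℂ[X]) : ∃ C, 0 ≤ C ∧ ∀ s : ℝ, 0 ≤ s → ∀ t,
    ‖P.eval (pt s t)‖ ≤ C * Real.exp (P.natDegree * s) := by
  refine ⟨∑ i ∈ Finset.range (P.natDegree + 1), ‖P.coeff i‖,
    Finset.sum_nonneg fun i _ => norm_nonneg _, fun s hs t => ?_⟩
  rw [eval_eq_sum_range, Finset.sum_mul]
  refine (norm_sum_le _ _).trans (Finset.sum_le_sum fun i hi => ?_)
  rw [norm_mul, norm_pow, norm_pt, ← Real.exp_nat_mul]
  apply mul_le_mul_of_nonneg_left _ (norm_nonneg _)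
  apply Real.exp_le_exp.2
  have : (i : ℝ) ≤ P.natDegree := by
    have := Finset.mem_range.1 hi
    exact_mod_cast (by omega : i ≤ P.natDegree)
  exact mul_le_mul_of_nonneg_right this hs

theorem monic_lower {Q : ℂ[X]} (hQ : Q.Monic) : ∃ R : ℝ, ∀ z : ℂ, R ≤ ‖z‖ → 1 / 2 ≤ ‖Q.eval z‖ := by
  by_cases h : Q.natDegree = 0
  · have : Q = 1 := hQ.natDegree_eq_zero.1 h
    exact ⟨0, fun z _ => by rw [this]; norm_num⟩
  · have h1 : Tendsto (fun z : ℂ => ‖Q.eval z‖) (Bornology.cobounded ℂ) atTop := by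
      have := Q.tendsto_norm_atTop (natDegree_pos_iff_degree_pos.1 (Nat.pos_of_ne_zero h))
        (l := Bornology.cobounded ℂ) (z := fun z => z) tendsto_norm_cobounded_atTop
      exact this
    have h2 := h1.eventually_ge_atTop (1 / 2)
    rw [← comap_norm_atTop, eventually_comap] at h2
    obtain ⟨R, hR⟩ := eventually_atTop.1 h2
    exact ⟨R, fun z hz => hR _ hz z rfl⟩

theorem Data.growth (h : c.IsSolution N) (d : Data c P Q L) :
    ∃ C s₀ : ℝ, ∀ s, s₀ ≤ s → mean (fun z => |(L z).re|) 0 s ≤ C * s := by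
  have hu : ContDiff ℝ 2 (fun z => (L z).re) := re_smooth (contDiff_infty.1 d.smooth 2)
  have hlap : ∀ z, 0 ≤ lap (fun z => (L z).re) z := by
    intro z
    rw [d.lapU h]
    have := h.unit' z
    nlinarith [sq_nonneg (c.φ z 0), sq_nonneg (c.φ z 1)]
  obtain ⟨C, hC0, hC⟩ := poly_bound P
  obtain ⟨R₁, hR₁⟩ := monic_lower d.monQ
  obtain ⟨R₀, hR₀⟩ : ∃ R : ℝ, ∀ z : ℂ, R ≤ ‖z‖ → 0 < c.φ z 2 := by
    have h2 : ∀ᶠ z in cocompact ℂ, 0 < c.φ z 2 := h.vacuum'.eventually (lt_mem_nhds (by norm_num))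
    rw [← Metric.cobounded_eq_cocompact, ← comap_norm_atTop, eventually_comap] at h2
    obtain ⟨R, hR⟩ := eventually_atTop.1 h2
    exact ⟨R, fun z hz => hR _ hz z rfl⟩
  set K : ℝ := 2 * C ^ 2 + P.natDegree with hK
  have hK0 : 0 ≤ K := by positivity
  set s₀ : ℝ := max (max R₀ R₁) 1 with hs₀
  have hbound : ∀ s, s₀ ≤ s → ∀ t, (L (pt s t)).re ≤ K * s := by
    intro s hs t
    have hs1 : 1 ≤ s := (le_max_right _ _).trans hs
    have hsR : max R₀ R₁ ≤ s := (le_max_left _ _).trans hs
    have hnorm : max R₀ R₁ ≤ ‖pt s t‖ := by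
      rw [norm_pt]
      have := Real.add_one_le_exp s
      linarith
    have h1 := hR₀ _ ((le_max_left _ _).trans hnorm)
    have h2 := hR₁ _ ((le_max_right _ _).trans hnorm)
    have h3 := d.rel h (pt s t)
    rw [normSq_QL, Complex.normSq_eq_norm_sq, Complex.normSq_eq_norm_sq] at h3
    have h4 := hC s (by linarith) t
    set E := Real.exp (2 * (L (pt s t)).re) with hE
    have hE0 : 0 < E := Real.exp_pos _
    have h5 : ‖Q.eval (pt s t)‖ ^ 2 * E ≤ ‖P.eval (pt s t)‖ ^ 2 := by
      have h6 : 0 ≤ ‖Q.eval (pt s t)‖ ^ 2 * E := by positivity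
      have h7 : 0 ≤ ‖P.eval (pt s t)‖ ^ 2 := by positivity
      nlinarith
    have h6 : E ≤ 4 * ‖P.eval (pt s t)‖ ^ 2 := by
      have : 1 / 4 ≤ ‖Q.eval (pt s t)‖ ^ 2 := by nlinarith
      nlinarith
    have h7 : ‖P.eval (pt s t)‖ ^ 2 ≤ C ^ 2 * Real.exp (2 * (P.natDegree * s)) := by
      have e : Real.exp (2 * (P.natDegree * s)) = Real.exp (P.natDegree * s) ^ 2 := by
        rw [← Real.exp_nat_mul]; norm_num
      rw [e, ← mul_pow]
      exact pow_le_pow_left₀ (norm_nonneg _) h4 2
    have h8 : 4 * C ^ 2 ≤ Real.exp (4 * C ^ 2) := by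
      have := Real.add_one_le_exp (4 * C ^ 2)
      linarith
    have h9 : E ≤ Real.exp (4 * C ^ 2 + 2 * (P.natDegree * s)) := by
      rw [Real.exp_add]
      calc E ≤ 4 * (C ^ 2 * Real.exp (2 * (P.natDegree * s))) := by linarith
        _ = (4 * C ^ 2) * Real.exp (2 * (P.natDegree * s)) := by ring
        _ ≤ _ := mul_le_mul_of_nonneg_right h8 (Real.exp_pos _).le
    have h10 := Real.exp_le_exp.1 h9
    have h11 : C ^ 2 ≤ C ^ 2 * s := by nlinarith [sq_nonneg C]
    rw [hK]
    nlinarith
  refine ⟨4 * π * K + 2 * π * |(L 0).re|, s₀, fun s hs => ?_⟩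
  have hs1 : 1 ≤ s := (le_max_right _ _).trans hs
  have h1 := le_mean hu hlap 0 s
  have hpi := Real.pi_pos
  have hcu : Continuous (fun t => (L (0 + pt s t)).re) :=
    hu.continuous.comp (continuous_const.add (cont_pt' _))
  have h2 : mean (fun z => |(L z).re|) 0 s ≤
      ∫ t in (0 : ℝ)..(2 * π), (2 * (K * s) - (L (0 + pt s t)).re) := by
    apply intervalIntegral.integral_mono_on pi_pos2
    · exact hcu.abs.intervalIntegrable _ _
    · exact (continuous_const.sub hcu).intervalIntegrable _ _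
    · intro t _
      have h3 := hbound s hs t
      have h4 : 0 ≤ K * s := mul_nonneg hK0 (by linarith)
      rw [zero_add, abs_le]
      constructor <;> linarith
  rw [intervalIntegral.integral_sub (intervalIntegrable_const)
    (hcu.intervalIntegrable _ _)] at h2
  simp only [intervalIntegral.integral_const, smul_eq_mul, sub_zero] at h2
  have h3 : mean (fun z => (L z).re) 0 s = ∫ t in (0 : ℝ)..(2 * π), (L (0 + pt s t)).re := rfl
  rw [← h3] at h2
  have h4 : -|(L 0).re| ≤ (L 0).re := neg_abs_le _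
  have h5 : |(L 0).re| ≤ |(L 0).re| * s := by
    nlinarith [abs_nonneg (L 0).re]
  nlinarith

/-- Uniqueness -/
theorem unique {c' : Config} {L' : ℂ → ℂ} {N' : ℕ} (h : c.IsSolution N) (h' : c'.IsSolution N')
    (d : Data c P Q L) (d' : Data c' P Q L') {x₀ : ℂ} (hP : P.eval x₀ ≠ 0) (hQ : Q.eval x₀ ≠ 0)
    (hx : c.φ x₀ 2 = c'.φ x₀ 2) (z : ℂ) : (L z).re = (L' z).re := by
  have hu : ContDiff ℝ 2 (fun z => (L z).re) := re_smooth (contDiff_infty.1 d.smooth 2)
  have hu' : ContDiff ℝ 2 (fun z => (L' z).re) := re_smooth (contDiff_infty.1 d'.smooth 2)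
  set v : ℂ → ℝ := fun z => (L z).re - (L' z).re with hv
  have hvc : ContDiff ℝ 2 v := hu.sub hu'
  have hlap : ∀ z, lap v z = c'.φ z 2 - c.φ z 2 := by
    intro z
    rw [hv, lap_sub hu hu', d.lapU h, d'.lapU h']
    ring
  have hXY : ∀ z, 0 < Complex.normSq (P.eval z) + Complex.normSq (Q.eval z) := by
    intro z
    by_cases h1 : P.eval z = 0
    · have h2 := Complex.normSq_pos.2 (d.copr z h1)
      have h3 := Complex.normSq_nonneg (P.eval z)
      linarith
    · have h2 := Complex.normSq_pos.2 h1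
      have h3 := Complex.normSq_nonneg (Q.eval z)
      linarith
  have hpos : ∀ z, 0 ≤ v z → 0 ≤ lap v z ∧ lap v z ≤ v z := by
    intro z hz
    have := phi_lip (Complex.normSq_nonneg (P.eval z)) (Complex.normSq_nonneg (Q.eval z)) (hXY z)
      (u := (L' z).re) (v := (L z).re) (by simp only [hv] at hz; linarith)
    rw [hlap, d.phi3 h, d'.phi3 h']
    exact this
  have hneg : ∀ z, v z ≤ 0 → lap v z ≤ 0 ∧ v z ≤ lap v z := by
    intro z hz
    have := phi_lip (Complex.normSq_nonneg (P.eval z)) (Complex.normSq_nonneg (Q.eval z)) (hXY z)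
      (u := (L z).re) (v := (L' z).re) (by simp only [hv] at hz; linarith)
    rw [hlap, d.phi3 h, d'.phi3 h']
    simp only [hv]
    constructor
    · linarith [this.1]
    · linarith [this.2]
  -- the value at x₀
  have hv0 : v x₀ = 0 := by
    have h1 := d.rel h x₀
    have h2 := d'.rel h' x₀
    rw [normSq_QL] at h1 h2
    rw [← hx] at h2
    have hP' := Complex.normSq_pos.2 hP
    have hQ' := Complex.normSq_pos.2 hQ
    have h3 : 1 + c.φ x₀ 2 ≠ 0 := by
      intro h4
      rw [h4, mul_zero] at h1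
      have h5 : 1 - c.φ x₀ 2 ≠ 0 := by linarith
      exact (mul_ne_zero hP'.ne' h5) h1.symm
    have h4 : Real.exp (2 * (L x₀).re) = Real.exp (2 * (L' x₀).re) := by
      apply mul_left_cancel₀ hQ'.ne'
      apply mul_right_cancel₀ h3
      rw [h1, h2]
    have h5 := Real.exp_injective h4
    simp only [hv]
    linarith
  obtain ⟨C, s₀, hC⟩ := d.growth h
  obtain ⟨C', s₀', hC'⟩ := d'.growth h'
  have hgrow : ∀ s, max s₀ s₀' ≤ s → mean (fun z => |v z|) 0 s ≤ (C + C') * s := by
    intro s hs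
    have h1 := hC s ((le_max_left _ _).trans hs)
    have h2 := hC' s ((le_max_right _ _).trans hs)
    have hcu : Continuous (fun t => |(L (0 + pt s t)).re|) :=
      (hu.continuous.comp (continuous_const.add (cont_pt' _))).abs
    have hcu' : Continuous (fun t => |(L' (0 + pt s t)).re|) :=
      (hu'.continuous.comp (continuous_const.add (cont_pt' _))).abs
    have h3 : mean (fun z => |v z|) 0 s ≤
        ∫ t in (0 : ℝ)..(2 * π), (|(L (0 + pt s t)).re| + |(L' (0 + pt s t)).re|) := by
      apply intervalIntegral.integral_mono_on pi_pos2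
      · exact ((hvc.continuous.comp
          (continuous_const.add (cont_pt' _))).abs).intervalIntegrable _ _
      · exact (hcu.add hcu').intervalIntegrable _ _
      · intro t _
        exact abs_sub _ _
    rw [intervalIntegral.integral_add (hcu.intervalIntegrable _ _)
      (hcu'.intervalIntegrable _ _)] at h3
    have h4 : mean (fun z => |(L z).re|) 0 s =
      ∫ t in (0 : ℝ)..(2 * π), |(L (0 + pt s t)).re| := rfl
    have h5 : mean (fun z => |(L' z).re|) 0 s =
      ∫ t in (0 : ℝ)..(2 * π), |(L' (0 + pt s t)).re| := rfl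
    rw [← h4, ← h5] at h3
    linarith
  have hfin : v z = 0 := by
    rcases sign_of_growth hvc (fun z hz => (hpos z hz.le).1) (fun z hz => (hneg z hz.le).1)
      hgrow with h1 | h1
    · have h2 := eq_zero_of_min hvc.neg (fun z => by linarith [h1 z]) (fun z => by
        rw [lap_neg hvc]
        linarith [(hneg z (h1 z)).2]) (x₀ := x₀) (by rw [hv0, neg_zero]) z
      linarith
    · exact eq_zero_of_min hvc h1 (fun z => (hpos z (h1 z)).2) hv0 z
  simp only [hv] at hfin
  linarith

/-- two solutions with the same data are gauge equivalent -/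
theorem gauge_of_data {c' : Config} {L' : ℂ → ℂ} {N' : ℕ} (h : c.IsSolution N)
    (h' : c'.IsSolution N') (d : Data c P Q L) (d' : Data c' P Q L') {x₀ : ℂ}
    (hP : P.eval x₀ ≠ 0) (hQ : Q.eval x₀ ≠ 0) (hx : c.φ x₀ 2 = c'.φ x₀ 2) :
    GaugeEquiv c c' := by
  have hre := unique h h' d d' hP hQ hx
  have hphi : ∀ z, c.φ z 2 = c'.φ z 2 := by
    intro z
    rw [d.phi3 h, d'.phi3 h', hre z]
  have hLd : ∀ z, DifferentiableAt ℝ L z := fun z => d.smooth.differentiable (by simp) z
  have hLd' : ∀ z, DifferentiableAt ℝ L' z := fun z => d'.smooth.differentiable (by simp) z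
  have hθ : ∀ z v, fderiv ℝ (fun z => (L' z).im - (L z).im) z v =
      (fderiv ℝ L' z v).im - (fderiv ℝ L z v).im := by
    intro z v
    rw [← fderiv_im (hLd' z), ← fderiv_im (hLd z), fderiv_fun_sub
      (im_smooth (contDiff_infty.1 d'.smooth 1) |>.differentiable (by norm_num) z)
      (im_smooth (contDiff_infty.1 d.smooth 1) |>.differentiable (by norm_num) z)]
    rfl
  have hre' : ∀ z v, (fderiv ℝ L' z v).re = (fderiv ℝ L z v).re := by
    intro z v
    rw [← fderiv_re (hLd' z), ← fderiv_re (hLd z)]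
    have : (fun z => (L' z).re) = fun z => (L z).re := by
      ext z; exact (hre z).symm
    rw [this]
  refine ⟨fun z => (L' z).im - (L z).im, (im_smooth d'.smooth).sub (im_smooth d.smooth),
    fun z => ?_, fun z => ?_, fun z => ?_⟩
  · have hexp : Complex.exp (L' z) =
        Complex.exp (L z) * Complex.exp (((L' z).im - (L z).im : ℝ) * Complex.I) := by
      rw [← Complex.exp_add]
      congr 1
      apply Complex.ext
      · simp [hre z]
      · simp
    have hpl : planar (c'.φ z) =
        Complex.exp (((L' z).im - (L z).im : ℝ) * Complex.I) * planar (c.φ z) := by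
      by_cases hP0 : P.eval z = 0
      · have e1 := d.rel2 z
        have e2 := d'.rel2 z
        rw [hP0, mul_zero] at e1 e2
        have hQ0 := d.copr z hP0
        have e3 : planar (c.φ z) = 0 := by
          rcases mul_eq_zero.1 e1 with e4 | e4
          · exact (map_eq_zero _).1 e4
          · exact absurd e4 (mul_ne_zero hQ0 (Complex.exp_ne_zero _))
        have e5 : planar (c'.φ z) = 0 := by
          rcases mul_eq_zero.1 e2 with e4 | e4
          · exact (map_eq_zero _).1 e4
          · exact absurd e4 (mul_ne_zero hQ0 (Complex.exp_ne_zero _))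
        rw [e3, e5, mul_zero]
      · apply mul_right_cancel₀ hP0
        rw [d'.rel1, hexp, mul_assoc, d.rel1, hphi z]
        ring
    have h1 : planar (c'.φ z) = planar (rot ((L' z).im - (L z).im) (c.φ z)) := by
      rw [hpl, Complex.exp_mul_I, planar, planar, rot]
      simp only [Matrix.cons_val_zero, Matrix.cons_val_one]
      rw [← Complex.ofReal_cos, ← Complex.ofReal_sin]
      push_cast
      linear_combination (Complex.sin ((L' z).im - (L z).im) * (c.φ z 1 : ℂ)) * Complex.I_mul_I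
    have hr := congrArg Complex.re h1
    have hi := congrArg Complex.im h1
    simp only [planar, Complex.add_re, Complex.ofReal_re, Complex.mul_re, Complex.I_re, mul_zero,
      Complex.ofReal_im, Complex.I_im, zero_mul, sub_zero, add_zero, Complex.add_im,
      Complex.mul_im, mul_one, zero_add] at hr hi
    ext i
    fin_cases i
    · exact hr
    · exact hi
    · simp [rot, hphi z]
  · have h1 := congrArg Complex.im (d.dbL z)
    have h2 := congrArg Complex.im (d'.dbL z)
    rw [db, Config.a] at h1 h2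
    rw [d1, hθ]
    simp at h1 h2
    have := hre' z Complex.I
    linarith
  · have h1 := congrArg Complex.re (d.dbL z)
    have h2 := congrArg Complex.re (d'.dbL z)
    rw [db, Config.a] at h1 h2
    rw [d2, hθ]
    simp at h1 h2
    have := hre' z 1
    linarith

end Pool.Agent.Work.MP_089002_mp
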